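import Pool.Agent.Helper2.LT.Dom

/-!
Project L2 (MP_b8862a_ag): three Hodge numbers `s, h, s`, symplectic modules. Definitions and the parity.
-/

set_option linter.unusedSectionVars false

open Module PF TF PW AG LT

namespace L2

/-- The exceptional pairs for symplectic modules: `1` two factors; `2` the middle exterior power for `SL_(2k)`, `k` odd; `3`
primitive exterior powers of the standard module of `Sp_(2r+2)`; `4` the half-spin module of `D_6`; `5` the module of
dimension `56` of `E_7`. -/
def ExcS (s h : ℕ) : Prop :=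
  h = 2 * s ∨
  (∃ k, 3 ≤ k ∧ Odd k ∧ ((s = (2 * k - 2).choose k ∧ h = 2 * (2 * k - 2).choose (k - 1)) ∨
    (s = (2 * k - 2).choose (k - 1) ∧ h = 2 * (2 * k - 2).choose k))) ∨
  ((∃ r, 2 ≤ r ∧ s + 1 = (2 * r).choose 2 ∧ h = (2 * r).choose 3) ∨
    ∃ r i, Odd i ∧ i + 3 ≤ r ∧ s + (2 * r).choose (i + 1) = (2 * r).choose (i + 3) ∧
      h + (2 * r).choose i = (2 * r).choose (i + 4)) ∨
  (s = 6 ∧ h = 20) ∨ (s = 12 ∧ h = 32)

variable {E : Type*} [NormedAddCommGroup E] [InnerProductSpace ℝ E] {Φ X : Finset E} {n s : ℕ} {l y v : E} {c : ℝ}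

/-- The parity of a symplectic module: `(l, 2 ρ^∨)` is odd. -/
def ParO (Φ : Finset E) (l v : E) : Prop := ∃ k : ℤ, ∑ a ∈ Ps Φ v, co a l = 2 * (k : ℝ) + 1

/-- The data of project LT with the odd parity. -/
structure DtS (Φ X : Finset E) (n s : ℕ) (l y v : E) : Prop extends AG.D3 Φ X n s l y v where
  top : Top Φ X l v
  par : ParO Φ l v
  ydom : ∀ a ∈ Ps Φ v, 0 ≤ (inner ℝ y a : ℝ)
  ly : (inner ℝ l y : ℝ) = 1

theorem not_par (hp : ParO Φ l v) : ¬ Par Φ l v := by
  rintro ⟨k, hk⟩
  obtain ⟨j, hj⟩ := hp
  rw [hk] at hj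
  have h1 : (2 * k : ℤ) = 2 * j + 1 := by exact_mod_cast hj
  omega

/-- roots have even parity -/
theorem par_root (h : RS Φ) (hreg : ∀ a ∈ Φ, (inner ℝ v a : ℝ) ≠ 0) {b : E} (hb : b ∈ Φ) : Par Φ b v := by
  classical
  have hbb : (inner ℝ b b : ℝ) ≠ 0 := inner_self_ne_zero.2 (h.ne_zero b hb)
  -- the reflection in `b`
  obtain ⟨r, hr⟩ : ∃ r : E → E, r = fun a => a - co b a • b := ⟨_, rfl⟩
  have hrr : ∀ a, r (r a) = a := by
    intro a
    rw [hr]
    show a - co b a • b - co b (a - co b a • b) • b = a
    have h1 : co b (a - co b a • b) = -co b a := by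
      unfold co
      rw [inner_sub_left, inner_smul_left]
      simp only [conj_trivial]
      field_simp
      ring
    rw [h1]
    module
  have hrm : ∀ a ∈ Φ, r a ∈ Φ := by
    intro a ha
    rw [hr]
    exact h.refl b hb a ha
  have hro : ∀ a ∈ Φ, co (r a) b = -co a b := by
    intro a ha
    have e1 : (inner ℝ (r a) (r a) : ℝ) = inner ℝ a a := by
      rw [hr]
      show (inner ℝ (a - co b a • b) (a - co b a • b) : ℝ) = _
      unfold co
      rw [inner_sub_left, inner_sub_right, inner_sub_right, inner_smul_left, inner_smul_right, inner_smul_left,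
        inner_smul_right, real_inner_comm a b]
      simp only [conj_trivial]
      field_simp
      ring
    have e2 : (inner ℝ b (r a) : ℝ) = -inner ℝ b a := by
      rw [hr]
      show (inner ℝ b (a - co b a • b) : ℝ) = _
      unfold co
      rw [inner_sub_right, inner_smul_right, real_inner_comm a b]
      field_simp
      ring
    unfold co
    rw [e1, e2]
    ring
  -- the involution on the positive roots
  obtain ⟨g, hg⟩ : ∃ g : E → E, g = fun a => if 0 < (inner ℝ v (r a) : ℝ) then r a else -r a := ⟨_, rfl⟩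
  have hrn : ∀ a, r (-a) = -r a := by
    intro a
    rw [hr]
    show -a - co b (-a) • b = -(a - co b a • b)
    unfold co
    rw [inner_neg_left]
    module
  have hgm : ∀ a ∈ Ps Φ v, g a ∈ Ps Φ v := by
    intro a ha
    obtain ⟨ha1, ha2⟩ := Finset.mem_filter.1 ha
    have h1 := hrm a ha1
    rw [hg]
    show (if 0 < (inner ℝ v (r a) : ℝ) then r a else -r a) ∈ Ps Φ v
    split_ifs with h2
    · exact Finset.mem_filter.2 ⟨h1, h2⟩
    · refine Finset.mem_filter.2 ⟨h.neg_mem h1, ?_⟩
      rw [inner_neg_right]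
      have h3 := hreg _ h1
      push Not at h2
      exact neg_pos.2 (lt_of_le_of_ne h2 h3)
  have hgg : ∀ a ∈ Ps Φ v, g (g a) = a := by
    intro a ha
    obtain ⟨ha1, ha2⟩ := Finset.mem_filter.1 ha
    have e1 : g a = r a ∨ g a = -r a := by
      rw [hg]
      show (if 0 < (inner ℝ v (r a) : ℝ) then r a else -r a) = r a ∨ (if 0 < (inner ℝ v (r a) : ℝ) then r a else -r a) = -r a
      split_ifs <;> simp
    rcases e1 with e1 | e1
    · rw [e1, hg]
      show (if 0 < (inner ℝ v (r (r a)) : ℝ) then r (r a) else -r (r a)) = a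
      rw [hrr, if_pos ha2]
    · rw [e1, hg]
      show (if 0 < (inner ℝ v (r (-r a)) : ℝ) then r (-r a) else -r (-r a)) = a
      rw [hrn, hrr, inner_neg_right, if_neg (by linarith), neg_neg]
  have hint : ∀ a ∈ Ps Φ v, ∃ k : ℤ, co a b = k := by
    intro a ha
    exact h.int a (Finset.mem_filter.1 ha).1 b hb
  choose! k hk using hint
  have hgk : ∀ a ∈ Ps Φ v, k (g a) = k a ∨ k (g a) = -k a := by
    intro a ha
    have h1 := hk _ (hgm a ha)
    have h2 := hk _ ha
    have h3 := hro a (Finset.mem_filter.1 ha).1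
    have e1 : g a = r a ∨ g a = -r a := by
      rw [hg]
      show (if 0 < (inner ℝ v (r a) : ℝ) then r a else -r a) = r a ∨ (if 0 < (inner ℝ v (r a) : ℝ) then r a else -r a) = -r a
      split_ifs <;> simp
    rcases e1 with e1 | e1
    · right
      have h4 : co (g a) b = -co a b := by rw [e1]; exact h3
      rw [h1, h2] at h4
      exact_mod_cast h4
    · left
      have h4 : co (g a) b = co a b := by
        have h5 : co (-r a) b = -co (r a) b := by
          unfold co
          rw [inner_neg_right, inner_neg_left, inner_neg_right, neg_neg]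
          ring
        rw [e1, h5, h3, neg_neg]
      rw [h1, h2] at h4
      exact_mod_cast h4
  have hfix : ∀ a ∈ Ps Φ v, g a = a → Even (k a) := by
    intro a ha he
    obtain ⟨ha1, ha2⟩ := Finset.mem_filter.1 ha
    have e1 : g a = r a ∨ g a = -r a := by
      rw [hg]
      show (if 0 < (inner ℝ v (r a) : ℝ) then r a else -r a) = r a ∨ (if 0 < (inner ℝ v (r a) : ℝ) then r a else -r a) = -r a
      split_ifs <;> simp
    have hb0 : b ≠ 0 := h.ne_zero b hb
    have haa : (inner ℝ a a : ℝ) ≠ 0 := inner_self_ne_zero.2 (h.ne_zero a ha1)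
    rcases e1 with e1 | e1
    · -- `co b a = 0`
      rw [he, hr] at e1
      have h1 : co b a • b = 0 := by
        have h2 : a = a - co b a • b := e1
        rw [eq_comm, sub_eq_self] at h2
        exact h2
      have h2 : co b a = 0 := (smul_eq_zero.1 h1).resolve_right hb0
      have h3 : co a b = 0 := by
        unfold co at h2 ⊢
        rw [real_inner_comm, div_eq_zero_iff] at h2
        rcases h2 with h2 | h2
        · rw [h2, zero_div]
        · exact absurd h2 hbb
      rw [hk a ha] at h3
      have h4 : k a = 0 := by exact_mod_cast h3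
      rw [h4]
      exact Even.zero
    · rw [he, hr] at e1
      have h1 : a = -(a - co b a • b) := e1
      have h2 : (2 : ℝ) • a = co b a • b := by
        have h3 : a + (a - co b a • b) = 0 := by
          nth_rewrite 1 [h1]
          abel
        have h4 : (2 : ℝ) • a - co b a • b = 0 := by
          rw [← h3]
          module
        exact sub_eq_zero.1 h4
      have h3 : a = (co b a / 2) • b := by
        calc a = (1 / 2 : ℝ) • ((2 : ℝ) • a) := by module
          _ = (1 / 2 : ℝ) • (co b a • b) := by rw [h2]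
          _ = (co b a / 2) • b := by module
      have h4 := h.red b hb (co b a / 2) (h3 ▸ ha1)
      have h5 : a = b ∨ a = -b := by
        rcases h4 with h4 | h4
        · left; rw [h4, one_smul] at h3; exact h3
        · right; rw [h4] at h3; rw [h3]; module
      have h6 : co a b = 2 ∨ co a b = -2 := by
        rcases h5 with h5 | h5
        · left; rw [h5]; unfold co; field_simp
        · right; rw [h5]; unfold co; rw [inner_neg_right, inner_neg_neg]; field_simp
      rw [hk a ha] at h6
      rcases h6 with h6 | h6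
      · have h7 : k a = 2 := by exact_mod_cast h6
        rw [h7]; decide
      · have h7 : k a = -2 := by exact_mod_cast h6
        rw [h7]; decide
  have hz : ∑ a ∈ Ps Φ v, ((k a : ℤ) : ZMod 2) = 0 := by
    refine Finset.sum_involution (fun a _ => g a) ?_ ?_ (fun a ha => hgm a ha) (fun a ha => hgg a ha)
    · intro a ha
      have h2 : ∀ z : ZMod 2, z + z = 0 := by decide
      have h3 : ∀ z : ZMod 2, -z = z := by decide
      rcases hgk a ha with h1 | h1
      · rw [h1]; exact h2 _
      · rw [h1]; push_cast; rw [h3]; exact h2 _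
    · intro a ha hne he
      apply hne
      have h1 := hfix a ha he
      exact (ZMod.intCast_eq_zero_iff_even).2 h1
  have hz2 : ((∑ a ∈ Ps Φ v, k a : ℤ) : ZMod 2) = 0 := by push_cast; exact hz
  obtain ⟨q, hq⟩ := (ZMod.intCast_eq_zero_iff_even).1 hz2
  refine ⟨q, ?_⟩
  rw [Finset.sum_congr rfl hk]
  have h1 : ((∑ a ∈ Ps Φ v, k a : ℤ) : ℝ) = ((q + q : ℤ) : ℝ) := by rw [hq]
  push_cast at h1
  rw [h1]
  ring

end L2
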