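import Pool.Agent.Helper81.L2.E7S
import Pool.Agent.Helper14.L2.DefsU

/-!
Project L2 (MP_b8862a_ag): type `E_6`, modules which are not self-dual.
-/

set_option linter.unusedSectionVars false
set_option linter.unusedVariables false

open Module PF TF PW AG LT

namespace L2

variable {E : Type*} [NormedAddCommGroup E] [InnerProductSpace ℝ E] {Φ X : Finset E} {n s m k : ℕ} {l y v : E}

/-- the vector with the coordinates `w` in `u_0, …, u_5, z` -/
noncomputable def v6 (u : Fin 6 → E) (z : E) (w : Fin 7 → ℤ) : E := vc u (fun k : Fin 6 => w k.castSucc) + (w 6 : ℝ) • z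

/-- the relation of coordinates of the same vector -/
def R6 (w w' : Fin 7 → ℤ) : Prop := (∀ k : Fin 6, w k.castSucc - w' k.castSucc = w 0 - w' 0) ∧ w 6 = w' 6

instance (w w' : Fin 7 → ℤ) : Decidable (R6 w w') := by unfold R6; infer_instance

/-- the indicator function -/
def in6 (S : Finset (Fin 6)) (t : ℤ) : Fin 7 → ℤ := fun k => if k = 6 then t else if ∃ i ∈ S, i.castSucc = k then 1 else 0

theorem gram6 : ∀ i j, 6 * C6 i j = 6 * (∑ k : Fin 6, M6 i k.castSucc * M6 j k.castSucc) -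
    (∑ k : Fin 6, M6 i k.castSucc) * (∑ k : Fin 6, M6 j k.castSucc) + 3 * (M6 i 6 * M6 j 6) := by decide +kernel

theorem sub6 : ∀ i j : Fin 6, i ≠ j → ∃ q, R6 (P6 q) (dl i.castSucc - dl j.castSucc) ∨
    R6 (-P6 q) (dl i.castSucc - dl j.castSucc) := by decide +kernel

theorem z6 : ∃ q, R6 (P6 q) (dl 6 + dl 6) ∨ R6 (-P6 q) (dl 6 + dl 6) := by decide +kernel

theorem su6 : ∀ S ∈ (Finset.univ : Finset (Fin 6)).powersetCard 3, ∃ q, R6 (P6 q) (in6 S 1) ∨ R6 (-P6 q) (in6 S 1) := by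
  decide +kernel

theorem su6' : ∀ S ∈ (Finset.univ : Finset (Fin 6)).powersetCard 3, ∃ q, R6 (P6 q) (in6 S (-1)) ∨
    R6 (-P6 q) (in6 S (-1)) := by decide +kernel

theorem cases6 : ∀ q, (∃ i j : Fin 6, i ≠ j ∧ R6 (P6 q) (dl i.castSucc - dl j.castSucc)) ∨ R6 (P6 q) (dl 6 + dl 6) ∨
    ∃ S ∈ (Finset.univ : Finset (Fin 6)).powersetCard 3, R6 (P6 q) (in6 S 1) ∨ R6 (P6 q) (in6 S (-1)) := by decide +kernel

theorem v6_neg (u : Fin 6 → E) (z : E) (w : Fin 7 → ℤ) : v6 u z (-w) = -v6 u z w := by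
  unfold v6
  have h1 : (fun k : Fin 6 => (-w) k.castSucc) = -fun k : Fin 6 => w k.castSucc := rfl
  rw [h1, vc_neg]
  simp only [Pi.neg_apply]
  push_cast
  module

theorem v6_eq_of {u : Fin 6 → E} {z : E} (h0 : ∑ i, u i = 0) {w w' : Fin 7 → ℤ} (h : R6 w w') : v6 u z w = v6 u z w' := by
  unfold v6
  rw [h.2]
  congr 1
  exact vc_eq_of h0 h.1

theorem v6_vc (u : Fin 6 → E) (z : E) (M : Fin k → Fin 7 → ℤ) (t : Fin k → ℤ) :
    vc (fun i => v6 u z (M i)) t = v6 u z fun j => ∑ i, t i * M i j := by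
  unfold v6
  rw [← vc_vc (f := u) (fun i => fun j : Fin 6 => M i j.castSucc) t]
  unfold vc
  simp only [smul_add, Finset.sum_add_distrib]
  congr 1
  push_cast
  rw [Finset.sum_smul]
  refine Finset.sum_congr rfl fun i _ => ?_
  rw [smul_smul]

theorem v6_inner {u : Fin 6 → E} {z : E} (F : TyE6 Φ u z) (w w' : Fin 7 → ℤ) :
    (inner ℝ (v6 u z w) (v6 u z w') : ℝ) = ∑ k : Fin 6, (w k.castSucc : ℝ) * w' k.castSucc -
      (∑ k : Fin 6, (w k.castSucc : ℝ)) * (∑ k : Fin 6, (w' k.castSucc : ℝ)) / 6 + (w 6 : ℝ) * w' 6 / 2 := by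
  unfold v6
  have h1 : ∀ t : Fin 6 → ℤ, (inner ℝ (vc u t) z : ℝ) = 0 := by
    intro t
    unfold vc
    rw [sum_inner]
    refine Finset.sum_eq_zero fun i _ => ?_
    rw [inner_smul_left, F.uz, mul_zero]
  have h2 : ∀ t : Fin 6 → ℤ, (inner ℝ z (vc u t) : ℝ) = 0 := by
    intro t
    rw [real_inner_comm]
    exact h1 t
  rw [inner_add_left, inner_add_right, inner_add_right, inner_smul_right, inner_smul_left, inner_smul_left, inner_smul_right,
    h1, h2, F.zz, inner_vcu F.hu]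
  simp only [conj_trivial]
  push_cast
  ring

theorem bs6 {u : Fin 6 → E} {z : E} (F : TyE6 Φ u z) : Bs Φ C6 p6 fun i => v6 u z (M6 i) where
  gram := by
    intro i j
    rw [v6_inner F]
    have h1 := gram6 i j
    have h2 : ((6 * C6 i j : ℤ) : ℝ) = ((6 * (∑ k : Fin 6, M6 i k.castSucc * M6 j k.castSucc) -
      (∑ k : Fin 6, M6 i k.castSucc) * (∑ k : Fin 6, M6 j k.castSucc) + 3 * (M6 i 6 * M6 j 6) : ℤ) : ℝ) := by
      rw [h1]
    push_cast at h2
    linarith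
  mem := by
    intro a
    have h0 := sum_u F.hu (by norm_num)
    have hp : ∀ q, vc (fun i => v6 u z (M6 i)) (p6 q) = v6 u z (P6 q) := by
      intro q
      rw [v6_vc]
      congr 1
      funext k
      exact (PM6 q k).symm
    have hsub : ∀ i j : Fin 6, v6 u z (dl i.castSucc - dl j.castSucc) = u i - u j := by
      intro i j
      unfold v6
      have h1 : (fun k : Fin 6 => ((dl i.castSucc - dl j.castSucc : Fin 7 → ℤ)) k.castSucc) = dl i + -dl j := by
        funext k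
        unfold dl
        simp only [Pi.sub_apply, Pi.add_apply, Pi.neg_apply, Fin.castSucc_inj]
        ring
      have h2 : ((dl i.castSucc - dl j.castSucc : Fin 7 → ℤ)) 6 = 0 := by
        unfold dl
        have e1 : ∀ i : Fin 6, ¬ ((6 : Fin 7) = i.castSucc) := by decide
        simp only [Pi.sub_apply, if_neg (e1 _), sub_self]
      rw [h1, h2, vc_add, vc_neg, vc_dl, vc_dl]
      simp [sub_eq_add_neg]
    have hz : v6 u z (dl 6 + dl 6) = (2 : ℝ) • z := by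
      unfold v6
      have h1 : (fun k : Fin 6 => ((dl 6 + dl 6 : Fin 7 → ℤ)) k.castSucc) = fun _ => 0 := by decide
      have h2 : ((dl 6 + dl 6 : Fin 7 → ℤ)) 6 = 2 := by decide
      rw [h1, h2]
      unfold vc
      simp
    have hsu : ∀ (S : Finset (Fin 6)) (t : ℤ), v6 u z (in6 S t) = ∑ i ∈ S, u i + (t : ℝ) • z := by
      intro S t
      unfold v6
      have h2 : in6 S t 6 = t := by
        unfold in6
        rw [if_pos rfl]
      rw [h2]
      congr 1
      unfold vc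
      have h1 : ∀ i : Fin 6, ((in6 S t i.castSucc : ℤ) : ℝ) • u i = if i ∈ S then u i else 0 := by
        intro i
        unfold in6
        have e1 : ∀ i : Fin 6, ¬ (i.castSucc = (6 : Fin 7)) := by decide
        rw [if_neg (e1 i)]
        by_cases hi : i ∈ S
        · rw [if_pos ⟨i, hi, rfl⟩, if_pos hi]
          simp
        · rw [if_neg, if_neg hi]
          · simp
          · rintro ⟨j, hj, hji⟩
            rw [Fin.castSucc_inj] at hji
            exact hi (hji ▸ hj)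
      rw [Finset.sum_congr rfl fun i _ => h1 i, Finset.sum_ite_mem, Finset.univ_inter]
    simp only [hp]
    have key : ∀ (w : Fin 7 → ℤ), (∃ q, R6 (P6 q) w ∨ R6 (-P6 q) w) →
        ∃ q, v6 u z w = v6 u z (P6 q) ∨ v6 u z w = -v6 u z (P6 q) := by
      rintro w ⟨q, h | h⟩
      · exact ⟨q, Or.inl (v6_eq_of h0 h).symm⟩
      · exact ⟨q, Or.inr (by rw [← v6_neg]; exact (v6_eq_of h0 h).symm)⟩
    have key2 : ∀ (w : Fin 7 → ℤ), (∃ q, R6 (P6 q) w ∨ R6 (-P6 q) w) →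
        ∃ q, -v6 u z w = v6 u z (P6 q) ∨ -v6 u z w = -v6 u z (P6 q) := by
      intro w hw
      obtain ⟨q, h | h⟩ := key w hw
      · exact ⟨q, Or.inr (by rw [h])⟩
      · exact ⟨q, Or.inl (by rw [h, neg_neg])⟩
    rw [F.mem]
    constructor
    · rintro (⟨i, j, hij, rfl⟩ | rfl | rfl | ⟨S, hS, rfl | rfl⟩)
      · rw [← hsub]
        exact key _ (sub6 i j hij)
      · rw [← hz]
        exact key _ z6
      · rw [← hz]
        exact key2 _ z6
      · have h1 : ∑ i ∈ S, u i + z = v6 u z (in6 S 1) := by rw [hsu]; simp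
        rw [h1]
        exact key _ (su6 S (Finset.mem_powersetCard.2 ⟨Finset.subset_univ _, hS⟩))
      · have h1 : ∑ i ∈ S, u i - z = v6 u z (in6 S (-1)) := by rw [hsu]; push_cast; module
        rw [h1]
        exact key _ (su6' S (Finset.mem_powersetCard.2 ⟨Finset.subset_univ _, hS⟩))
    · rintro ⟨q, hq⟩
      have hcompl : ∀ S : Finset (Fin 6), ∑ i ∈ Sᶜ, u i = -∑ i ∈ S, u i := by
        intro S
        have := Finset.sum_add_sum_compl S u
        rw [h0] at this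
        exact eq_neg_of_add_eq_zero_right this
      rcases cases6 q with ⟨i, j, hij, h⟩ | h | ⟨S, hS, h | h⟩
      · left
        rw [v6_eq_of h0 h, hsub] at hq
        rcases hq with rfl | rfl
        · exact ⟨i, j, hij, rfl⟩
        · exact ⟨j, i, hij.symm, by rw [neg_sub]⟩
      · right
        rw [v6_eq_of h0 h, hz] at hq
        rcases hq with rfl | rfl
        · exact Or.inl rfl
        · exact Or.inr (Or.inl rfl)
      · right; right; right
        rw [v6_eq_of h0 h, hsu] at hq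
        have hS3 := (Finset.mem_powersetCard.1 hS).2
        rcases hq with rfl | rfl
        · exact ⟨S, hS3, Or.inl (by simp)⟩
        · exact ⟨Sᶜ, by rw [Finset.card_compl, hS3, Fintype.card_fin], Or.inr (by rw [hcompl]; push_cast; module)⟩
      · right; right; right
        rw [v6_eq_of h0 h, hsu] at hq
        have hS3 := (Finset.mem_powersetCard.1 hS).2
        rcases hq with rfl | rfl
        · exact ⟨S, hS3, Or.inr (by push_cast; module)⟩
        · exact ⟨Sᶜ, by rw [Finset.card_compl, hS3, Fintype.card_fin], Or.inl (by rw [hcompl]; push_cast; module)⟩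

/-- the orthogonal roots the reflections in which have the product `w_0` -/
def be6 : Fin 4 → Fin 6 → ℤ := ![![1, 2, 3, 2, 1, 2], ![1, 1, 1, 1, 1, 0], ![0, 1, 1, 1, 0, 0], ![0, 0, 1, 0, 0, 0]]

theorem be6_mem : ∀ i, ∃ q, be6 i = p6 q := by decide +kernel

theorem be6_orth : ∀ i j, i ≠ j → ∑ a, ∑ b, C6 a b * be6 i a * be6 j b = 0 := by decide +kernel

/-- `2 - (sum over the roots) ≥ 0`: the highest weights and the gradings -/
theorem sol6 {a b : Fin 6 → ℤ} (ha : ∀ i, 0 ≤ a i) (hb : ∀ i, 0 ≤ b i) (hb0 : b ≠ 0) (hns : a 0 ≠ a 4 ∨ a 1 ≠ a 3)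
    (h : ∑ i, (∑ j, be6 i j * a j) * (∑ j, be6 i j * b j) ≤ 2) :
    (a = dl 0 ∨ a = dl 4) ∧ (b = dl 0 ∨ b = dl 4 ∨ b = dl 5) := by
  have e0 : ∀ c : Fin 6 → ℤ, ∑ j, be6 0 j * c j = c 0 + 2 * c 1 + 3 * c 2 + 2 * c 3 + c 4 + 2 * c 5 := by
    intro c
    simp [Fin.sum_univ_six, be6]
  have e1 : ∀ c : Fin 6 → ℤ, ∑ j, be6 1 j * c j = c 0 + c 1 + c 2 + c 3 + c 4 := by
    intro c
    simp [Fin.sum_univ_six, be6]
  have e2 : ∀ c : Fin 6 → ℤ, ∑ j, be6 2 j * c j = c 1 + c 2 + c 3 := by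
    intro c
    simp [Fin.sum_univ_six, be6]
  have e3 : ∀ c : Fin 6 → ℤ, ∑ j, be6 3 j * c j = c 2 := by
    intro c
    simp [Fin.sum_univ_six, be6]
  rw [Fin.sum_univ_four, e0, e0, e1, e1, e2, e2, e3, e3] at h
  have a0 := ha 0
  have a1 := ha 1
  have a2 := ha 2
  have a3 := ha 3
  have a4 := ha 4
  have a5 := ha 5
  have b0 := hb 0
  have b1 := hb 1
  have b2 := hb 2
  have b3 := hb 3
  have b4 := hb 4
  have b5 := hb 5
  have hext : ∀ (c : Fin 6 → ℤ) (p : Fin 6), (∀ i, c i = dl p i) → c = dl p := fun c p hc => funext hc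
  have hB1 : 1 ≤ b 0 + 2 * b 1 + 3 * b 2 + 2 * b 3 + b 4 + 2 * b 5 := by
    by_contra hcon
    apply hb0
    funext i
    have h1 : b i = 0 := by
      fin_cases i
      · show b 0 = 0; omega
      · show b 1 = 0; omega
      · show b 2 = 0; omega
      · show b 3 = 0; omega
      · show b 4 = 0; omega
      · show b 5 = 0; omega
    rw [h1]
    rfl
  have hA1 : 1 ≤ a 0 + 2 * a 1 + 3 * a 2 + 2 * a 3 + a 4 + 2 * a 5 := by omega
  have hp1 : 0 ≤ (a 0 + a 1 + a 2 + a 3 + a 4) * (b 0 + b 1 + b 2 + b 3 + b 4) := by positivity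
  have hp2 : 0 ≤ (a 1 + a 2 + a 3) * (b 1 + b 2 + b 3) := by positivity
  have hp3 : 0 ≤ a 2 * b 2 := by positivity
  have hAB : (a 0 + 2 * a 1 + 3 * a 2 + 2 * a 3 + a 4 + 2 * a 5) * (b 0 + 2 * b 1 + 3 * b 2 + 2 * b 3 + b 4 + 2 * b 5) ≤ 2 := by
    linarith
  have hA2 : a 0 + 2 * a 1 + 3 * a 2 + 2 * a 3 + a 4 + 2 * a 5 ≤ 2 := by nlinarith
  have hB2 : b 0 + 2 * b 1 + 3 * b 2 + 2 * b 3 + b 4 + 2 * b 5 ≤ 2 := by nlinarith
  have hcase : (a 0 = 0 ∧ a 1 = 1 ∧ a 2 = 0 ∧ a 3 = 0 ∧ a 4 = 0 ∧ a 5 = 0) ∨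
      (a 0 = 0 ∧ a 1 = 0 ∧ a 2 = 0 ∧ a 3 = 1 ∧ a 4 = 0 ∧ a 5 = 0) ∨
      (a 0 = 2 ∧ a 1 = 0 ∧ a 2 = 0 ∧ a 3 = 0 ∧ a 4 = 0 ∧ a 5 = 0) ∨
      (a 0 = 0 ∧ a 1 = 0 ∧ a 2 = 0 ∧ a 3 = 0 ∧ a 4 = 2 ∧ a 5 = 0) ∨
      (a 0 = 1 ∧ a 1 = 0 ∧ a 2 = 0 ∧ a 3 = 0 ∧ a 4 = 0 ∧ a 5 = 0) ∨
      (a 0 = 0 ∧ a 1 = 0 ∧ a 2 = 0 ∧ a 3 = 0 ∧ a 4 = 1 ∧ a 5 = 0) := by omega
  rcases hcase with ⟨q0, q1, q2, q3, q4, q5⟩ | ⟨q0, q1, q2, q3, q4, q5⟩ | ⟨q0, q1, q2, q3, q4, q5⟩ |
    ⟨q0, q1, q2, q3, q4, q5⟩ | ⟨q0, q1, q2, q3, q4, q5⟩ | ⟨q0, q1, q2, q3, q4, q5⟩ <;>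
    rw [q0, q1, q2, q3, q4, q5] at h
  · exfalso; omega
  · exfalso; omega
  · exfalso; omega
  · exfalso; omega
  · refine ⟨Or.inl (hext _ _ fun i => by fin_cases i <;> assumption), ?_⟩
    have x1 : b 1 = 0 := by omega
    have x2 : b 2 = 0 := by omega
    have x3 : b 3 = 0 := by omega
    have hb : (b 0 = 1 ∧ b 1 = 0 ∧ b 2 = 0 ∧ b 3 = 0 ∧ b 4 = 0 ∧ b 5 = 0) ∨
      (b 0 = 0 ∧ b 1 = 0 ∧ b 2 = 0 ∧ b 3 = 0 ∧ b 4 = 1 ∧ b 5 = 0) ∨
      (b 0 = 0 ∧ b 1 = 0 ∧ b 2 = 0 ∧ b 3 = 0 ∧ b 4 = 0 ∧ b 5 = 1) := by omega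
    rcases hb with ⟨r0, r1, r2, r3, r4, r5⟩ | ⟨r0, r1, r2, r3, r4, r5⟩ | ⟨r0, r1, r2, r3, r4, r5⟩
    · exact Or.inl (hext _ _ fun i => by fin_cases i <;> assumption)
    · exact Or.inr (Or.inl (hext _ _ fun i => by fin_cases i <;> assumption))
    · exact Or.inr (Or.inr (hext _ _ fun i => by fin_cases i <;> assumption))
  · refine ⟨Or.inr (hext _ _ fun i => by fin_cases i <;> assumption), ?_⟩
    have x1 : b 1 = 0 := by omega
    have x2 : b 2 = 0 := by omega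
    have x3 : b 3 = 0 := by omega
    have hb : (b 0 = 1 ∧ b 1 = 0 ∧ b 2 = 0 ∧ b 3 = 0 ∧ b 4 = 0 ∧ b 5 = 0) ∨
      (b 0 = 0 ∧ b 1 = 0 ∧ b 2 = 0 ∧ b 3 = 0 ∧ b 4 = 1 ∧ b 5 = 0) ∨
      (b 0 = 0 ∧ b 1 = 0 ∧ b 2 = 0 ∧ b 3 = 0 ∧ b 4 = 0 ∧ b 5 = 1) := by omega
    rcases hb with ⟨r0, r1, r2, r3, r4, r5⟩ | ⟨r0, r1, r2, r3, r4, r5⟩ | ⟨r0, r1, r2, r3, r4, r5⟩
    · exact Or.inl (hext _ _ fun i => by fin_cases i <;> assumption)
    · exact Or.inr (Or.inl (hext _ _ fun i => by fin_cases i <;> assumption))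
    · exact Or.inr (Or.inr (hext _ _ fun i => by fin_cases i <;> assumption))

theorem dim6a : ∏ q, (∑ i, p6 q i * (dl 0 + 1 : Fin 6 → ℤ) i) = 27 * ∏ q, ∑ i, p6 q i := by
  decide +kernel

theorem dim6b : ∏ q, (∑ i, p6 q i * (dl 4 + 1 : Fin 6 → ℤ) i) = 27 * ∏ q, ∑ i, p6 q i := by
  decide +kernel

/-- subtracting multiples of orthogonal roots -/
theorem str_orth (hX : AT.Sat' Φ X) (h2 : ∀ a ∈ Φ, inner ℝ a a = (2 : ℝ)) {N : ℕ} (β : Fin N → E) (hβ : ∀ i, β i ∈ Φ)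
    (ho : ∀ i j, i ≠ j → (inner ℝ (β i) (β j) : ℝ) = 0) {x : E} (hx : x ∈ X) (hp : ∀ i, 0 ≤ (inner ℝ x (β i) : ℝ)) :
    ∀ S : Finset (Fin N), x - ∑ i ∈ S, (inner ℝ x (β i) : ℝ) • β i ∈ X := by
  classical
  intro S
  induction S using Finset.induction_on with
  | empty => simpa using hx
  | insert i S hi ih =>
    obtain ⟨k, hk⟩ := hX.int _ (hβ i) x hx
    rw [co_two h2 (hβ i)] at hk
    have hk0 : 0 ≤ k := by
      have := hp i
      rw [hk] at this
      exact_mod_cast this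
    obtain ⟨j, rfl⟩ := Int.eq_ofNat_of_zero_le hk0
    have h1 : (inner ℝ (x - ∑ i ∈ S, (inner ℝ x (β i) : ℝ) • β i) (β i) : ℝ) = inner ℝ x (β i) := by
      rw [inner_sub_left, sum_inner, Finset.sum_eq_zero, sub_zero]
      intro q hq
      have hqi : q ≠ i := fun h => hi (h ▸ hq)
      rw [inner_smul_left, ho q i hqi, mul_zero]
    have h3 := hX.str _ (hβ i) _ ih j (by
      rw [co_two h2 (hβ i), h1, hk]
      push_cast
      exact le_rfl)
    have h4 : x - ∑ i ∈ S, (inner ℝ x (β i) : ℝ) • β i - (j : ℝ) • β i =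
        x - ∑ i ∈ insert i S, (inner ℝ x (β i) : ℝ) • β i := by
      rw [Finset.sum_insert hi, hk]
      push_cast
      abel
    rwa [h4] at h3

/-- **Type `E_6`**, modules which are not self-dual. -/
theorem typeE6U {a b c : ℕ} {u : Fin 6 → E} {z : E} (h : DU Φ X a b c l y v) (F : TyE6 Φ u z) :
    (a = 1 ∧ b = 16 ∧ c = 10) ∨ (a = 10 ∧ b = 16 ∧ c = 1) ∨ (a = 6 ∧ b = 15 ∧ c = 6) := by
  obtain ⟨f, B0, hpos⟩ := (bs6 F).exists_base h.rs h.reg unit6 _ pos6
  have B : BP Φ C6 p6 f v := { B0 with pos := hpos, inj := inj6 }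
  have hΦ2 := F.two
  have hvf := B.v_f h.v_eq sum6
  have hfm : ∀ i, f i ∈ Ps Φ v := B.f_mem unit6
  have hfΦ : ∀ i, f i ∈ Φ := fun i => (mem_Ps.1 (hfm i)).1
  -- the coordinates of `l` and `y`
  have hlc : ∀ i, ∃ z : ℤ, 0 ≤ z ∧ (inner ℝ l (f i) : ℝ) = z := by
    intro i
    obtain ⟨z, hz⟩ := h.sat.int _ (hfΦ i) l h.l_mem
    rw [co_two hΦ2 (hfΦ i)] at hz
    refine ⟨z, ?_, hz⟩
    have h1 := h.dom _ (hfm i)
    rw [hz] at h1
    exact_mod_cast h1
  have hyc : ∀ i, ∃ z : ℤ, 0 ≤ z ∧ (inner ℝ y (f i) : ℝ) = z := by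
    intro i
    obtain ⟨z, hz⟩ := h.lev _ (hfΦ i)
    rw [real_inner_comm] at hz
    refine ⟨z, ?_, hz⟩
    have h1 := h.ydom _ (hfm i)
    rw [hz] at h1
    exact_mod_cast h1
  choose A hA0 hA using hlc
  choose C hC0 hC using hyc
  have hls := B.span_le (h.sat.span l h.l_mem)
  have hys := B.span_le h.y_mem
  have hlv : ∀ z : Fin 6 → ℤ, (inner ℝ l (vc f z) : ℝ) = ((∑ i, z i * A i : ℤ) : ℝ) := by
    intro z
    rw [inner_vc]
    simp only [hA]
    push_cast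
    rfl
  have hyv : ∀ z : Fin 6 → ℤ, (inner ℝ y (vc f z) : ℝ) = ((∑ i, z i * C i : ℤ) : ℝ) := by
    intro z
    rw [inner_vc]
    simp only [hC]
    push_cast
    rfl
  have hvv : ∀ z : Fin 6 → ℤ, (inner ℝ v (vc f z) : ℝ) = 2 * ((∑ i, z i : ℤ) : ℝ) := by
    intro z
    rw [inner_vc]
    simp only [hvf]
    push_cast
    rw [← Finset.sum_mul, mul_comm]
  -- the lowest weight
  have hbm : ∀ i, vc f (be6 i) ∈ Φ := by
    intro i
    obtain ⟨q, hq⟩ := be6_mem i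
    rw [hq]
    exact (mem_Ps.1 (hpos q)).1
  have hbp : ∀ i, 0 ≤ (inner ℝ l (vc f (be6 i)) : ℝ) := by
    intro i
    obtain ⟨q, hq⟩ := be6_mem i
    rw [hq]
    exact h.dom _ (hpos q)
  have hbo : ∀ i j, i ≠ j → (inner ℝ (vc f (be6 i)) (vc f (be6 j)) : ℝ) = 0 := by
    intro i j hij
    have h1 : (inner ℝ (vc f (be6 i)) (vc f (be6 j)) : ℝ) = ((∑ a, ∑ b, C6 a b * be6 i a * be6 j b : ℤ) : ℝ) := by
      unfold vc
      rw [sum_inner]
      push_cast
      refine Finset.sum_congr rfl fun p _ => ?_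
      rw [inner_smul_left, inner_sum, Finset.mul_sum]
      refine Finset.sum_congr rfl fun q _ => ?_
      rw [inner_smul_right, B.gram]
      simp only [conj_trivial]
      ring
    rw [h1, be6_orth i j hij]
    norm_num
  have hlow := str_orth h.sat hΦ2 (fun i => vc f (be6 i)) hbm hbo h.l_mem hbp Finset.univ
  -- `l` is not self-dual
  have hns : A 0 ≠ A 4 ∨ A 1 ≠ A 3 := by
    by_contra hcon
    push Not at hcon
    apply h.nsd
    have h1 : l - ∑ i, (inner ℝ l (vc f (be6 i)) : ℝ) • vc f (be6 i) = -l := by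
      have h2 : ∀ w ∈ Submodule.span ℝ (Set.range f), (∀ i, (inner ℝ w (f i) : ℝ) = 0) → w = 0 := by
        intro w hw hw0
        have h3 := B.inner_eq DC6 hw w
        simp only [hw0, mul_zero, Finset.sum_const_zero] at h3
        have h4 : (inner ℝ w w : ℝ) = 0 := by
          push_cast at h3
          linarith
        exact inner_self_eq_zero.1 h4
      have h3 : l - ∑ i, (inner ℝ l (vc f (be6 i)) : ℝ) • vc f (be6 i) + l = 0 := by
        refine h2 _ ?_ ?_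
        · refine Submodule.add_mem _ (Submodule.sub_mem _ hls (Submodule.sum_mem _ fun i _ => Submodule.smul_mem _ _ ?_)) hls
          exact B.span_le (Submodule.subset_span (Finset.mem_coe.2 (hbm i)))
        · intro r
          have h4 : ∀ i, (inner ℝ (vc f (be6 i)) (f r) : ℝ) = ((∑ j, C6 r j * be6 i j : ℤ) : ℝ) := by
            intro i
            rw [real_inner_comm]
            exact B.inner_vc' r _
          rw [inner_add_left, inner_sub_left, sum_inner]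
          simp only [inner_smul_left, hlv, h4, hA, conj_trivial]
          have h5 : A r - ∑ i, (∑ j, be6 i j * A j) * (∑ j, C6 r j * be6 i j) + A r = 0 := by
            obtain ⟨e1, e2⟩ := hcon
            fin_cases r <;> simp [Fin.sum_univ_four, Fin.sum_univ_six, be6, C6] <;> omega
          exact_mod_cast h5
      exact eq_neg_of_add_eq_zero_left h3
    rw [h1] at hlow
    exact hlow
  have hge := h.ge _ hlow
  have hsum : ∑ i, (∑ j, be6 i j * A j) * (∑ j, be6 i j * C j) ≤ 2 := by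
    rw [inner_sub_left, sum_inner] at hge
    simp only [inner_smul_left, hlv, conj_trivial] at hge
    have h1 : ∀ i, (inner ℝ (vc f (be6 i)) y : ℝ) = ((∑ j, be6 i j * C j : ℤ) : ℝ) := by
      intro i
      rw [real_inner_comm]
      exact hyv _
    simp only [h1] at hge
    have h2 : ((∑ i, (∑ j, be6 i j * A j) * (∑ j, be6 i j * C j) : ℤ) : ℝ) ≤ ((2 : ℤ) : ℝ) := by
      push_cast at hge ⊢
      linarith
    exact_mod_cast h2
  have hC1 : C ≠ 0 := by
    rintro rfl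
    have h1 := B.inner_eq DC6 hls y
    simp only [hC, Pi.zero_apply, Int.cast_zero, mul_zero, Finset.sum_const_zero] at h1
    have h2 : (inner ℝ l y : ℝ) = 0 := by
      push_cast at h1
      linarith
    have h3 := h.ly
    rw [h2, mul_zero] at h3
    have h4 : (0 : ℝ) < c := by exact_mod_cast h.c_pos
    have h5 : (0 : ℝ) ≤ b := by positivity
    linarith
  obtain ⟨hAe, hCe⟩ := sol6 hA0 hC0 hC1 hns hsum
  -- the dimension
  have hN : a + b + c = 27 := by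
    have hd := h.dim
    rw [B.prod, B.prod] at hd
    have e2 : ∀ q, (inner ℝ ((2 : ℝ) • l + v) (vc f (p6 q)) : ℝ) = 2 * ((∑ i, p6 q i * (A + 1) i : ℤ) : ℝ) := by
      intro q
      rw [inner_add_left, inner_smul_left, hlv, hvv]
      simp only [conj_trivial, Pi.add_apply, Pi.one_apply, mul_add, mul_one, Finset.sum_add_distrib]
      push_cast
      ring
    simp only [e2, hvv] at hd
    rw [Finset.prod_mul_distrib, Finset.prod_mul_distrib] at hd
    have h2 : (∏ q : Fin 36, (2 : ℝ)) ≠ 0 := by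
      rw [Finset.prod_const]
      positivity
    have h3 : ((a + b + c : ℕ) : ℝ) * ∏ q, ((∑ i, p6 q i : ℤ) : ℝ) = ∏ q, ((∑ i, p6 q i * (A + 1) i : ℤ) : ℝ) := by
      refine mul_left_cancel₀ h2 ?_
      rw [← hd]
      ring
    have h4 : ((a + b + c : ℕ) : ℤ) * ∏ q, ∑ i, p6 q i = ∏ q, ∑ i, p6 q i * (A + 1) i := by
      exact_mod_cast h3
    have h5 : ∏ q, ∑ i, p6 q i ≠ 0 := by decide +kernel
    have h6 : ∏ q, (∑ i, p6 q i * (A + 1) i) = 27 * ∏ q, ∑ i, p6 q i := by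
      rcases hAe with rfl | rfl
      · exact dim6a
      · exact dim6b
    rw [h6] at h4
    have h7 := mul_right_cancel₀ h5 h4
    exact_mod_cast h7
  have hll : (inner ℝ l l : ℝ) = 4 / 3 := by
    have h1 := B.inner_eq DC6 hls l
    simp only [hA] at h1
    have h2 : ∑ i, ∑ j, D6 i j * A j * A i = 4 := by
      rcases hAe with rfl | rfl <;> decide
    have h3 : ((∑ i, ∑ j, D6 i j * A j * A i : ℤ) : ℝ) = ((4 : ℤ) : ℝ) := by rw [h2]
    push_cast at h1 h3
    rw [h3] at h1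
    linarith
  have hcas : cas Φ l = 52 / 3 := by
    rw [cas_dom h.rs h.reg h.v_eq h.dom, hll]
    conv_lhs => rw [B.v_eq h.v_eq]
    rw [hlv]
    have h2 : ∑ i, (∑ q, p6 q) i * A i = 16 := by
      rcases hAe with rfl | rfl <;> decide +kernel
    rw [h2]
    norm_num
  have hNr : (a : ℝ) + b + c = 27 := by exact_mod_cast hN
  have hly := h.ly
  have hid := h.idt
  have hcard := F.card
  rw [hcas, F.finrank, hcard, hNr] at hid
  rw [hNr] at hly
  have hcomp : ∀ t r : ℤ, ∑ i, ∑ j, D6 i j * A j * C i = t → ∑ i, ∑ j, D6 i j * C j * C i = r →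
      (inner ℝ l y : ℝ) = t / 3 ∧ (inner ℝ y y : ℝ) = r / 3 := by
    intro t r ht hr
    have h1 := B.inner_eq DC6 hls y
    have h2 := B.inner_eq DC6 hys y
    simp only [hA, hC] at h1 h2
    have h3 : ((∑ i, ∑ j, D6 i j * A j * C i : ℤ) : ℝ) = t := by rw [ht]
    have h4 : ((∑ i, ∑ j, D6 i j * C j * C i : ℤ) : ℝ) = r := by rw [hr]
    push_cast at h1 h2 h3 h4
    rw [h3] at h1
    rw [h4] at h2
    constructor <;> linarith
  have hfin : (∑ i, ∑ j, D6 i j * A j * C i = 4 ∧ ∑ i, ∑ j, D6 i j * C j * C i = 4) ∨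
      (∑ i, ∑ j, D6 i j * A j * C i = 2 ∧ ∑ i, ∑ j, D6 i j * C j * C i = 4) ∨
      (∑ i, ∑ j, D6 i j * A j * C i = 3 ∧ ∑ i, ∑ j, D6 i j * C j * C i = 6) := by
    rcases hAe with rfl | rfl <;> rcases hCe with rfl | rfl | rfl <;> decide
  rcases hfin with ⟨h1, h2⟩ | ⟨h1, h2⟩ | ⟨h1, h2⟩
  · obtain ⟨h3, h4⟩ := hcomp _ _ h1 h2
    rw [h3] at hly
    rw [h4] at hid
    push_cast at hly hid
    left
    have hc : (c : ℝ) = a + 9 := by linarith
    have hb : (b : ℝ) = 18 - 2 * a := by linarith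
    rw [hc] at hid
    have ha : (a : ℝ) = 1 := by nlinarith
    rw [ha] at hb hc
    refine ⟨by exact_mod_cast ha, ?_, ?_⟩
    · have : (b : ℝ) = ((16 : ℕ) : ℝ) := by push_cast; linarith
      exact_mod_cast this
    · have : (c : ℝ) = ((10 : ℕ) : ℝ) := by push_cast; linarith
      exact_mod_cast this
  · obtain ⟨h3, h4⟩ := hcomp _ _ h1 h2
    rw [h3] at hly
    rw [h4] at hid
    push_cast at hly hid
    right; left
    have ha' : (a : ℝ) = c + 9 := by linarith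
    have hb : (b : ℝ) = 18 - 2 * c := by linarith
    rw [ha'] at hid
    have hc : (c : ℝ) = 1 := by nlinarith
    rw [hc] at hb ha'
    refine ⟨?_, ?_, by exact_mod_cast hc⟩
    · have : (a : ℝ) = ((10 : ℕ) : ℝ) := by push_cast; linarith
      exact_mod_cast this
    · have : (b : ℝ) = ((16 : ℕ) : ℝ) := by push_cast; linarith
      exact_mod_cast this
  · obtain ⟨h3, h4⟩ := hcomp _ _ h1 h2
    rw [h3] at hly
    rw [h4] at hid
    push_cast at hly hid
    right; right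
    have hc : (c : ℝ) = a := by linarith
    have hb : (b : ℝ) = 27 - 2 * a := by linarith
    rw [hc] at hid
    have ha : (a : ℝ) = 6 := by nlinarith
    rw [ha] at hb hc
    refine ⟨by exact_mod_cast ha, ?_, by exact_mod_cast hc⟩
    have : (b : ℝ) = ((15 : ℕ) : ℝ) := by push_cast; linarith
    exact_mod_cast this

end L2
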