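import Pool.Agent.Helper81.L2.E7S
import Pool.Agent.Helper81.AT.Defs

/-!
Project L2 (MP_b8862a_ag): types with `-1` in the Weyl group: the weights are symmetric.
-/

set_option linter.unusedSectionVars false
set_option linter.unusedVariables false

open Module PF TF PW AG LT

namespace L2

variable {E : Type*} [NormedAddCommGroup E] [InnerProductSpace ℝ E] {Φ X : Finset E} {n s m d : ℕ} {l y v : E} {κ : ℝ}

/-- the reflections -/
theorem sref (hX : AT.Sat' Φ X) {a : E} (ha : a ∈ Φ) (hn : -a ∈ Φ) {x : E} (hx : x ∈ X) : x - co a x • a ∈ X := by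
  obtain ⟨k, hk⟩ := hX.int a ha x hx
  rcases le_total 0 k with h0 | h0
  · obtain ⟨j, rfl⟩ := Int.eq_ofNat_of_zero_le h0
    have h1 := hX.str a ha x hx j (by rw [hk]; push_cast; exact le_rfl)
    rw [hk]
    push_cast
    exact h1
  · obtain ⟨j, hj⟩ := Int.eq_ofNat_of_zero_le (neg_nonneg.2 h0)
    have h2 : co (-a) x = -co a x := by
      unfold co
      rw [inner_neg_right, inner_neg_neg]
      ring
    have h1 := hX.str (-a) hn x hx j (by
      rw [h2, hk]
      have h3 : ((j : ℤ) : ℝ) = ((-k : ℤ) : ℝ) := by rw [hj]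
      push_cast at h3
      linarith)
    have h3 : ((j : ℤ) : ℝ) = ((-k : ℤ) : ℝ) := by rw [hj]
    push_cast at h3
    have h4 : x - (j : ℝ) • -a = x - co a x • a := by
      rw [hk, h3]
      module
    rwa [h4] at h1

/-- the product of the reflections in orthogonal roots -/
theorem sref_orth (hX : AT.Sat' Φ X) {N : ℕ} (β : Fin N → E) (hβ : ∀ i, β i ∈ Φ) (hn : ∀ i, -β i ∈ Φ)
    (ho : ∀ i j, i ≠ j → (inner ℝ (β i) (β j) : ℝ) = 0) {x : E} (hx : x ∈ X) :
    ∀ S : Finset (Fin N), x - ∑ i ∈ S, co (β i) x • β i ∈ X := by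
  classical
  intro S
  induction S using Finset.induction_on with
  | empty => simpa using hx
  | insert i S hi ih =>
    have h1 : co (β i) (x - ∑ i ∈ S, co (β i) x • β i) = co (β i) x := by
      unfold co
      rw [inner_sub_left, sum_inner, Finset.sum_eq_zero, sub_zero]
      intro q hq
      have hqi : q ≠ i := fun h => hi (h ▸ hq)
      rw [inner_smul_left, ho q i hqi, mul_zero]
    have h3 := sref hX (hβ i) (hn i) ih
    rw [h1] at h3
    have h4 : x - ∑ i ∈ S, co (β i) x • β i - co (β i) x • β i = x - ∑ i ∈ insert i S, co (β i) x • β i := by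
      rw [Finset.sum_insert hi]
      abel
    rwa [h4] at h3

/-- orthogonal roots which span, in the frame of type `A` -/
theorem frame_two {u : Fin (m + 1) → E}
    (hu : ∀ i j, inner ℝ (u i) (u j) = (if i = j then (1 : ℝ) else 0) - 1 / ((m + 1 : ℕ) : ℝ)) {N : ℕ}
    (B : Fin N → Fin (m + 1) → ℤ)
    (hB : ∀ k j, (∑ i, (((m + 1 : ℕ) : ℤ) * B i k - ∑ t, B i t) * B i j) - 2 * ((m + 1 : ℕ) : ℤ) * dl k j =
      (∑ i, (((m + 1 : ℕ) : ℤ) * B i k - ∑ t, B i t) * B i 0) - 2 * ((m + 1 : ℕ) : ℤ) * dl k 0) {x : E}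
    (hx : x ∈ Submodule.span ℝ (Set.range u)) :
    ∑ i, (inner ℝ x (vc u (B i)) : ℝ) • vc u (B i) = (2 : ℝ) • x := by
  have h0 := sum_u hu (by omega)
  have hm : (((m + 1 : ℕ) : ℤ) : ℝ) ≠ 0 := by positivity
  induction hx using Submodule.span_induction with
  | mem x hx =>
    obtain ⟨k, rfl⟩ := hx
    have h1 : ∀ i, ((((m + 1 : ℕ) : ℤ) * B i k - ∑ t, B i t : ℤ) : ℝ) =
        (((m + 1 : ℕ) : ℤ) : ℝ) * inner ℝ (u k) (vc u (B i)) := by
      intro i
      rw [inner_vc]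
      simp only [hu]
      have h2 : ∀ j, (B i j : ℝ) * ((if k = j then (1 : ℝ) else 0) - 1 / ((m + 1 : ℕ) : ℝ)) =
          (if k = j then (B i j : ℝ) else 0) - (B i j : ℝ) / ((m + 1 : ℕ) : ℝ) := by
        intro j
        split_ifs <;> ring
      simp only [h2, Finset.sum_sub_distrib, Finset.sum_ite_eq, Finset.mem_univ, if_true]
      rw [← Finset.sum_div]
      push_cast at hm ⊢
      field_simp
    have h3 := vc_eq_of (u := u) h0 (w := fun j => ∑ i, (((m + 1 : ℕ) : ℤ) * B i k - ∑ t, B i t) * B i j)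
      (w' := fun j => 2 * ((m + 1 : ℕ) : ℤ) * dl k j) (fun j => hB k j)
    rw [← vc_vc (f := u) B (fun i => ((m + 1 : ℕ) : ℤ) * B i k - ∑ t, B i t)] at h3
    have h4 : vc u (fun j => 2 * ((m + 1 : ℕ) : ℤ) * dl k j) = (((m + 1 : ℕ) : ℤ) : ℝ) • (2 : ℝ) • u k := by
      conv_rhs => rw [← vc_dl u k]
      unfold vc
      rw [Finset.smul_sum, Finset.smul_sum]
      refine Finset.sum_congr rfl fun j _ => ?_
      rw [smul_smul, smul_smul]
      congr 1
      push_cast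
      ring
    have h5 : vc (fun i => vc u (B i)) (fun i => ((m + 1 : ℕ) : ℤ) * B i k - ∑ t, B i t) =
        (((m + 1 : ℕ) : ℤ) : ℝ) • ∑ i, (inner ℝ (u k) (vc u (B i)) : ℝ) • vc u (B i) := by
      rw [Finset.smul_sum]
      show ∑ i, ((((m + 1 : ℕ) : ℤ) * B i k - ∑ t, B i t : ℤ) : ℝ) • vc u (B i) = _
      refine Finset.sum_congr rfl fun i _ => ?_
      rw [h1, mul_smul]
    rw [h4, h5] at h3
    exact smul_right_injective E hm h3
  | zero => simp
  | add x y _ _ hx hy =>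
    simp only [inner_add_left, add_smul, Finset.sum_add_distrib, smul_add]
    rw [hx, hy]
  | smul r x _ hx =>
    simp only [inner_smul_left, conj_trivial, mul_smul]
    rw [← Finset.smul_sum, hx, smul_comm]

/-- symmetry from orthogonal roots of square length two which span -/
theorem neg_of_two (hX : AT.Sat' Φ X) (h2 : ∀ a ∈ Φ, inner ℝ a a = (2 : ℝ)) {N : ℕ} (β : Fin N → E) (hβ : ∀ i, β i ∈ Φ)
    (hn : ∀ i, -β i ∈ Φ) (ho : ∀ i j, i ≠ j → (inner ℝ (β i) (β j) : ℝ) = 0) {x : E} (hx : x ∈ X)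
    (hs : ∑ i, (inner ℝ x (β i) : ℝ) • β i = (2 : ℝ) • x) : -x ∈ X := by
  have h1 := sref_orth hX β hβ hn ho hx Finset.univ
  have h3 : ∑ i, co (β i) x • β i = (2 : ℝ) • x := by
    rw [← hs]
    refine Finset.sum_congr rfl fun i _ => ?_
    rw [co_two h2 (hβ i)]
  rw [h3] at h1
  have h4 : x - (2 : ℝ) • x = -x := by module
  rwa [h4] at h1

/-- orthogonal roots of `E_7` -/
def B7 : Fin 7 → Fin 8 → ℤ := ![![1, -1, 0, 0, 0, 0, 0, 0], ![0, 0, 1, -1, 0, 0, 0, 0], ![0, 0, 0, 0, 1, -1, 0, 0],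
  ![0, 0, 0, 0, 0, 0, 1, -1], ![1, 1, 1, 1, 0, 0, 0, 0], ![1, 1, 0, 0, 1, 1, 0, 0], ![1, 1, 0, 0, 0, 0, 1, 1]]

/-- orthogonal roots of `E_8` -/
def B8 : Fin 8 → Fin 9 → ℤ := ![![1, -1, 0, 0, 0, 0, 0, 0, 0], ![0, 0, 1, -1, 0, 0, 0, 0, 0],
  ![0, 0, 0, 0, 1, -1, 0, 0, 0], ![0, 0, 0, 0, 0, 0, 1, -1, 0], ![1, 1, 0, 0, 0, 0, 0, 0, 1], ![0, 0, 1, 1, 0, 0, 0, 0, 1],
  ![0, 0, 0, 0, 1, 1, 0, 0, 1], ![0, 0, 0, 0, 0, 0, 1, 1, 1]]

theorem B7_orth : ∀ i j, i ≠ j → 8 * (∑ k, B7 i k * B7 j k) = (∑ k, B7 i k) * ∑ k, B7 j k := by decide +kernel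

theorem B8_orth : ∀ i j, i ≠ j → 9 * (∑ k, B8 i k * B8 j k) = (∑ k, B8 i k) * ∑ k, B8 j k := by decide +kernel

theorem B7_cases : ∀ q, (∃ i j : Fin 8, i ≠ j ∧ B7 q = dl i - dl j) ∨
    ∃ S ∈ (Finset.univ : Finset (Fin 8)).powersetCard 4, B7 q = fun k => if k ∈ S then 1 else 0 := by decide +kernel

theorem B8_cases : ∀ q, (∃ i j : Fin 9, i ≠ j ∧ B8 q = dl i - dl j) ∨
    ∃ S ∈ (Finset.univ : Finset (Fin 9)).powersetCard 3, B8 q = fun k => if k ∈ S then 1 else 0 := by decide +kernel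

theorem B7_span : ∀ k j, (∑ i, (((7 + 1 : ℕ) : ℤ) * B7 i k - ∑ t, B7 i t) * B7 i j) - 2 * ((7 + 1 : ℕ) : ℤ) * dl k j =
      (∑ i, (((7 + 1 : ℕ) : ℤ) * B7 i k - ∑ t, B7 i t) * B7 i 0) - 2 * ((7 + 1 : ℕ) : ℤ) * dl k 0 := by decide +kernel

theorem B8_span : ∀ k j, (∑ i, (((8 + 1 : ℕ) : ℤ) * B8 i k - ∑ t, B8 i t) * B8 i j) - 2 * ((8 + 1 : ℕ) : ℤ) * dl k j =
      (∑ i, (((8 + 1 : ℕ) : ℤ) * B8 i k - ∑ t, B8 i t) * B8 i 0) - 2 * ((8 + 1 : ℕ) : ℤ) * dl k 0 := by decide +kernel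

theorem vc_sub2 {m : ℕ} (u : Fin m → E) (i j : Fin m) : vc u (dl i - dl j) = u i - u j := by
  rw [sub_eq_add_neg, vc_add, vc_neg, vc_dl, vc_dl, sub_eq_add_neg]

theorem vc_ind {m : ℕ} (u : Fin m → E) (S : Finset (Fin m)) : vc u (fun k => if k ∈ S then 1 else 0) = ∑ i ∈ S, u i := by
  unfold vc
  have h1 : ∀ i, (((if i ∈ S then (1 : ℤ) else 0) : ℤ) : ℝ) • u i = if i ∈ S then u i else 0 := by
    intro i
    split_ifs <;> simp
  simp only [h1]
  rw [Finset.sum_ite_mem, Finset.univ_inter]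

theorem orth_vcu {u : Fin m → E} (hu : ∀ i j, inner ℝ (u i) (u j) = (if i = j then (1 : ℝ) else 0) - 1 / m) (hm : 0 < m)
    {z w : Fin m → ℤ} (h : (m : ℤ) * (∑ k, z k * w k) = (∑ k, z k) * ∑ k, w k) : (inner ℝ (vc u z) (vc u w) : ℝ) = 0 := by
  rw [inner_vcu hu]
  have h1 : (((m : ℤ) * (∑ k, z k * w k) : ℤ) : ℝ) = (((∑ k, z k) * ∑ k, w k : ℤ) : ℝ) := by rw [h]
  push_cast at h1
  have hm' : (m : ℝ) ≠ 0 := by positivity
  rw [← h1]
  field_simp
  ring

theorem neg_mem_E7 {u : Fin 8 → E} (hX : AT.Sat' Φ X) (F : TyE7 Φ u) {x : E} (hx : x ∈ X) : -x ∈ X := by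
  have h0 := sum_u F.hu (by norm_num)
  have hm : ∀ i, vc u (B7 i) ∈ Φ ∧ -vc u (B7 i) ∈ Φ := by
    intro q
    rcases B7_cases q with ⟨i, j, hij, h⟩ | ⟨S, hS, h⟩
    · rw [h, vc_sub2, neg_sub]
      exact ⟨F.sub_mem hij, F.sub_mem hij.symm⟩
    · rw [h, vc_ind]
      have hS4 := (Finset.mem_powersetCard.1 hS).2
      refine ⟨F.su_mem hS4, ?_⟩
      have h1 : -∑ i ∈ S, u i = ∑ i ∈ Sᶜ, u i := by
        have := Finset.sum_add_sum_compl S u
        rw [h0] at this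
        exact (eq_neg_of_add_eq_zero_right this).symm
      rw [h1]
      exact F.su_mem (by rw [Finset.card_compl, hS4, Fintype.card_fin])
  refine neg_of_two hX F.two (fun i => vc u (B7 i)) (fun i => (hm i).1) (fun i => (hm i).2)
    (fun i j hij => orth_vcu F.hu (by norm_num) (B7_orth i j hij)) hx ?_
  exact frame_two (m := 7) F.hu B7 B7_span (F.span_le (hX.span x hx))

theorem neg_mem_E8 {u : Fin 9 → E} (hX : AT.Sat' Φ X) (F : TyE8 Φ u) {x : E} (hx : x ∈ X) : -x ∈ X := by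
  have hu : ∀ i j, inner ℝ (u i) (u j) = (if i = j then (1 : ℝ) else 0) - 1 / ((9 : ℕ) : ℝ) := by
    intro i j
    rw [F.gram]
    norm_num
  have h2 : ∀ a ∈ Φ, inner ℝ a a = (2 : ℝ) := by
    have hs : ∀ S : Finset (Fin 9), S.card = 3 → (inner ℝ (∑ i ∈ S, u i) (∑ i ∈ S, u i) : ℝ) = 2 := by
      intro S hS
      rw [inner_su_su hu, Finset.inter_self, hS]
      norm_num
    intro a ha
    rcases (F.mem a).1 ha with ⟨i, j, hij, rfl⟩ | ⟨S, hS, rfl | rfl⟩
    · exact norm_sub hu hij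
    · exact hs S hS
    · rw [inner_neg_neg]
      exact hs S hS
  have hm : ∀ i, vc u (B8 i) ∈ Φ ∧ -vc u (B8 i) ∈ Φ := by
    intro q
    rcases B8_cases q with ⟨i, j, hij, h⟩ | ⟨S, hS, h⟩
    · rw [h, vc_sub2, neg_sub]
      exact ⟨(F.mem _).2 (Or.inl ⟨i, j, hij, rfl⟩), (F.mem _).2 (Or.inl ⟨j, i, hij.symm, rfl⟩)⟩
    · rw [h, vc_ind]
      have hS3 := (Finset.mem_powersetCard.1 hS).2
      exact ⟨(F.mem _).2 (Or.inr ⟨S, hS3, Or.inl rfl⟩), (F.mem _).2 (Or.inr ⟨S, hS3, Or.inr rfl⟩)⟩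
  have hspan : Submodule.span ℝ (Φ : Set E) ≤ Submodule.span ℝ (Set.range u) := by
    rw [Submodule.span_le]
    intro a ha
    have hmm : ∀ i, u i ∈ Submodule.span ℝ (Set.range u) := fun i => Submodule.subset_span ⟨i, rfl⟩
    rcases (F.mem a).1 (Finset.mem_coe.1 ha) with ⟨i, j, -, rfl⟩ | ⟨S, -, rfl | rfl⟩
    · exact Submodule.sub_mem _ (hmm i) (hmm j)
    · exact Submodule.sum_mem _ fun i _ => hmm i
    · exact Submodule.neg_mem _ (Submodule.sum_mem _ fun i _ => hmm i)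
  refine neg_of_two hX h2 (fun i => vc u (B8 i)) (fun i => (hm i).1) (fun i => (hm i).2)
    (fun i j hij => orth_vcu hu (by norm_num) (B8_orth i j hij)) hx ?_
  exact frame_two (m := 8) hu B8 B8_span (hspan (hX.span x hx))

/-- the expansion in an orthonormal system -/
theorem on_exp {e : Fin m → E} (ho : Orthonormal ℝ e) {x : E} (hx : x ∈ Submodule.span ℝ (Set.range e)) :
    ∑ i, (inner ℝ x (e i) : ℝ) • e i = x := by
  induction hx using Submodule.span_induction with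
  | mem x hx =>
    obtain ⟨k, rfl⟩ := hx
    have h1 : ∀ i, (inner ℝ (e k) (e i) : ℝ) • e i = if k = i then e i else 0 := by
      intro i
      rw [orthonormal_iff_ite.1 ho k i]
      split_ifs <;> simp
    simp only [h1, Finset.sum_ite_eq, Finset.mem_univ, if_true]
  | zero => simp
  | add x y _ _ hx hy => rw [show (∑ i, (inner ℝ (x + y) (e i) : ℝ) • e i) = ∑ i, (inner ℝ x (e i) : ℝ) • e i +
      ∑ i, (inner ℝ y (e i) : ℝ) • e i from by simp only [inner_add_left, add_smul, Finset.sum_add_distrib], hx, hy]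
  | smul r x _ hx =>
    simp only [inner_smul_left, conj_trivial, mul_smul]
    rw [← Finset.smul_sum, hx]

/-- symmetry from the roots along the axes -/
theorem neg_of_axes {e : Fin m → E} (hX : AT.Sat' Φ X) (ho : Orthonormal ℝ e) {r : ℝ} (hr : r ≠ 0)
    (h1 : ∀ i, r • e i ∈ Φ) (h2 : ∀ i, -(r • e i) ∈ Φ)
    (hs : Submodule.span ℝ (Φ : Set E) ≤ Submodule.span ℝ (Set.range e)) {x : E} (hx : x ∈ X) : -x ∈ X := by
  have hO : ∀ i j, i ≠ j → (inner ℝ (r • e i) (r • e j) : ℝ) = 0 := by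
    intro i j hij
    rw [inner_smul_left, inner_smul_right, orthonormal_iff_ite.1 ho i j, if_neg hij]
    simp
  have h3 := sref_orth hX (fun i => r • e i) h1 h2 hO hx Finset.univ
  have h4 : ∑ i, co (r • e i) x • (r • e i) = (2 : ℝ) • x := by
    rw [← on_exp ho (hs (hX.span x hx)), Finset.smul_sum]
    refine Finset.sum_congr rfl fun i _ => ?_
    rw [on_exp ho (hs (hX.span x hx)), smul_smul, smul_smul]
    congr 1
    unfold co
    rw [inner_smul_right, inner_smul_left, inner_smul_right, orthonormal_iff_ite.1 ho i i, if_pos rfl]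
    simp only [conj_trivial]
    field_simp
  rw [h4] at h3
  have h5 : x - (2 : ℝ) • x = -x := by module
  rwa [h5] at h3

theorem span_le_e {e : Fin m → E} {κ : ℝ} (F : Fr Φ m e κ d) :
    Submodule.span ℝ (Φ : Set E) ≤ Submodule.span ℝ (Set.range e) := by
  rw [Submodule.span_le]
  intro a ha
  have hmm : ∀ i, e i ∈ Submodule.span ℝ (Set.range e) := fun i => Submodule.subset_span ⟨i, rfl⟩
  rcases (F.mem a).1 (Finset.mem_coe.1 ha) with ⟨i, j, -, rfl | rfl | rfl⟩ | ⟨-, i, rfl | rfl⟩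
  · exact Submodule.smul_mem _ _ (Submodule.add_mem _ (hmm i) (hmm j))
  · exact Submodule.smul_mem _ _ (Submodule.sub_mem _ (hmm i) (hmm j))
  · exact Submodule.neg_mem _ (Submodule.smul_mem _ _ (Submodule.add_mem _ (hmm i) (hmm j)))
  · exact Submodule.smul_mem _ _ (hmm i)
  · exact Submodule.neg_mem _ (Submodule.smul_mem _ _ (hmm i))

/-- types `B` and `C` -/
theorem neg_mem_B {e : Fin m → E} (hX : AT.Sat' Φ X) (F : Fr Φ m e κ d) (hd : d ≠ 0) {x : E} (hx : x ∈ X) : -x ∈ X := by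
  have hr : (d * κ : ℝ) ≠ 0 := mul_ne_zero (by exact_mod_cast hd) F.pos.ne'
  exact neg_of_axes hX F.on hr (fun i => (F.mem _).2 (Or.inr ⟨hd, i, Or.inl rfl⟩))
    (fun i => (F.mem _).2 (Or.inr ⟨hd, i, Or.inr rfl⟩)) (span_le_e F) hx

/-- two signs are changed -/
theorem flip_two {e : Fin m → E} (hX : AT.Sat' Φ X) (F : Fr Φ m e κ d) {i j : Fin m} (hij : i ≠ j) {x : E} (hx : x ∈ X) :
    x - ((2 * inner ℝ x (e i) : ℝ) • e i + (2 * inner ℝ x (e j) : ℝ) • e j) ∈ X := by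
  have hk := F.pos.ne'
  have hi := orthonormal_iff_ite.1 F.on
  have hii : (inner ℝ (e i) (e i) : ℝ) = 1 := by rw [hi, if_pos rfl]
  have hjj : (inner ℝ (e j) (e j) : ℝ) = 1 := by rw [hi, if_pos rfl]
  have hjd : (inner ℝ (e i) (e j) : ℝ) = 0 := by rw [hi, if_neg hij]
  have hjd' : (inner ℝ (e j) (e i) : ℝ) = 0 := by rw [hi, if_neg hij.symm]
  have m1 : κ • (e i + e j) ∈ Φ := (F.mem _).2 (Or.inl ⟨i, j, hij, Or.inl rfl⟩)
  have m2 : -(κ • (e i + e j)) ∈ Φ := (F.mem _).2 (Or.inl ⟨i, j, hij, Or.inr (Or.inr rfl)⟩)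
  have m3 : κ • (e i - e j) ∈ Φ := (F.mem _).2 (Or.inl ⟨i, j, hij, Or.inr (Or.inl rfl)⟩)
  have m4 : -(κ • (e i - e j)) ∈ Φ := by
    rw [← smul_neg, neg_sub]
    exact (F.mem _).2 (Or.inl ⟨j, i, hij.symm, Or.inr (Or.inl rfl)⟩)
  have h1 := sref hX m1 m2 hx
  have h2 := sref hX m3 m4 h1
  have c1 : ∀ w : E, co (κ • (e i + e j)) w • κ • (e i + e j) = ((inner ℝ w (e i) : ℝ) + inner ℝ w (e j)) • (e i + e j) := by
    intro w
    rw [smul_smul]
    congr 1
    unfold co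
    simp only [inner_smul_left, inner_smul_right, inner_add_left, inner_add_right, conj_trivial, hii, hjj, hjd, hjd']
    field_simp
    ring
  have c2 : ∀ w : E, co (κ • (e i - e j)) w • κ • (e i - e j) = ((inner ℝ w (e i) : ℝ) - inner ℝ w (e j)) • (e i - e j) := by
    intro w
    rw [smul_smul]
    congr 1
    unfold co
    simp only [inner_smul_left, inner_smul_right, inner_sub_left, inner_sub_right, conj_trivial, hii, hjj, hjd, hjd']
    field_simp
    ring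
  rw [c2, c1] at h2
  have h3 : x - ((inner ℝ x (e i) : ℝ) + inner ℝ x (e j)) • (e i + e j) -
      ((inner ℝ (x - ((inner ℝ x (e i) : ℝ) + inner ℝ x (e j)) • (e i + e j)) (e i) : ℝ) -
        inner ℝ (x - ((inner ℝ x (e i) : ℝ) + inner ℝ x (e j)) • (e i + e j)) (e j)) • (e i - e j) =
      x - ((2 * inner ℝ x (e i) : ℝ) • e i + (2 * inner ℝ x (e j) : ℝ) • e j) := by
    simp only [inner_smul_left, inner_sub_left, inner_add_left, conj_trivial, hii, hjj, hjd, hjd']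
    module
  rwa [h3] at h2

/-- type `D`, even rank -/
theorem neg_mem_D {e : Fin m → E} (hX : AT.Sat' Φ X) (F : Fr Φ m e κ d) (he : Even m) {x : E} (hx : x ∈ X) : -x ∈ X := by
  classical
  have hi := orthonormal_iff_ite.1 F.on
  have key : ∀ N, 2 * N ≤ m → x - ∑ i ∈ Finset.univ.filter (fun i : Fin m => i.1 < 2 * N), (2 * inner ℝ x (e i) : ℝ) • e i ∈ X := by
    intro N
    induction N with
    | zero =>
      intro _
      simpa using hx
    | succ N ih =>
      intro hN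
      have h1 := ih (by omega)
      have hf : Finset.univ.filter (fun i : Fin m => i.1 < 2 * (N + 1)) =
          insert ⟨2 * N, by omega⟩ (insert ⟨2 * N + 1, by omega⟩ (Finset.univ.filter (fun i : Fin m => i.1 < 2 * N))) := by
        ext q
        simp only [Finset.mem_filter, Finset.mem_univ, true_and, Finset.mem_insert, Fin.ext_iff]
        omega
      have n1 : (⟨2 * N, by omega⟩ : Fin m) ∉
          insert (⟨2 * N + 1, by omega⟩ : Fin m) (Finset.univ.filter (fun i : Fin m => i.1 < 2 * N)) := by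
        simp [Fin.ext_iff]
      have n2 : (⟨2 * N + 1, by omega⟩ : Fin m) ∉ Finset.univ.filter (fun i : Fin m => i.1 < 2 * N) := by
        simp
      have hin : ∀ q : Fin m, q ∉ Finset.univ.filter (fun i : Fin m => i.1 < 2 * N) →
          (inner ℝ (x - ∑ i ∈ Finset.univ.filter (fun i : Fin m => i.1 < 2 * N), (2 * inner ℝ x (e i) : ℝ) • e i) (e q) : ℝ) =
            inner ℝ x (e q) := by
        intro q hq
        rw [inner_sub_left, sum_inner, Finset.sum_eq_zero, sub_zero]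
        intro i hi'
        have hne : i ≠ q := fun h => hq (h ▸ hi')
        rw [inner_smul_left, hi, if_neg hne, mul_zero]
      have h2 := flip_two hX F (i := ⟨2 * N, by omega⟩) (j := ⟨2 * N + 1, by omega⟩) (by simp [Fin.ext_iff]) h1
      rw [hin _ (by simp), hin _ n2] at h2
      rw [hf, Finset.sum_insert n1, Finset.sum_insert n2]
      convert h2 using 1
      abel
  obtain ⟨N, hN⟩ := he
  have h1 := key N (by omega)
  have h2 : Finset.univ.filter (fun i : Fin m => i.1 < 2 * N) = Finset.univ := by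
    ext q
    simp only [Finset.mem_filter, Finset.mem_univ, true_and, iff_true]
    have := q.2
    omega
  rw [h2] at h1
  have h3 : ∑ i, (2 * inner ℝ x (e i) : ℝ) • e i = (2 : ℝ) • x := by
    conv_rhs => rw [← on_exp F.on (span_le_e F (hX.span x hx))]
    rw [Finset.smul_sum]
    refine Finset.sum_congr rfl fun i _ => ?_
    rw [mul_smul]
  rw [h3] at h1
  have h4 : x - (2 : ℝ) • x = -x := by module
  rwa [h4] at h1

/-- type `F_4` -/
theorem neg_mem_F4 {e : Fin 4 → E} (hX : AT.Sat' Φ X) (F : TyF4 Φ e) {x : E} (hx : x ∈ X) : -x ∈ X := by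
  have hs : Submodule.span ℝ (Φ : Set E) ≤ Submodule.span ℝ (Set.range e) := by
    rw [Submodule.span_le]
    intro a ha
    have hmm : ∀ i, e i ∈ Submodule.span ℝ (Set.range e) := fun i => Submodule.subset_span ⟨i, rfl⟩
    rcases (F.mem a).1 (Finset.mem_coe.1 ha) with ⟨i, j, -, rfl | rfl | rfl⟩ | ⟨i, rfl | rfl⟩ | ⟨t, -, rfl⟩
    · exact Submodule.add_mem _ (hmm i) (hmm j)
    · exact Submodule.sub_mem _ (hmm i) (hmm j)
    · exact Submodule.neg_mem _ (Submodule.add_mem _ (hmm i) (hmm j))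
    · exact Submodule.smul_mem _ _ (hmm i)
    · exact Submodule.neg_mem _ (Submodule.smul_mem _ _ (hmm i))
    · exact Submodule.sum_mem _ fun i _ => Submodule.smul_mem _ _ (hmm i)
  exact neg_of_axes hX F.on (r := 2) two_ne_zero (fun i => (F.mem _).2 (Or.inr (Or.inl ⟨i, Or.inl rfl⟩)))
    (fun i => (F.mem _).2 (Or.inr (Or.inl ⟨i, Or.inr rfl⟩))) hs hx

/-- type `G_2` -/
theorem neg_mem_G2 {u : Fin 3 → E} (hX : AT.Sat' Φ X) (F : TyG2 Φ u) {x : E} (hx : x ∈ X) : -x ∈ X := by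
  have hu : ∀ i j, inner ℝ (u i) (u j) = (if i = j then (1 : ℝ) else 0) - 1 / ((3 : ℕ) : ℝ) := by
    intro i j
    rw [F.gram]
    norm_num
  have h0 : u 0 + u 1 + u 2 = 0 := by
    have := sum_u hu (by norm_num)
    rwa [Fin.sum_univ_three] at this
  have hspan : Submodule.span ℝ (Φ : Set E) ≤ Submodule.span ℝ (Set.range u) := by
    rw [Submodule.span_le]
    intro a ha
    have hmm : ∀ i, u i ∈ Submodule.span ℝ (Set.range u) := fun i => Submodule.subset_span ⟨i, rfl⟩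
    rcases (F.mem a).1 (Finset.mem_coe.1 ha) with ⟨i, j, -, rfl⟩ | ⟨i, rfl | rfl⟩
    · exact Submodule.sub_mem _ (hmm i) (hmm j)
    · exact Submodule.smul_mem _ _ (hmm i)
    · exact Submodule.neg_mem _ (Submodule.smul_mem _ _ (hmm i))
  have m1 : u 0 - u 1 ∈ Φ := (F.mem _).2 (Or.inl ⟨0, 1, by decide, rfl⟩)
  have m2 : -(u 0 - u 1) ∈ Φ := by
    rw [neg_sub]
    exact (F.mem _).2 (Or.inl ⟨1, 0, by decide, rfl⟩)
  have m3 : (3 : ℝ) • u 2 ∈ Φ := (F.mem _).2 (Or.inr ⟨2, Or.inl rfl⟩)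
  have m4 : -((3 : ℝ) • u 2) ∈ Φ := (F.mem _).2 (Or.inr ⟨2, Or.inr rfl⟩)
  have h1 := sref hX m1 m2 hx
  have h2 := sref hX m3 m4 h1
  have g : ∀ i j, i ≠ j → (inner ℝ (u i) (u j) : ℝ) = -1 / 3 := by
    intro i j hij
    rw [F.gram, if_neg hij]
    norm_num
  have g' : ∀ i, (inner ℝ (u i) (u i) : ℝ) = 2 / 3 := by
    intro i
    rw [F.gram, if_pos rfl]
    norm_num
  have c1 : ∀ w : E, co (u 0 - u 1) w = inner ℝ w (u 0) - inner ℝ w (u 1) := by
    intro w
    unfold co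
    simp only [inner_sub_left, inner_sub_right, g', g 0 1 (by decide), g 1 0 (by decide)]
    ring
  have c2 : ∀ w : E, co ((3 : ℝ) • u 2) w = inner ℝ w (u 2) := by
    intro w
    unfold co
    simp only [inner_smul_left, inner_smul_right, g', conj_trivial]
    ring
  have h3 : (inner ℝ (x - (inner ℝ x (u 0) - inner ℝ x (u 1) : ℝ) • (u 0 - u 1)) (u 2) : ℝ) = inner ℝ x (u 2) := by
    simp only [inner_smul_left, inner_sub_left, conj_trivial, g 0 2 (by decide), g 1 2 (by decide)]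
    ring
  rw [c2, c1, h3] at h2
  have key : ∀ w ∈ Submodule.span ℝ (Set.range u), (inner ℝ w (u 0) - inner ℝ w (u 1) : ℝ) • (u 0 - u 1) +
      (inner ℝ w (u 2) : ℝ) • (3 : ℝ) • u 2 = (2 : ℝ) • w := by
    intro w hw
    induction hw using Submodule.span_induction with
    | mem w hw =>
      obtain ⟨k, rfl⟩ := hw
      have h5 : u 2 = -u 0 - u 1 := by
        have : u 2 = -(u 0 + u 1) := (eq_neg_of_add_eq_zero_right h0)
        rw [this]
        abel
      fin_cases k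
      · show (inner ℝ (u 0) (u 0) - inner ℝ (u 0) (u 1) : ℝ) • (u 0 - u 1) + (inner ℝ (u 0) (u 2) : ℝ) • (3 : ℝ) • u 2 =
          (2 : ℝ) • u 0
        rw [g', g 0 1 (by decide), g 0 2 (by decide), h5]
        module
      · show (inner ℝ (u 1) (u 0) - inner ℝ (u 1) (u 1) : ℝ) • (u 0 - u 1) + (inner ℝ (u 1) (u 2) : ℝ) • (3 : ℝ) • u 2 =
          (2 : ℝ) • u 1
        rw [g', g 1 0 (by decide), g 1 2 (by decide), h5]
        module
      · show (inner ℝ (u 2) (u 0) - inner ℝ (u 2) (u 1) : ℝ) • (u 0 - u 1) + (inner ℝ (u 2) (u 2) : ℝ) • (3 : ℝ) • u 2 =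
          (2 : ℝ) • u 2
        rw [g', g 2 0 (by decide), g 2 1 (by decide)]
        module
    | zero => simp
    | add x y _ _ hx hy =>
      have : ((2 : ℝ) • (x + y)) = (2 : ℝ) • x + (2 : ℝ) • y := smul_add _ _ _
      rw [this, ← hx, ← hy]
      simp only [inner_add_left]
      module
    | smul r x _ hx =>
      have h6 : (2 : ℝ) • r • x = r • (2 : ℝ) • x := smul_comm _ _ _
      rw [h6, ← hx]
      simp only [inner_smul_left, conj_trivial]
      module
  have h4 : x - (inner ℝ x (u 0) - inner ℝ x (u 1) : ℝ) • (u 0 - u 1) - (inner ℝ x (u 2) : ℝ) • (3 : ℝ) • u 2 = -x := by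
    rw [sub_sub, key x (hspan (hX.span x hx))]
    module
  rwa [h4] at h2

end L2
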