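import Pool.Agent.Helper81.L2.NumS
import Pool.Agent.Helper43.LT.TypeAFin

/-!
Project L2 (MP_b8862a_ag): type `A`, symplectic modules.
-/

set_option linter.unusedSectionVars false
set_option linter.unusedVariables false

open Module PF TF PW AG LT

namespace L2

variable {E : Type*} [NormedAddCommGroup E] [InnerProductSpace ℝ E] {Φ X : Finset E} {n s m : ℕ} {l y v : E}
  {u : Fin m → E}

/-- the parity is even on the root lattice -/
theorem par_closure (h : RS Φ) (hreg : ∀ a ∈ Φ, (inner ℝ v a : ℝ) ≠ 0) {x : E}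
    (hx : x ∈ AddSubgroup.closure (Φ : Set E)) : Par Φ x v := by
  have hadd : ∀ a x y : E, co a (x + y) = co a x + co a y := by
    intro a x y
    unfold co
    rw [inner_add_left]
    ring
  have hneg : ∀ a x : E, co a (-x) = -co a x := by
    intro a x
    unfold co
    rw [inner_neg_left]
    ring
  induction hx using AddSubgroup.closure_induction with
  | mem a ha => exact par_root h hreg ha
  | zero => exact ⟨0, by simp [co]⟩
  | add x y _ _ h1 h2 =>
    obtain ⟨a, ha⟩ := h1
    obtain ⟨b, hb⟩ := h2
    refine ⟨a + b, ?_⟩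
    rw [Finset.sum_congr rfl fun c _ => hadd c x y, Finset.sum_add_distrib, ha, hb]
    push_cast
    ring
  | neg x _ h1 =>
    obtain ⟨a, ha⟩ := h1
    refine ⟨-a, ?_⟩
    rw [Finset.sum_congr rfl fun c _ => hneg c x, Finset.sum_neg_distrib, ha]
    push_cast
    ring

/-- integral coordinates: an element of the root lattice -/
theorem intA (F : FrA Φ m u) (hm : 0 < m) {x : E} (hx : x ∈ Submodule.span ℝ (Φ : Set E)) (z : Fin m → ℤ)
    (hz : ∀ i, (inner ℝ x (u i) : ℝ) = z i) : x ∈ AddSubgroup.closure (Φ : Set E) := by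
  have h0 : ∑ i, (z i : ℝ) = 0 := by
    have h1 := F.sum_ax hm x
    rw [Finset.sum_congr rfl fun i _ => hz i] at h1
    exact h1
  have h1 : x = ∑ i, z i • (u i - u ⟨0, hm⟩) := by
    have h2 : ∑ i, z i • (u i - u ⟨0, hm⟩) = ∑ i, (z i : ℝ) • u i - (∑ i, (z i : ℝ)) • u ⟨0, hm⟩ := by
      rw [Finset.sum_smul, ← Finset.sum_sub_distrib]
      refine Finset.sum_congr rfl fun i _ => ?_
      rw [← Int.cast_smul_eq_zsmul ℝ, smul_sub]
    rw [h2, h0, zero_smul, sub_zero]
    have h3 := F.expand hx
    rw [Finset.sum_congr rfl fun i _ => by rw [hz i]] at h3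
    exact h3
  rw [h1]
  refine AddSubgroup.sum_mem _ fun i _ => AddSubgroup.zsmul_mem _ ?_ _
  by_cases hi : i = ⟨0, hm⟩
  · rw [hi, sub_self]
    exact AddSubgroup.zero_mem _
  · exact AddSubgroup.subset_closure (Finset.mem_coe.2 (F.mem' hi))

/-- type `A`, symplectic modules -/
theorem typeAS (h : DtS Φ X n s l y v) (F0 : FrA Φ m u) (hm : 3 ≤ m) : ExcS s (n - 2 * s) := by
  classical
  obtain ⟨u, F, hs⟩ := sorted43 h.wd F0
  have hI : In Φ X n (8 * s) l y := h.inn
  have hX := hI.sat
  have hls := Sat.span27 hX hI.l_mem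
  have hys := hI.y_mem
  have hm0 : 0 < m := by omega
  have hmr : (3 : ℝ) ≤ m := by exact_mod_cast hm
  have hspos := h.s_pos
  have hsr : (1 : ℝ) ≤ s := by exact_mod_cast hspos
  have hLa : ∀ i j : Fin m, i ≤ j → (inner ℝ l (u j) : ℝ) ≤ inner ℝ l (u i) := fun i j hij => anti43 F hs h.wd.dom hij
  have hLr := rev43 F hX hs hI.l_mem h.wd.dom h.top
  have hYa : ∀ i j : Fin m, i ≤ j → (inner ℝ y (u j) : ℝ) ≤ inner ℝ y (u i) := fun i j hij => anti43 F hs h.ydom hij
  have hYint : ∀ i j, ∃ k : ℤ, (inner ℝ y (u i) : ℝ) - inner ℝ y (u j) = k := by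
    intro i j
    by_cases hij : i = j
    · exact ⟨0, by rw [hij]; simp⟩
    · obtain ⟨k, hk⟩ := hI.lev _ (F.mem' hij)
      rw [real_inner_comm, F.inner_sub'] at hk
      exact ⟨k, hk⟩
  choose D hD using fun i => hYint i (Fin.rev i)
  have hDa : ∀ i j, i ≤ j → D j ≤ D i := by
    intro i j hij
    have h1 := hYa i j hij
    have h2 := hYa _ _ (Fin.rev_le_rev.2 hij)
    have h3 : (D j : ℝ) ≤ D i := by rw [← hD, ← hD]; linarith
    exact_mod_cast h3
  have hDr : ∀ i, D (Fin.rev i) = -D i := by
    intro i
    have h1 := hD (Fin.rev i)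
    rw [Fin.rev_rev] at h1
    have h2 : (D (Fin.rev i) : ℝ) = ((-D i : ℤ) : ℝ) := by
      push_cast
      rw [← h1, ← hD i]
      ring
    exact_mod_cast h2
  have hLD : ∑ i, (inner ℝ l (u i) : ℝ) * D i = 2 := by
    have h1 : ∑ i, (inner ℝ l (u i) : ℝ) * inner ℝ y (u (Fin.rev i)) = -(inner ℝ l y : ℝ) := by
      rw [F.inner_eq hls, ← Equiv.sum_comp Fin.revPerm (fun i => (inner ℝ l (u i) : ℝ) * inner ℝ y (u (Fin.rev i))),
        ← Finset.sum_neg_distrib]
      refine Finset.sum_congr rfl fun i _ => ?_
      rw [Fin.revPerm_apply, Fin.rev_rev, hLr]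
      ring
    have h2 : ∑ i, (inner ℝ l (u i) : ℝ) * D i = inner ℝ l y - ∑ i, (inner ℝ l (u i) : ℝ) * inner ℝ y (u (Fin.rev i)) := by
      rw [F.inner_eq hls, ← Finset.sum_sub_distrib]
      refine Finset.sum_congr rfl fun i _ => ?_
      rw [← hD i]
      ring
    rw [h2, h1, h.ly]
    norm_num
  -- the trace identity
  have hidt := hI.idt
  rw [F.finrank (by omega), F.card] at hidt
  have hm1 : ((m - 1 : ℕ) : ℝ) = m - 1 := by
    rw [Nat.cast_sub (by omega)]; norm_num
  rw [hm1] at hidt
  push_cast at hidt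
  have hid : (n : ℝ) * cas Φ l * (m * inner ℝ y y) = 2 * s * (m * ((m - 1) * (m + 1))) := by
    linear_combination (m : ℝ) / 4 * hidt
  let i0 : Fin m := ⟨0, hm0⟩
  have hle0 : ∀ j : Fin m, i0 ≤ j := fun j => by rw [Fin.le_def]; exact Nat.zero_le _
  have hle1 : ∀ j : Fin m, j ≤ Fin.rev i0 := fun j => by
    rw [Fin.le_def, Fin.val_rev]
    have : (i0 : ℕ) = 0 := rfl
    omega
  have hne0 : i0 ≠ Fin.rev i0 := by
    intro h
    have := congrArg Fin.val h
    rw [Fin.val_rev] at this
    have : (i0 : ℕ) = 0 := rfl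
    omega
  -- the coordinates between the second and the last but one are equal
  have hmid : ∀ i1 : Fin m, (i1 : ℕ) = 1 → D i1 = 0 → ∀ j, j ≠ i0 → j ≠ Fin.rev i0 →
      (inner ℝ y (u j) : ℝ) = inner ℝ y (u i1) := by
    intro i1 hi1 hd j hj hj'
    have h8 : i1 ≤ j := by
      rw [Fin.le_def]
      have : (j : ℕ) ≠ 0 := fun h => hj (Fin.ext h)
      omega
    have h9 : j ≤ Fin.rev i1 := by
      rw [Fin.le_def, Fin.val_rev]
      have : (j : ℕ) ≠ m - 1 := fun h => hj' (Fin.ext (by rw [Fin.val_rev]; exact h))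
      omega
    have h1 := hYa _ _ h8
    have h2 := hYa _ _ h9
    have h3 := hD i1
    rw [hd, Int.cast_zero] at h3
    linarith
  rcases F.int_or hX (by omega) hI.l_mem with ⟨z, hz⟩ | ⟨z, hz⟩
  · -- integral coordinates
    exact (not_par h.par (par_closure h.wd.rs h.wd.reg (intA F (by omega) hls z hz))).elim
  · -- half odd coordinates
    set w : Fin m → ℤ := fun i => 2 * z i + 1 with hw
    have hLw : ∀ i, (inner ℝ l (u i) : ℝ) = w i / 2 := by
      intro i
      rw [hz, hw]
      push_cast
      ring
    have hwo : ∀ i, Odd (w i) := fun i => ⟨z i, rfl⟩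
    have hwa : ∀ i j, i ≤ j → w j ≤ w i := by
      intro i j hij
      have h1 := hLa i j hij
      rw [hLw, hLw] at h1
      have h2 : (w j : ℝ) ≤ w i := by linarith
      exact_mod_cast h2
    have hwr : ∀ i, w (Fin.rev i) = -w i := by
      intro i
      have h1 := hLr i
      rw [hLw, hLw] at h1
      have h2 : (w (Fin.rev i) : ℝ) = ((-w i : ℤ) : ℝ) := by
        push_cast
        linarith
      exact_mod_cast h2
    have hwD : ∑ i, w i * D i = 4 := by
      have h1 : ((∑ i, w i * D i : ℤ) : ℝ) = ((4 : ℤ) : ℝ) := by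
        have h2 : ((∑ i, w i * D i : ℤ) : ℝ) = 2 * ∑ i, (inner ℝ l (u i) : ℝ) * D i := by
          push_cast
          rw [Finset.mul_sum]
          refine Finset.sum_congr rfl fun i _ => ?_
          rw [hLw]
          ring
        rw [h2, hLD]
        norm_num
      exact_mod_cast h1
    -- the rank is odd
    obtain ⟨k, hk⟩ : ∃ k, m = 2 * k := by
      rcases Nat.even_or_odd' m with ⟨k, hk | hk⟩
      · exact ⟨k, hk⟩
      · exfalso
        let c : Fin m := ⟨k, by omega⟩
        have hc : Fin.rev c = c := by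
          apply Fin.ext
          rw [Fin.val_rev]
          have : (c : ℕ) = k := rfl
          omega
        have h1 := hwr c
        rw [hc] at h1
        obtain ⟨q, hq⟩ := hwo c
        omega
    have hk2 : 2 ≤ k := by omega
    have hm4 : 4 ≤ m := by omega
    let i1 : Fin m := ⟨1, by omega⟩
    have hi1 : (i1 : ℕ) = 1 := rfl
    have hi0 : (i0 : ℕ) = 0 := rfl
    obtain ⟨hw0, hcase⟩ := core_odd43 hm4 hwo hwa hwr hDa hDr hwD (i0 := i0) (i1 := i1) rfl rfl
    have hwval : ∀ j : Fin m, w j = if (j : ℕ) < k then 1 else -1 := by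
      intro j
      have h1 := abs_le43 hwa hwr (hle0 j) (hle1 j)
      rw [hw0] at h1
      have h2 := abs_le.1 h1
      obtain ⟨q, hq⟩ := hwo j
      by_cases h3 : (j : ℕ) < k
      · rw [if_pos h3]
        have := nonneg_of_le43 hwa hwr (i := j) (by omega)
        omega
      · rw [if_neg h3]
        have := nonpos_of_ge43 hwa hwr (i := j) (by omega)
        omega
    have hLval : ∀ j : Fin m, (inner ℝ l (u j) : ℝ) = if (j : ℕ) < k then 1 / 2 else -(1 / 2) := by
      intro j
      rw [hLw, hwval]
      by_cases h3 : (j : ℕ) < k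
      · rw [if_pos h3, if_pos h3]
        norm_num
      · rw [if_neg h3, if_neg h3]
        norm_num
    have hLabs : ∀ j : Fin m, |(inner ℝ l (u j) : ℝ)| = 1 / 2 := by
      intro j
      rw [hLval]
      split_ifs
      · rw [abs_of_pos (by norm_num)]
      · rw [abs_neg, abs_of_pos (by norm_num)]
    have hcas := casH43 F hm0 hls hLabs
    -- parity
    have hpar : Odd k := by
      obtain ⟨q, hq⟩ := h.par
      have h1 : ∑ a ∈ Ps Φ v, co a l = ∑ a ∈ Ps Φ v, (inner ℝ l a : ℝ) := by
        refine Finset.sum_congr rfl fun a ha => ?_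
        unfold Ps at ha
        rw [Finset.mem_filter] at ha
        obtain ⟨i, j, hij, rfl⟩ := (F.mem a).1 ha.1
        rw [F.co hij, F.inner_sub']
      rw [h1] at hq
      have h2 := sum_Ps43 h.wd
      have h3 := hcas
      unfold cas at h3
      have h4 : (inner ℝ l l : ℝ) = m / 4 := by
        rw [F.inner_eq hls]
        have h5 : ∀ i, (inner ℝ l (u i) : ℝ) * inner ℝ l (u i) = 1 / 4 := by
          intro i
          have := hLabs i
          rw [← abs_mul_abs_self, this]
          norm_num
        simp only [h5, Finset.sum_const, Finset.card_univ, Fintype.card_fin, nsmul_eq_mul]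
        ring
      rw [h4, ← h2, hq] at h3
      have h5 : (m : ℝ) = 2 * k := by exact_mod_cast hk
      have h6 : ((k ^ 2 : ℕ) : ℤ) = 2 * q + 1 := by
        have h7 : (((k ^ 2 : ℕ) : ℤ) : ℝ) = ((2 * q + 1 : ℤ) : ℝ) := by
          push_cast
          rw [h5] at h3
          linarith
        exact_mod_cast h7
      have h7 : Odd (k ^ 2) := by
        have : Odd ((k ^ 2 : ℕ) : ℤ) := ⟨q, h6⟩
        exact_mod_cast this
      by_contra hcon
      rw [Nat.not_odd_iff_even] at hcon
      have h8 : Even (k ^ 2) := hcon.pow_of_ne_zero (by norm_num)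
      exact (Nat.not_even_iff_odd.2 h7) h8
    have hk4 : 3 ≤ k := by
      obtain ⟨q, hq⟩ := hpar
      omega
    suffices hfin : s * (2 * (2 * k - 1)) = n * (k - 1) ∨ s * (2 * (2 * k - 1)) = n * k by
      have hdim := (dim_frAR_sorted43 h.wd F (fun _ => rfl) hs).2.1
      subst hk
      exact q_mO hk4 hpar (dimM (by omega) (fun j => inner ℝ l (u j)) hLval hdim) hfin
    have hmk : (m : ℝ) = 2 * k := by exact_mod_cast hk
    have hkr : (3 : ℝ) ≤ k := by exact_mod_cast hk4
    rw [hcas] at hid
    have hid2 : (n : ℝ) * (m * inner ℝ y y) = 8 * s * (m - 1) := by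
      have h1 : (0 : ℝ) < m * (m + 1) := by positivity
      refine mul_left_cancel₀ h1.ne' ?_
      linear_combination 4 * hid
    have hk1 : ((k - 1 : ℕ) : ℝ) = k - 1 := by
      rw [Nat.cast_sub (by omega)]; norm_num
    have h2k1 : ((2 * k - 1 : ℕ) : ℝ) = 2 * k - 1 := by
      rw [Nat.cast_sub (by omega)]; push_cast; ring
    rcases hcase with ⟨hD0, hD1⟩ | ⟨hD0, hD1, hDrest⟩
    · -- `y = ω_1 + ω_(m-1)`
      have hY := hmid i1 rfl hD1
      obtain ⟨a, ha⟩ := hYint i0 i1
      obtain ⟨b, hb⟩ := hYint (Fin.rev i0) i1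
      have hab : a - b = 2 := by
        have h1 : ((a - b : ℤ) : ℝ) = D i0 := by
          push_cast
          rw [← ha, ← hb, ← hD i0]
          ring
        rw [hD0] at h1
        exact_mod_cast h1
      have ha0 : 0 ≤ a := by
        have h1 : (0 : ℝ) ≤ a := by
          rw [← ha]
          have := hYa _ _ (hle0 i1)
          linarith
        exact_mod_cast h1
      have hb0 : b ≤ 0 := by
        have h1 : (b : ℝ) ≤ 0 := by
          rw [← hb]
          have := hYa _ _ (hle1 i1)
          linarith
        exact_mod_cast h1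
      have hyy := yy_mid43 F hm0 hys (inner ℝ y (u i1)) a b hne0 (by rw [← ha]; ring) (by rw [← hb]; ring) hY
      have hcase2 : (m : ℝ) * inner ℝ y y = 4 * (m - 1) ∨ (m : ℝ) * inner ℝ y y = 2 * m := by
        rcases (by omega : (a = 2 ∧ b = 0) ∨ (a = 1 ∧ b = -1) ∨ (a = 0 ∧ b = -2)) with ⟨h1, h2⟩ | ⟨h1, h2⟩ | ⟨h1, h2⟩
        · left
          rw [hyy, h1, h2]
          push_cast
          ring
        · right
          rw [hyy, h1, h2]
          push_cast
          ring
        · left
          rw [hyy, h1, h2]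
          push_cast
          ring
      rcases hcase2 with h1 | h1
      · exfalso
        rw [h1] at hid2
        have h2 : (0 : ℝ) < m - 1 := by linarith
        have h3 : (n : ℝ) = ((2 * s : ℕ) : ℝ) := by
          refine mul_left_cancel₀ (mul_pos four_pos h2).ne' ?_
          push_cast
          linear_combination hid2
        have h4 : n = 2 * s := by exact_mod_cast h3
        have := h.h_pos
        omega
      · right
        rw [h1, hmk] at hid2
        have h3 : ((s * (2 * (2 * k - 1)) : ℕ) : ℝ) = ((n * k : ℕ) : ℝ) := by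
          push_cast [h2k1]
          linear_combination -hid2 / 4
        exact_mod_cast h3
    · -- `y = ω_2`
      left
      choose a ha using fun j => hYint j (Fin.rev i0)
      have ha0 : a i0 = 1 := by
        have h1 := ha i0
        rw [hD i0, hD0] at h1
        exact_mod_cast h1.symm
      have hal : a (Fin.rev i0) = 0 := by
        have h1 := ha (Fin.rev i0)
        rw [sub_self] at h1
        exact_mod_cast h1.symm
      have ha01 : ∀ j, a j = 0 ∨ a j = 1 := by
        intro j
        have h1 : (0 : ℝ) ≤ a j := by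
          rw [← ha j]
          have := hYa _ _ (hle1 j)
          linarith
        have h2 : (a j : ℝ) ≤ a i0 := by
          rw [← ha j, ← ha i0]
          have := hYa _ _ (hle0 j)
          linarith
        rw [ha0] at h2
        have h3 : 0 ≤ a j := by exact_mod_cast h1
        have h4 : a j ≤ 1 := by exact_mod_cast h2
        omega
      have hdiff : ∀ j, a j - a (Fin.rev j) = D j := by
        intro j
        have h1 : ((a j - a (Fin.rev j) : ℤ) : ℝ) = D j := by
          push_cast
          rw [← ha, ← ha, ← hD j]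
          ring
        exact_mod_cast h1
      have ha1 : a i1 = 1 ∧ a (Fin.rev i1) = 0 := by
        have h1 := hdiff i1
        rw [hD1] at h1
        rcases ha01 i1 with h2 | h2 <;> rcases ha01 (Fin.rev i1) with h3 | h3 <;> omega
      have hyy := yy_two43 F hm0 hys (inner ℝ y (u (Fin.rev i0))) a (fun j => by rw [← ha j]; ring) ha01
      -- the middle values
      let i2 : Fin m := ⟨2, by omega⟩
      have hi2 : (i2 : ℕ) = 2 := rfl
      have hmid2 : ∀ j, j ≠ i0 → j ≠ Fin.rev i0 → j ≠ i1 → j ≠ Fin.rev i1 → a j = a i2 := by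
        intro j hj hj' hj1 hj1'
        have h1 : (j : ℕ) ≠ 0 := fun h => hj (Fin.ext h)
        have h2 : (j : ℕ) ≠ m - 1 := fun h => hj' (Fin.ext (by rw [Fin.val_rev]; exact h))
        have h3 : (j : ℕ) ≠ 1 := fun h => hj1 (Fin.ext h)
        have h4 : (j : ℕ) ≠ m - 2 := fun h => hj1' (Fin.ext (by rw [Fin.val_rev]; exact h))
        have h5 : i2 ≤ j := by
          rw [Fin.le_def]
          omega
        have h6 : j ≤ Fin.rev i2 := by
          rw [Fin.le_def, Fin.val_rev]
          omega
        have h7 := hYa _ _ h5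
        have h8 := hYa _ _ h6
        have h9 : D i2 = 0 := hDrest i2 (fun h => by have := congrArg Fin.val h; omega)
          (fun h => by have := congrArg Fin.val h; rw [Fin.val_rev] at this; omega)
          (fun h => by have := congrArg Fin.val h; omega)
          (fun h => by have := congrArg Fin.val h; rw [Fin.val_rev] at this; omega)
        have h10 := hD i2
        rw [h9, Int.cast_zero] at h10
        have h11 : (a j : ℝ) = a i2 := by
          rw [← ha, ← ha]
          linarith
        exact_mod_cast h11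
      have hne2 : i0 ≠ i1 := fun h => by have := congrArg Fin.val h; omega
      have hne3 : i0 ≠ Fin.rev i1 := fun h => by
        have := congrArg Fin.val h
        rw [Fin.val_rev] at this
        omega
      have hne4 : Fin.rev i0 ≠ i1 := fun h => by
        have := congrArg Fin.val h
        rw [Fin.val_rev] at this
        omega
      have hne5 : Fin.rev i0 ≠ Fin.rev i1 := fun h => hne2 (Fin.rev_injective h)
      have hne6 : i1 ≠ Fin.rev i1 := fun h => by
        have := congrArg Fin.val h
        rw [Fin.val_rev] at this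
        omega
      have hsum : ∑ j, a j = 2 + ((m : ℤ) - 4) * a i2 := by
        set T : Finset (Fin m) := {i0, Fin.rev i0, i1, Fin.rev i1} with hT
        have h1 : ∑ j ∈ T, a j = 2 := by
          rw [hT, Finset.sum_insert (by simp [hne0, hne2, hne3]), Finset.sum_insert (by simp [hne4, hne5]),
            Finset.sum_pair hne6, ha0, hal, ha1.1, ha1.2]
          norm_num
        have hTc : T.card = 4 := by
          rw [hT, Finset.card_insert_of_notMem (by simp [hne0, hne2, hne3]),
            Finset.card_insert_of_notMem (by simp [hne4, hne5]), Finset.card_pair hne6]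
        have h2 : ∑ j ∈ Tᶜ, a j = ((m : ℤ) - 4) * a i2 := by
          rw [Finset.sum_congr rfl (g := fun _ => a i2), Finset.sum_const, Finset.card_compl, Fintype.card_fin, hTc,
            nsmul_eq_mul, Nat.cast_sub hm4]
          · norm_num
          · intro j hj
            rw [Finset.mem_compl, hT] at hj
            simp only [Finset.mem_insert, Finset.mem_singleton, not_or] at hj
            exact hmid2 j hj.1 hj.2.1 hj.2.2.1 hj.2.2.2
        rw [← Finset.sum_add_sum_compl T, h1, h2]
      have hyy' : (m : ℝ) * inner ℝ y y = 2 * (m - 2) := by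
        rw [hyy, hsum]
        rcases ha01 i2 with h1 | h1 <;> rw [h1] <;> push_cast <;> ring
      rw [hyy', hmk] at hid2
      have h3 : ((s * (2 * (2 * k - 1)) : ℕ) : ℝ) = ((n * (k - 1) : ℕ) : ℝ) := by
        push_cast [h2k1, hk1]
        linear_combination -hid2 / 4
      exact_mod_cast h3

end L2
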