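import Pool.Agent.Helper81.L2.Data
import Pool.Agent.Helper81.L2.AS

/-!
Project L2 (MP_b8862a_ag): type `E_7`, symplectic modules.
-/

set_option linter.unusedSectionVars false
set_option linter.unusedVariables false

open Module PF TF PW AG LT

namespace L2

variable {E : Type*} [NormedAddCommGroup E] [InnerProductSpace ℝ E] {Φ X : Finset E} {n s m k : ℕ} {l y v : E}

/-- coordinates that differ by a constant give the same vector -/
theorem vc_eq_of {u : Fin (m + 1) → E} (h0 : ∑ i, u i = 0) {w w' : Fin (m + 1) → ℤ}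
    (h : ∀ i, w i - w' i = w 0 - w' 0) : vc u w = vc u w' := by
  have h1 : vc u w - vc u w' = ((w 0 - w' 0 : ℤ) : ℝ) • ∑ i, u i := by
    unfold vc
    rw [← Finset.sum_sub_distrib, Finset.smul_sum]
    refine Finset.sum_congr rfl fun i _ => ?_
    rw [← sub_smul, ← h i]
    push_cast
    rfl
  rw [h0, smul_zero] at h1
  exact sub_eq_zero.1 h1

/-- change of coordinates -/
theorem vc_vc {f : Fin m → E} (M : Fin k → Fin m → ℤ) (z : Fin k → ℤ) :
    vc (fun i => vc f (M i)) z = vc f fun j => ∑ i, z i * M i j := by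
  unfold vc
  simp only [Finset.smul_sum, smul_smul]
  rw [Finset.sum_comm]
  refine Finset.sum_congr rfl fun j _ => ?_
  push_cast
  rw [Finset.sum_smul]

/-- inner products in the frame of type `A` -/
theorem inner_vcu {u : Fin m → E} (hu : ∀ i j, inner ℝ (u i) (u j) = (if i = j then (1 : ℝ) else 0) - 1 / m)
    (z w : Fin m → ℤ) : (inner ℝ (vc u z) (vc u w) : ℝ) = ∑ i, (z i : ℝ) * w i - (∑ i, (z i : ℝ)) * (∑ i, (w i : ℝ)) / m := by
  unfold vc
  rw [sum_inner]
  have h1 : ∀ i, (inner ℝ ((z i : ℝ) • u i) (∑ j, (w j : ℝ) • u j) : ℝ) =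
      (z i : ℝ) * w i - (z i : ℝ) * ((∑ j, (w j : ℝ)) / m) := by
    intro i
    rw [inner_smul_left, inner_sum, ← mul_sub]
    simp only [inner_smul_right, hu, conj_trivial]
    congr 1
    simp only [mul_sub, mul_ite, mul_one, mul_zero, Finset.sum_sub_distrib, Finset.sum_ite_eq, Finset.mem_univ, if_true]
    rw [← Finset.sum_mul, mul_one_div]
  rw [Finset.sum_congr rfl fun i _ => h1 i, Finset.sum_sub_distrib, ← Finset.sum_mul, mul_div_assoc]

theorem bs7 {u : Fin 8 → E} (F : TyE7 Φ u) : Bs Φ C7 p7 fun i => vc u (M7 i) where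
  gram := by
    intro i j
    rw [inner_vcu F.hu]
    have h1 := gram7 i j
    have h2 : ((8 * C7 i j : ℤ) : ℝ) = ((8 * (∑ k, M7 i k * M7 j k) - (∑ k, M7 i k) * ∑ k, M7 j k : ℤ) : ℝ) := by
      rw [h1]
    push_cast at h2 ⊢
    linarith
  mem := by
    intro a
    have h0 := sum_u F.hu (by norm_num)
    have hp : ∀ q, vc (fun i => vc u (M7 i)) (p7 q) = vc u (P7 q) := by
      intro q
      rw [vc_vc]
      congr 1
      funext k
      exact (PM7 q k).symm
    have hsub : ∀ i j : Fin 8, vc u (dl i - dl j) = u i - u j := by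
      intro i j
      rw [sub_eq_add_neg, vc_add, vc_neg, vc_dl, vc_dl, sub_eq_add_neg]
    have hsu : ∀ S : Finset (Fin 8), vc u (fun k => if k ∈ S then 1 else 0) = ∑ i ∈ S, u i := by
      intro S
      unfold vc
      have h1 : ∀ i, (((if i ∈ S then (1 : ℤ) else 0) : ℤ) : ℝ) • u i = if i ∈ S then u i else 0 := by
        intro i
        split_ifs <;> simp
      simp only [h1]
      rw [Finset.sum_ite_mem, Finset.univ_inter]
    have hneg : ∀ (w w' : Fin 8 → ℤ), (∀ k, w k + w' k = w 0 + w' 0) → vc u w' = -vc u w := by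
      intro w w' hw
      rw [← vc_neg]
      refine vc_eq_of h0 fun i => ?_
      have := hw i
      simp only [Pi.neg_apply]
      linarith
    simp only [hp]
    rw [F.mem]
    constructor
    · rintro (⟨i, j, hij, rfl⟩ | ⟨S, hS, rfl⟩)
      · obtain ⟨q, h | h⟩ := sub7 i j hij
        · exact ⟨q, Or.inl (by rw [← hsub]; exact (vc_eq_of h0 h).symm)⟩
        · exact ⟨q, Or.inr (by rw [← hsub]; exact hneg _ _ h)⟩
      · obtain ⟨q, h | h⟩ := su7 S (Finset.mem_powersetCard.2 ⟨Finset.subset_univ _, hS⟩)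
        · exact ⟨q, Or.inl (by rw [← hsu]; exact (vc_eq_of h0 h).symm)⟩
        · exact ⟨q, Or.inr (by rw [← hsu]; exact hneg _ _ h)⟩
    · rintro ⟨q, hq⟩
      have hcompl : ∀ S : Finset (Fin 8), ∑ i ∈ Sᶜ, u i = -∑ i ∈ S, u i := by
        intro S
        have := Finset.sum_add_sum_compl S u
        rw [h0] at this
        exact eq_neg_of_add_eq_zero_right this
      rcases cases7 q with ⟨i, j, hij, h⟩ | ⟨S, hS, h⟩
      · left
        rw [vc_eq_of h0 h, hsub] at hq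
        rcases hq with rfl | rfl
        · exact ⟨i, j, hij, rfl⟩
        · exact ⟨j, i, hij.symm, by rw [neg_sub]⟩
      · right
        rw [vc_eq_of h0 h, hsu] at hq
        have hS4 := (Finset.mem_powersetCard.1 hS).2
        rcases hq with rfl | rfl
        · exact ⟨S, hS4, rfl⟩
        · exact ⟨Sᶜ, by rw [Finset.card_compl, hS4, Fintype.card_fin], (hcompl S).symm⟩

theorem dim7 : ∏ q, (∑ i, p7 q i * (![0, 0, 0, 0, 0, 1, 0] + 1 : Fin 7 → ℤ) i) = 56 * ∏ q, ∑ i, p7 q i := by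
  decide +kernel

/-- nonnegative integers with the sum one -/
theorem eq_dl {a : Fin k → ℤ} (h0 : ∀ i, 0 ≤ a i) (h1 : ∑ i, a i = 1) : ∃ p, a = dl p := by
  classical
  have h2 : ∃ p, a p ≠ 0 := by
    by_contra hcon
    push Not at hcon
    rw [Finset.sum_eq_zero fun i _ => hcon i] at h1
    norm_num at h1
  obtain ⟨p, hp⟩ := h2
  have hp1 : 1 ≤ a p := by
    have := h0 p
    omega
  rw [← Finset.add_sum_erase _ _ (Finset.mem_univ p)] at h1
  have h3 : 0 ≤ ∑ i ∈ Finset.univ.erase p, a i := Finset.sum_nonneg fun i _ => h0 i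
  have h4 : ∑ i ∈ Finset.univ.erase p, a i = 0 := by omega
  have h5 := (Finset.sum_eq_zero_iff_of_nonneg (fun i _ => h0 i)).1 h4
  refine ⟨p, ?_⟩
  funext i
  unfold dl
  by_cases hi : i = p
  · rw [if_pos hi, hi]
    omega
  · rw [if_neg hi]
    exact h5 i (Finset.mem_erase.2 ⟨hi, Finset.mem_univ _⟩)

/-- a bilinear form with entries `≥ κ` -/
theorem eq_dl_two {D : Fin k → Fin k → ℤ} {κ : ℤ} (hκ : 0 < κ) (hD : ∀ i j, κ ≤ D i j) {a b : Fin k → ℤ}
    (ha : ∀ i, 0 ≤ a i) (hb : ∀ i, 0 ≤ b i) (h : ∑ i, ∑ j, D i j * a j * b i = κ) :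
    ∃ p q, a = dl p ∧ b = dl q ∧ D q p = κ := by
  classical
  have h1 : κ * ((∑ i, b i) * ∑ j, a j) ≤ κ := by
    conv_rhs => rw [← h]
    rw [Finset.sum_mul_sum, Finset.mul_sum]
    refine Finset.sum_le_sum fun i _ => ?_
    rw [Finset.mul_sum]
    refine Finset.sum_le_sum fun j _ => ?_
    have h2 := mul_nonneg (ha j) (hb i)
    have h3 := mul_le_mul_of_nonneg_right (hD i j) h2
    linarith
  have ha1 : ∑ j, a j ≠ 0 := by
    intro h0
    have h5 := (Finset.sum_eq_zero_iff_of_nonneg (fun i _ => ha i)).1 h0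
    rw [Finset.sum_eq_zero fun i _ => Finset.sum_eq_zero fun j _ => by rw [h5 j (Finset.mem_univ _)]; ring] at h
    omega
  have hb1 : ∑ j, b j ≠ 0 := by
    intro h0
    have h5 := (Finset.sum_eq_zero_iff_of_nonneg (fun i _ => hb i)).1 h0
    rw [Finset.sum_eq_zero fun i _ => Finset.sum_eq_zero fun j _ => by rw [h5 i (Finset.mem_univ _)]; ring] at h
    omega
  have ha2 : 1 ≤ ∑ j, a j := by
    have := Finset.sum_nonneg fun i (_ : i ∈ Finset.univ) => ha i
    omega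
  have hb2 : 1 ≤ ∑ j, b j := by
    have := Finset.sum_nonneg fun i (_ : i ∈ Finset.univ) => hb i
    omega
  have h2 : (∑ i, b i) * ∑ j, a j ≤ 1 := by
    by_contra hcon
    push Not at hcon
    nlinarith
  have ha3 : ∑ j, a j = 1 := by nlinarith
  have hb3 : ∑ j, b j = 1 := by nlinarith
  obtain ⟨p, hp⟩ := eq_dl ha ha3
  obtain ⟨q, hq⟩ := eq_dl hb hb3
  refine ⟨p, q, hp, hq, ?_⟩
  rw [← h, hp, hq]
  unfold dl
  simp

/-- **BLOCK E7** for symplectic modules -/
theorem typeE7S {u : Fin 8 → E} (h : DtS Φ X n s l y v) (F : TyE7 Φ u) : s = 12 ∧ n = 56 := by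
  obtain ⟨f, B0, hpos⟩ := (bs7 F).exists_base h.wd.rs h.wd.reg unit7 _ pos7
  have B : BP Φ C7 p7 f v := { B0 with pos := hpos, inj := inj7 }
  have hΦ2 := F.two
  have hvf := B.v_f h.wd.v_eq sum7
  have hfm : ∀ i, f i ∈ Ps Φ v := B.f_mem unit7
  have hfΦ : ∀ i, f i ∈ Φ := fun i => (mem_Ps.1 (hfm i)).1
  -- the coordinates of `l` and `y`
  have hlc : ∀ i, ∃ z : ℤ, 0 ≤ z ∧ (inner ℝ l (f i) : ℝ) = z := by
    intro i
    obtain ⟨z, hz⟩ := h.wd.sat.int _ (hfΦ i) l h.wd.l_mem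
    rw [co_two hΦ2 (hfΦ i)] at hz
    refine ⟨z, ?_, hz⟩
    have h1 := h.wd.dom _ (hfm i)
    rw [hz] at h1
    exact_mod_cast h1
  have hyc : ∀ i, ∃ z : ℤ, 0 ≤ z ∧ (inner ℝ y (f i) : ℝ) = z := by
    intro i
    obtain ⟨z, hz⟩ := h.inn.lev _ (hfΦ i)
    rw [real_inner_comm] at hz
    refine ⟨z, ?_, hz⟩
    have h1 := h.ydom _ (hfm i)
    rw [hz] at h1
    exact_mod_cast h1
  choose a ha0 ha using hlc
  choose b hb0 hb using hyc
  have hls := B.span_le (TR.sat_span h.wd.sat h.wd.l_mem)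
  have hys := B.span_le h.inn.y_mem
  have hly := B.inner_eq DC7 hls y
  rw [h.ly] at hly
  simp only [ha, hb] at hly
  have hly' : ∑ i, ∑ j, D7 i j * a j * b i = 2 := by exact_mod_cast hly.symm
  obtain ⟨p, q, rfl, rfl, hD⟩ := eq_dl_two (by norm_num) (show ∀ i j, 2 ≤ D7 i j by decide) ha0 hb0 hly'
  have hpq : (q = 0 ∧ p = 5) ∨ (q = 5 ∧ p = 0) :=
    (show ∀ p q : Fin 7, D7 q p = 2 → (q = 0 ∧ p = 5) ∨ (q = 5 ∧ p = 0) by decide) p q hD
  have hlv : ∀ z : Fin 7 → ℤ, (inner ℝ l (vc f z) : ℝ) = z p := by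
    intro z
    rw [inner_vc]
    simp only [ha]
    unfold dl
    simp
  have hvv : ∀ z : Fin 7 → ℤ, (inner ℝ v (vc f z) : ℝ) = 2 * ((∑ i, z i : ℤ) : ℝ) := by
    intro z
    rw [inner_vc]
    simp only [hvf]
    push_cast
    rw [← Finset.sum_mul, mul_comm]
  rcases hpq with ⟨rfl, rfl⟩ | ⟨rfl, rfl⟩
  swap
  · -- the adjoint module is orthogonal
    exfalso
    refine not_par h.par ⟨17, ?_⟩
    rw [B.sum]
    have h1 : ∀ q, co (vc f (p7 q)) l = (p7 q 0 : ℝ) := by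
      intro q
      rw [co_two hΦ2 (mem_Ps.1 (hpos q)).1, hlv]
    rw [Finset.sum_congr rfl fun q _ => h1 q]
    have h2 : ∑ q, p7 q 0 = 34 := by decide +kernel
    have h3 : ((∑ q, p7 q 0 : ℤ) : ℝ) = ((34 : ℤ) : ℝ) := by rw [h2]
    push_cast at h3 ⊢
    rw [h3]
    norm_num
  · -- the dimension
    have hn : n = 56 := by
      have hd := h.wd.dim
      rw [B.prod, B.prod] at hd
      have e1 : ∀ q, (inner ℝ v (vc f (p7 q)) : ℝ) = 2 * ((∑ i, p7 q i : ℤ) : ℝ) := fun q => hvv _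
      have e2 : ∀ q, (inner ℝ ((2 : ℝ) • l + v) (vc f (p7 q)) : ℝ) =
          2 * ((∑ i, p7 q i * (![0, 0, 0, 0, 0, 1, 0] + 1 : Fin 7 → ℤ) i : ℤ) : ℝ) := by
        intro q
        have e3 : ∑ i, p7 q i * (![0, 0, 0, 0, 0, 1, 0] + 1 : Fin 7 → ℤ) i = p7 q 5 + ∑ i, p7 q i := by
          simp only [Fin.sum_univ_seven, Pi.add_apply, Pi.one_apply]
          simp
          ring
        rw [inner_add_left, inner_smul_left, hlv, hvv, e3]
        simp only [conj_trivial]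
        push_cast
        ring
      simp only [e1, e2] at hd
      rw [Finset.prod_mul_distrib, Finset.prod_mul_distrib] at hd
      have h2 : (∏ q : Fin 63, (2 : ℝ)) ≠ 0 := by
        rw [Finset.prod_const]
        positivity
      have h3 : (n : ℝ) * ∏ q, ((∑ i, p7 q i : ℤ) : ℝ) =
          ∏ q, ((∑ i, p7 q i * (![0, 0, 0, 0, 0, 1, 0] + 1 : Fin 7 → ℤ) i : ℤ) : ℝ) := by
        refine mul_left_cancel₀ h2 ?_
        rw [← hd]
        ring
      have h4 : (n : ℤ) * ∏ q, ∑ i, p7 q i = ∏ q, ∑ i, p7 q i * (![0, 0, 0, 0, 0, 1, 0] + 1 : Fin 7 → ℤ) i := by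
        exact_mod_cast h3
      rw [dim7] at h4
      have h5 : ∏ q, ∑ i, p7 q i ≠ 0 := by decide +kernel
      have h6 := mul_right_cancel₀ h5 h4
      exact_mod_cast h6
    have hll : (inner ℝ l l : ℝ) = 3 / 2 := by
      have h1 := B.inner_eq DC7 hls l
      simp only [ha] at h1
      have h2 : ∑ i, ∑ j, D7 i j * (dl 5 : Fin 7 → ℤ) j * (dl 5 : Fin 7 → ℤ) i = 3 := by decide
      have h3 : ((∑ i, ∑ j, D7 i j * (dl 5 : Fin 7 → ℤ) j * (dl 5 : Fin 7 → ℤ) i : ℤ) : ℝ) = ((3 : ℤ) : ℝ) := by rw [h2]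
      push_cast at h1 h3
      rw [h3] at h1
      linarith
    have hyy : (inner ℝ y y : ℝ) = 2 := by
      have h1 := B.inner_eq DC7 hys y
      simp only [hb] at h1
      have h2 : ∑ i, ∑ j, D7 i j * (dl 0 : Fin 7 → ℤ) j * (dl 0 : Fin 7 → ℤ) i = 4 := by decide
      have h3 : ((∑ i, ∑ j, D7 i j * (dl 0 : Fin 7 → ℤ) j * (dl 0 : Fin 7 → ℤ) i : ℤ) : ℝ) = ((4 : ℤ) : ℝ) := by rw [h2]
      push_cast at h1 h3
      rw [h3] at h1
      linarith
    have hcas : cas Φ l = 57 / 2 := by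
      rw [cas_dom h.wd.rs h.wd.reg h.wd.v_eq h.wd.dom, hll]
      conv_lhs => rw [B.v_eq h.wd.v_eq]
      rw [hlv]
      have h2 : (∑ q, p7 q) 5 = 27 := by decide +kernel
      rw [h2]
      norm_num
    have hid := h.inn.idt
    have hcard := F.card
    rw [hcas, hyy, F.finrank, hcard, hn] at hid
    push_cast at hid
    have hs : (s : ℝ) = 12 := by linarith
    exact ⟨by exact_mod_cast hs, hn⟩

end L2
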