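import Pool.Agent.Helper81.L2.AS
import Pool.Agent.Helper98.LT.E8
import Pool.Agent.Helper98.LT.F4
import Pool.Agent.Helper98.LT.G2
import Pool.Agent.Helper94.LT.E6Fin
import Pool.Agent.Helper94.LT.E7Fin

/-!
Project L2 (MP_b8862a_ag): types `E_6`, `E_8`, `F_4`, `G_2`, symplectic modules.
-/

set_option linter.unusedSectionVars false
set_option linter.unusedVariables false

open Module PF TF PW AG LT

namespace L2

variable {E : Type*} [NormedAddCommGroup E] [InnerProductSpace ℝ E] {Φ X : Finset E} {n s m : ℕ} {l y v : E}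

/-- type `E_6`, symplectic modules -/
theorem typeE6S {u : Fin 6 → E} {z : E} (h : DtS Φ X n s l y v) (F : TyE6 Φ u z) : False := by
  classical
  have hrs := h.wd.rs
  have hX := h.wd.sat
  have hl := h.wd.l_mem
  have hlspan := TR.sat_span hX hl
  have hls := F.span_le hlspan
  have hsub : Φ ⊆ X := sub_of_two hrs F.two hX (fun x hx hx0 => F.exists_two hX hx hx0) ⟨l, hl, h.wd.l_ne⟩
  have hy0 : y ≠ 0 := by
    intro hy
    have := h.ly
    rw [hy, inner_zero_right] at this
    norm_num at this
  have hyf := F.y_form h.inn.y_mem hy0 (fun a ha => h.lev a (hsub ha))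
  have hyy : (inner ℝ y y : ℝ) = 4 / 3 := by
    have hp : ∀ i j : Fin 6, i ≠ j → (inner ℝ (u i + u j) (u i + u j) : ℝ) = 4 / 3 := by
      intro i j hij
      rw [inner_add_left, inner_add_right, inner_add_right, F.gram, F.gram, F.gram, F.gram, if_pos rfl, if_pos rfl,
        if_neg hij, if_neg hij.symm]
      norm_num
    have hq : ∀ (i : Fin 6), (inner ℝ (u i + z) (u i + z) : ℝ) = 4 / 3 := by
      intro i
      rw [inner_add_left, inner_add_right, inner_add_right, F.gram, F.uz, F.zu, F.zz, if_pos rfl]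
      norm_num
    have hq' : ∀ (i : Fin 6), (inner ℝ (u i - z) (u i - z) : ℝ) = 4 / 3 := by
      intro i
      rw [inner_sub_left, inner_sub_right, inner_sub_right, F.gram, F.uz, F.zu, F.zz, if_pos rfl]
      norm_num
    rcases hyf with ⟨i, j, hij, hy | hy⟩ | ⟨i, hy | hy | hy | hy⟩
    · rw [hy]; exact hp i j hij
    · rw [hy, inner_neg_neg]; exact hp i j hij
    · rw [hy]; exact hq i
    · rw [hy]; exact hq' i
    · have h1 : -u i + z = -(u i - z) := by abel
      rw [hy, h1, inner_neg_neg]; exact hq' i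
    · have h1 : -u i - z = -(u i + z) := by abel
      rw [hy, h1, inner_neg_neg]; exact hq i
  have hpair : ∃ i j, i ≠ j ∧ Lev3 X (u i + u j) := by
    have hlev := h.lev
    rcases hyf with ⟨i, j, hij, hy | hy⟩ | ⟨i, hy | hy | hy | hy⟩
    · exact ⟨i, j, hij, hy ▸ hlev⟩
    · have h1 := lev3_neg hlev
      rw [hy, neg_neg] at h1
      exact ⟨i, j, hij, h1⟩
    · have h1 := lev3_neg hlev
      have h2 : -y = -u i - z := by rw [hy]; abel
      rw [h2] at h1
      exact F.to_pair' hrs hX h1
    · have h1 := lev3_neg hlev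
      have h2 : -y = -u i + z := by rw [hy]; abel
      rw [h2] at h1
      exact F.to_pair hrs hX h1
    · rw [hy] at hlev
      exact F.to_pair hrs hX hlev
    · rw [hy] at hlev
      exact F.to_pair' hrs hX hlev
  obtain ⟨i0, j0, hij0, hy1⟩ := hpair
  obtain ⟨hall, hallz⟩ := F.orbit hrs hX hij0 hy1
  -- the highest weight is a root
  have hlΦ : l ∈ Φ := by
    obtain ⟨e, f, he, hf, h0', hpar⟩ := F.int_half hX hl
    have hs : ∀ i j, i ≠ j → e i + e j ≤ 2 ∧ -2 ≤ e i + e j := by
      intro i j hij
      have h1 := lev3_bound (hall i j hij) hl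
      rw [inner_add_right, he, he] at h1
      constructor
      · have h2 : (e i : ℝ) + e j ≤ 2 := by linarith [h1.1]
        exact_mod_cast h2
      · have h2 : (-2 : ℝ) ≤ (e i : ℝ) + e j := by linarith [h1.2]
        exact_mod_cast h2
    have hz : ∀ i, e i + f ≤ 2 ∧ -2 ≤ e i + f ∧ e i - f ≤ 2 ∧ -2 ≤ e i - f := by
      intro i
      have h1 := lev3_bound (hallz i).1 hl
      have h2 := lev3_bound (hallz i).2 hl
      rw [inner_add_right, inner_neg_right, he, hf] at h1
      rw [inner_sub_right, inner_neg_right, he, hf] at h2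
      refine ⟨?_, ?_, ?_, ?_⟩
      · have h3 : (e i : ℝ) + f ≤ 2 := by linarith [h2.2]
        exact_mod_cast h3
      · have h3 : (-2 : ℝ) ≤ (e i : ℝ) + f := by linarith [h2.1]
        exact_mod_cast h3
      · have h3 : (e i : ℝ) - f ≤ 2 := by linarith [h1.2]
        exact_mod_cast h3
      · have h3 : (-2 : ℝ) ≤ (e i : ℝ) - f := by linarith [h1.1]
        exact_mod_cast h3
    by_cases hodd : f = 1 ∨ f = -1
    · refine F.of_signs hls (fun i => ?_) ?_
      · obtain ⟨k, hk⟩ := hpar i
        have h1 := hz i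
        rw [he]
        rcases (by omega : e i = 1 ∨ e i = -1) with h2 | h2
        · left; rw [h2]; norm_num
        · right; rw [h2]; norm_num
      · rw [hf]
        rcases hodd with h1 | h1
        · left; rw [h1]; norm_num
        · right; rw [h1]; norm_num
    · have hf3 : f = 0 ∨ f = 2 ∨ f = -2 := by
        have h1 := hz 0
        omega
      rcases hf3 with hf0 | hf2 | hf2
      · have hv : ∀ i, e i = 0 ∨ e i = 2 ∨ e i = -2 := by
          intro i
          obtain ⟨k, hk⟩ := hpar i
          have h1 := hz i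
          omega
        have hnz : ∃ i, e i ≠ 0 := by
          by_contra hcon
          push Not at hcon
          apply h.wd.l_ne
          refine F.eq_of hls (Submodule.zero_mem _) (fun i => ?_) ?_
          · rw [he, hcon, inner_zero_left]
            norm_num
          · rw [hf, hf0, inner_zero_left]
            norm_num
        have hpos : ∃ p, e p = 2 := by
          by_contra hcon
          push Not at hcon
          obtain ⟨i, hi⟩ := hnz
          have h1 : ∑ j, e j < 0 := by
            refine Finset.sum_neg' (fun j _ => ?_) ⟨i, Finset.mem_univ _, ?_⟩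
            · have := hv j; have := hcon j; omega
            · have := hv i; have := hcon i; omega
          omega
        have hneg : ∃ q, e q = -2 := by
          by_contra hcon
          push Not at hcon
          obtain ⟨i, hi⟩ := hnz
          have h1 : 0 < ∑ j, e j := by
            refine Finset.sum_pos' (fun j _ => ?_) ⟨i, Finset.mem_univ _, ?_⟩
            · have := hv j; have := hcon j; omega
            · have := hv i; have := hcon i; omega
          omega
        obtain ⟨p, hp⟩ := hpos
        obtain ⟨q, hq⟩ := hneg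
        have hpq : p ≠ q := by rintro rfl; omega
        have hl' : l = u p - u q := by
          refine F.eq_of hls (Submodule.sub_mem _ (u_mem6 u z p) (u_mem6 u z q)) (fun i => ?_) ?_
          · rw [he, inner_sub_left, F.gram, F.gram]
            by_cases hip : i = p
            · subst hip
              rw [hp, if_pos rfl, if_neg hpq.symm]
              norm_num
            · by_cases hiq : i = q
              · subst hiq
                rw [hq, if_pos rfl, if_neg hpq]
                norm_num
              · have h1 := hs i p hip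
                have h2 := hs i q hiq
                have h3 : e i = 0 := by
                  have := hv i
                  omega
                rw [h3, if_neg (Ne.symm hip), if_neg (Ne.symm hiq)]
                norm_num
          · rw [hf, hf0, inner_sub_left, F.uz, F.uz]
            norm_num
        rw [hl']
        exact F.sub_mem hpq
      · have hl' : l = (2 : ℝ) • z := by
          refine F.eq_of hls (Submodule.smul_mem _ _ (z_mem6 u z)) (fun i => ?_) ?_
          · have h1 := hz i
            have h2 : e i = 0 := by omega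
            rw [he, h2, inner_smul_left, F.zu]
            simp
          · rw [hf, hf2, inner_smul_left, F.zz]
            norm_num
        rw [hl']
        exact F.z_mem
      · have hl' : l = -((2 : ℝ) • z) := by
          refine F.eq_of hls (Submodule.neg_mem _ (Submodule.smul_mem _ _ (z_mem6 u z))) (fun i => ?_) ?_
          · have h1 := hz i
            have h2 : e i = 0 := by omega
            rw [he, h2, inner_neg_left, inner_smul_left, F.zu]
            simp
          · rw [hf, hf2, inner_neg_left, inner_smul_left, F.zz]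
            norm_num
        rw [hl']
        exact F.nz_mem
  exact not_par h.par (par_root hrs h.wd.reg hlΦ)

/-- type `E_8`, symplectic modules -/
theorem typeE8S {u : Fin 9 → E} (h : DtS Φ X n s l y v) (F : TyE8 Φ u) : False := by
  classical
  have hRS := h.wd.rs
  have hsum0 : ∑ i, u i = 0 := by
    have h1 : (inner ℝ (∑ i, u i) (∑ i, u i) : ℝ) = 0 := by
      simp only [sum_inner, inner_sum, F.gram]
      simp [Finset.sum_sub_distrib]
    exact inner_self_eq_zero.1 h1
  have hnorm : ∀ a ∈ Φ, (inner ℝ a a : ℝ) = 2 := by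
    intro a ha
    have hS : ∀ S : Finset (Fin 9), S.card = 3 → (inner ℝ (∑ i ∈ S, u i) (∑ i ∈ S, u i) : ℝ) = 2 := by
      intro S hS
      simp only [sum_inner, inner_sum, F.gram]
      simp only [Finset.sum_sub_distrib, Finset.sum_const, hS, nsmul_eq_mul]
      have h1 : ∑ i ∈ S, ∑ j ∈ S, (if j = i then (1 : ℝ) else 0) = 3 := by
        have h2 : ∀ i ∈ S, ∑ j ∈ S, (if j = i then (1 : ℝ) else 0) = 1 := by
          intro i hi
          rw [Finset.sum_ite_eq']
          simp [hi]
        rw [Finset.sum_congr rfl h2]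
        simp [hS]
      rw [h1]
      norm_num
    rcases (F.mem a).1 ha with ⟨i, j, hij, rfl⟩ | ⟨S, hS3, rfl | rfl⟩
    · rw [inner_sub_left, inner_sub_right, inner_sub_right, F.gram, F.gram, F.gram, F.gram, if_pos rfl, if_pos rfl,
        if_neg hij, if_neg hij.symm]
      norm_num
    · exact hS S hS3
    · rw [inner_neg_neg]
      exact hS S hS3
  have hN : NRS Φ := { hRS with
    two_le := fun a ha => by rw [hnorm a ha]
    ex_two := by
      obtain ⟨a, ha⟩ := hRS.nonempty
      exact ⟨a, ha, hnorm a ha⟩ }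
  have hPsi : ∀ a ∈ Φ, a ∈ Psi Φ := fun a ha => mem_Psi.2 ⟨ha, hnorm a ha⟩
  -- special roots
  have hdiff : ∀ i j, i ≠ j → u i - u j ∈ Φ := fun i j hij => (F.mem _).2 (Or.inl ⟨i, j, hij, rfl⟩)
  have htri : ∀ S : Finset (Fin 9), S.card = 3 → ∑ i ∈ S, u i ∈ Φ := fun S hS => (F.mem _).2 (Or.inr ⟨S, hS, Or.inl rfl⟩)
  -- expansion
  have hexp0 : ∀ x ∈ Submodule.span ℝ (Set.range u), x = ∑ i, (inner ℝ x (u i) : ℝ) • u i := by
    intro x hx
    induction hx using Submodule.span_induction with
    | mem x hx =>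
      obtain ⟨j, rfl⟩ := hx
      simp only [F.gram, sub_smul, Finset.sum_sub_distrib, ite_smul, one_smul, zero_smul, Finset.sum_ite_eq,
        Finset.mem_univ, if_true, ← Finset.smul_sum, hsum0, smul_zero, sub_zero]
    | zero => simp
    | add x z _ _ h1 h2 =>
      simp only [inner_add_left, add_smul, Finset.sum_add_distrib]
      rw [← h1, ← h2]
    | smul c x _ h1 =>
      simp only [inner_smul_left, conj_trivial, mul_smul, ← Finset.smul_sum]
      rw [← h1]
  have hexp : ∀ x ∈ Submodule.span ℝ (Φ : Set E), x = ∑ i, (inner ℝ x (u i) : ℝ) • u i := by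
    intro x hx
    refine hexp0 x (Submodule.span_le.2 ?_ hx)
    intro a ha
    have hu : ∀ i, u i ∈ Submodule.span ℝ (Set.range u) := fun i => Submodule.subset_span ⟨i, rfl⟩
    rcases (F.mem a).1 ha with ⟨i, j, hij, rfl⟩ | ⟨S, hS3, rfl | rfl⟩
    · exact Submodule.sub_mem _ (hu i) (hu j)
    · exact Submodule.sum_mem _ fun i _ => hu i
    · exact Submodule.neg_mem _ (Submodule.sum_mem _ fun i _ => hu i)
  have hspX : ∀ x ∈ X, x ∈ Submodule.span ℝ (Φ : Set E) := by
    intro x hx
    have h1 := h.wd.sat.coset x hx (-x) (h.wd.sat.neg _ hx)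
    have h2 : x - -x ∈ Submodule.span ℝ (Φ : Set E) := by
      refine (AddSubgroup.closure_le (K := (Submodule.span ℝ (Φ : Set E)).toAddSubgroup)).2 ?_ h1
      intro a ha
      exact Submodule.subset_span ha
    have h3 : x = (2 : ℝ)⁻¹ • (x - -x) := by
      rw [sub_neg_eq_add, ← two_smul ℝ x, smul_smul, inv_mul_cancel₀ two_ne_zero, one_smul]
    rw [h3]
    exact Submodule.smul_mem _ _ h2
  -- the weights lie in the root lattice
  have h012 : ({0, 1, 2} : Finset (Fin 9)).card = 3 := by decide
  have hs012 : ∀ f : Fin 9 → E, ∑ i ∈ ({0, 1, 2} : Finset (Fin 9)), f i = f 0 + f 1 + f 2 := by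
    intro f
    rw [Finset.sum_insert (by decide), Finset.sum_insert (by decide), Finset.sum_singleton, add_assoc]
  have hlat : ∀ x ∈ X, x ∈ AddSubgroup.closure (Φ : Set E) := by
    intro x hx
    have hint : ∀ a ∈ Φ, ∃ k : ℤ, (inner ℝ x a : ℝ) = k := by
      intro a ha
      obtain ⟨k, hk⟩ := h.wd.sat.int a ha x hx
      refine ⟨k, ?_⟩
      unfold co at hk
      rw [hnorm a ha] at hk
      linarith
    have hd : ∀ i, ∃ k : ℤ, (inner ℝ x (u i) : ℝ) = inner ℝ x (u 0) + k := by
      intro i
      by_cases hi : i = 0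
      · exact ⟨0, by rw [hi]; simp⟩
      · obtain ⟨k, hk⟩ := hint _ (hdiff i 0 hi)
        refine ⟨k, ?_⟩
        rw [inner_sub_right] at hk
        linarith
    choose k hk using hd
    obtain ⟨t, ht⟩ := hint _ (htri _ h012)
    rw [hs012 u, inner_add_right, inner_add_right, hk 1, hk 2] at ht
    have hx0 : ∑ i, (inner ℝ x (u i) : ℝ) = 0 := by
      rw [← inner_sum, hsum0, inner_zero_right]
    have hk0 : 9 * (inner ℝ x (u 0) : ℝ) + ((∑ i, k i : ℤ) : ℝ) = 0 := by
      rw [← hx0]
      rw [Finset.sum_congr rfl (fun i _ => hk i), Finset.sum_add_distrib, Finset.sum_const, Finset.card_univ,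
        Fintype.card_fin, nsmul_eq_mul]
      push_cast
      ring
    have h3 : 3 * (inner ℝ x (u 0) : ℝ) = ((t - k 1 - k 2 : ℤ) : ℝ) := by
      push_cast
      linarith
    have hksum : ∑ i, k i = -3 * (t - k 1 - k 2) := by
      have h4 : ((∑ i, k i : ℤ) : ℝ) = ((-3 * (t - k 1 - k 2) : ℤ) : ℝ) := by
        rw [Int.cast_mul, ← h3]
        push_cast at hk0 ⊢
        linarith
      exact_mod_cast h4
    have hxe : x = ∑ i, (k i : ℝ) • u i := by
      conv_lhs => rw [hexp x (hspX x hx)]
      rw [Finset.sum_congr rfl (fun i _ => by rw [hk i, add_smul]), Finset.sum_add_distrib, ← Finset.smul_sum, hsum0,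
        smul_zero, zero_add]
    have hxe2 : x = ∑ i, (k i) • (u i - u 0) + (∑ i, k i) • u 0 := by
      rw [hxe]
      simp only [smul_sub, Finset.sum_sub_distrib, ← Finset.sum_smul, sub_add_cancel]
      exact Finset.sum_congr rfl fun i _ => by rw [Int.cast_smul_eq_zsmul]
    have h3u : (3 : ℤ) • u 0 ∈ AddSubgroup.closure (Φ : Set E) := by
      have h5 : (3 : ℤ) • u 0 = (∑ i ∈ ({0, 1, 2} : Finset (Fin 9)), u i) + (u 0 - u 1) + (u 0 - u 2) := by
        rw [hs012]
        module
      rw [h5]
      exact AddSubgroup.add_mem _ (AddSubgroup.add_mem _ (AddSubgroup.subset_closure (htri _ h012))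
        (AddSubgroup.subset_closure (hdiff 0 1 (by decide)))) (AddSubgroup.subset_closure (hdiff 0 2 (by decide)))
    rw [hxe2, hksum]
    refine AddSubgroup.add_mem _ (AddSubgroup.sum_mem _ fun i _ => ?_) ?_
    · refine AddSubgroup.zsmul_mem _ ?_ _
      by_cases hi : i = 0
      · rw [hi, sub_self]
        exact AddSubgroup.zero_mem _
      · exact AddSubgroup.subset_closure (hdiff i 0 hi)
    · have h6 : (-3 * (t - k 1 - k 2)) • u 0 = (-(t - k 1 - k 2)) • ((3 : ℤ) • u 0) := by
        rw [smul_smul]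
        congr 1
        ring
      rw [h6]
      exact AddSubgroup.zsmul_mem _ h3u _
  -- zero is a weight
  have h0X : (0 : E) ∈ X := by
    obtain ⟨x, hx, hmin⟩ := Finset.exists_min_image X (fun x => (inner ℝ x x : ℝ)) h.wd.sat.nonempty
    by_cases hx0 : x = 0
    · rw [← hx0]; exact hx
    exfalso
    obtain ⟨c, hc, hc2⟩ := hN.exists_two_le (hlat x hx) hx0
    have h1 := h.wd.sat.str c (mem_Psi.1 hc).1 x hx 1 (by
      rw [co_Psi hc]
      push_cast
      linarith)
    rw [Nat.cast_one, one_smul] at h1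
    have h2 := hmin _ h1
    rw [inner_sub_left x c, inner_sub_right, inner_sub_right, real_inner_comm x c, (mem_Psi.1 hc).2] at h2
    linarith
  have hsub := h.wd.sat.psi_sub hN h0X ⟨l, h.wd.l_mem, h.wd.l_ne⟩
  have hlev : ∀ a ∈ Φ, (inner ℝ a y : ℝ) = -1 ∨ (inner ℝ a y : ℝ) = 0 ∨ (inner ℝ a y : ℝ) = 1 :=
    fun a ha => h.lev a (hsub (hPsi a ha))
  have hY := levels_E8 (fun i => (inner ℝ (u i) y : ℝ)) (by rw [← sum_inner, hsum0, inner_zero_left]) (by
      intro i j hij
      have := hlev _ (hdiff i j hij)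
      rwa [inner_sub_left] at this) (by
      intro S hS
      have := hlev _ (htri S hS)
      rwa [sum_inner] at this)
  obtain ⟨b, hb, hby⟩ := h.toD3.exists_root
  apply hby
  have h1 := hexp b (Submodule.subset_span hb)
  rw [h1, sum_inner]
  refine Finset.sum_eq_zero fun i _ => ?_
  rw [inner_smul_left, hY i, mul_zero]


/-- type `G_2`: the weights lie in the root lattice -/
theorem typeG2S {u : Fin 3 → E} (h : DtS Φ X n s l y v) (F : TyG2 Φ u) : False := by
  have hX := h.wd.sat
  have hl := h.wd.l_mem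
  have hu : ∀ i j, inner ℝ (u i) (u j) = (if i = j then (1 : ℝ) else 0) - 1 / ((3 : ℕ) : ℝ) := by
    intro i j
    rw [F.gram]
    push_cast
    rfl
  have hsub : ∀ i j, i ≠ j → u i - u j ∈ Φ := fun i j hij => (F.mem _).2 (Or.inl ⟨i, j, hij, rfl⟩)
  have h3m : ∀ i, (3 : ℝ) • u i ∈ Φ := fun i => (F.mem _).2 (Or.inr ⟨i, Or.inl rfl⟩)
  have hs0 := sum_u hu (by norm_num)
  have hspan : l ∈ Submodule.span ℝ (Set.range u) := by
    have h1 : Submodule.span ℝ (Φ : Set E) ≤ Submodule.span ℝ (Set.range u) := by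
      rw [Submodule.span_le]
      intro a ha
      have hm : ∀ i, u i ∈ Submodule.span ℝ (Set.range u) := fun i => Submodule.subset_span ⟨i, rfl⟩
      rcases (F.mem a).1 (Finset.mem_coe.1 ha) with ⟨i, j, -, rfl⟩ | ⟨i, rfl | rfl⟩
      · exact Submodule.sub_mem _ (hm i) (hm j)
      · exact Submodule.smul_mem _ _ (hm i)
      · exact Submodule.neg_mem _ (Submodule.smul_mem _ _ (hm i))
    exact h1 (TR.sat_span hX hl)
  have hint : ∀ i, ∃ k : ℤ, (inner ℝ l (u i) : ℝ) = k := by
    intro i
    obtain ⟨k, hk⟩ := hX.int _ (h3m i) l hl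
    refine ⟨k, ?_⟩
    rw [← hk]
    unfold co
    rw [inner_smul_right, inner_smul_left, inner_smul_right, F.gram, if_pos rfl]
    simp only [conj_trivial]
    ring
  choose z hz using hint
  refine not_par h.par (par_closure h.wd.rs h.wd.reg ?_)
  have h0 : ∑ i, (z i : ℝ) = 0 := by
    have h1 := sum_ax hu (by norm_num) l
    rw [Finset.sum_congr rfl fun i _ => hz i] at h1
    exact h1
  have h1 : l = ∑ i, z i • (u i - u 0) := by
    have h2 : ∑ i, z i • (u i - u 0) = ∑ i, (z i : ℝ) • u i - (∑ i, (z i : ℝ)) • u 0 := by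
      rw [Finset.sum_smul, ← Finset.sum_sub_distrib]
      refine Finset.sum_congr rfl fun i _ => ?_
      rw [← Int.cast_smul_eq_zsmul ℝ, smul_sub]
    rw [h2, h0, zero_smul, sub_zero]
    have h3 := expand_u hu (by norm_num) hspan
    rw [Finset.sum_congr rfl fun i _ => by rw [hz i]] at h3
    exact h3
  rw [h1]
  refine AddSubgroup.sum_mem _ fun i _ => AddSubgroup.zsmul_mem _ ?_ _
  by_cases hi : i = 0
  · rw [hi, sub_self]
    exact AddSubgroup.zero_mem _
  · exact AddSubgroup.subset_closure (Finset.mem_coe.2 (hsub i 0 hi))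

/-- type `F_4`: the weights lie in the root lattice -/
theorem typeF4S {e : Fin 4 → E} (h : DtS Φ X n s l y v) (F : TyF4 Φ e) : False := by
  have hX := h.wd.sat
  have hl := h.wd.l_mem
  have hee : ∀ i j, (inner ℝ (e i) (e j) : ℝ) = if i = j then 1 else 0 := orthonormal_iff_ite.1 F.on
  have hsub : ∀ i j, i ≠ j → e i - e j ∈ Φ := fun i j hij => (F.mem _).2 (Or.inl ⟨i, j, hij, Or.inr (Or.inl rfl)⟩)
  have h2m : ∀ i, (2 : ℝ) • e i ∈ Φ := fun i => (F.mem _).2 (Or.inr (Or.inl ⟨i, Or.inl rfl⟩))
  have hall : ∑ i, (1 : ℝ) • e i ∈ Φ := (F.mem _).2 (Or.inr (Or.inr ⟨fun _ => 1, fun _ => Or.inl rfl, rfl⟩))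
  have hspan : l ∈ Submodule.span ℝ (Set.range e) := by
    have h1 : Submodule.span ℝ (Φ : Set E) ≤ Submodule.span ℝ (Set.range e) := by
      rw [Submodule.span_le]
      intro a ha
      have hm : ∀ i, e i ∈ Submodule.span ℝ (Set.range e) := fun i => Submodule.subset_span ⟨i, rfl⟩
      rcases (F.mem a).1 (Finset.mem_coe.1 ha) with ⟨i, j, -, rfl | rfl | rfl⟩ | ⟨i, rfl | rfl⟩ | ⟨t, -, rfl⟩
      · exact Submodule.add_mem _ (hm i) (hm j)
      · exact Submodule.sub_mem _ (hm i) (hm j)
      · exact Submodule.neg_mem _ (Submodule.add_mem _ (hm i) (hm j))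
      · exact Submodule.smul_mem _ _ (hm i)
      · exact Submodule.neg_mem _ (Submodule.smul_mem _ _ (hm i))
      · exact Submodule.sum_mem _ fun i _ => Submodule.smul_mem _ _ (hm i)
    exact h1 (TR.sat_span hX hl)
  have hexp : l = ∑ i, (inner ℝ l (e i) : ℝ) • e i := by
    clear h hl
    induction hspan using Submodule.span_induction with
    | mem x hx =>
      obtain ⟨k, rfl⟩ := hx
      simp only [hee, ite_smul, one_smul, zero_smul, Finset.sum_ite_eq, Finset.mem_univ, if_true]
    | zero => simp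
    | add x y _ _ hx hy =>
      conv_lhs => rw [hx, hy]
      rw [← Finset.sum_add_distrib]
      refine Finset.sum_congr rfl fun i _ => ?_
      rw [inner_add_left, add_smul]
    | smul r x _ hx =>
      conv_lhs => rw [hx]
      rw [Finset.smul_sum]
      refine Finset.sum_congr rfl fun i _ => ?_
      rw [inner_smul_left, smul_smul, conj_trivial]
  have hint : ∀ i, ∃ k : ℤ, (inner ℝ l (e i) : ℝ) = k := by
    intro i
    obtain ⟨k, hk⟩ := hX.int _ (h2m i) l hl
    refine ⟨k, ?_⟩
    rw [← hk]
    unfold co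
    rw [inner_smul_right, inner_smul_left, inner_smul_right, hee, if_pos rfl]
    simp only [conj_trivial]
    ring
  choose z hz using hint
  obtain ⟨q, hq⟩ : ∃ q : ℤ, ∑ i, z i = 2 * q := by
    obtain ⟨k, hk⟩ := hX.int _ hall l hl
    refine ⟨k, ?_⟩
    have h1 : (inner ℝ (∑ i, (1 : ℝ) • e i) (∑ i, (1 : ℝ) • e i) : ℝ) = 4 := by
      simp only [one_smul, sum_inner, inner_sum, hee]
      simp
    have h2 : (inner ℝ l (∑ i, (1 : ℝ) • e i) : ℝ) = ∑ i, (z i : ℝ) := by
      rw [inner_sum]
      refine Finset.sum_congr rfl fun i _ => ?_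
      rw [one_smul, hz]
    unfold co at hk
    rw [h1, h2] at hk
    have h3 : ((∑ i, z i : ℤ) : ℝ) = ((2 * k : ℤ) : ℝ) := by
      push_cast
      linarith
    exact_mod_cast h3
  refine not_par h.par (par_closure h.wd.rs h.wd.reg ?_)
  have h1 : l = ∑ i, z i • (e i - e 0) + q • ((2 : ℝ) • e 0) := by
    have h2 : ∑ i, z i • (e i - e 0) = ∑ i, (z i : ℝ) • e i - (∑ i, (z i : ℝ)) • e 0 := by
      rw [Finset.sum_smul, ← Finset.sum_sub_distrib]
      refine Finset.sum_congr rfl fun i _ => ?_
      rw [← Int.cast_smul_eq_zsmul ℝ, smul_sub]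
    have h4 : (∑ i, (z i : ℝ)) = 2 * q := by exact_mod_cast hq
    rw [h2, h4, ← Int.cast_smul_eq_zsmul ℝ]
    rw [Finset.sum_congr rfl fun i _ => by rw [hz i]] at hexp
    conv_lhs => rw [hexp]
    module
  rw [h1]
  refine AddSubgroup.add_mem _ (AddSubgroup.sum_mem _ fun i _ => AddSubgroup.zsmul_mem _ ?_ _)
    (AddSubgroup.zsmul_mem _ (AddSubgroup.subset_closure (Finset.mem_coe.2 (h2m 0))) _)
  by_cases hi : i = 0
  · rw [hi, sub_self]
    exact AddSubgroup.zero_mem _
  · exact AddSubgroup.subset_closure (Finset.mem_coe.2 (hsub i 0 hi))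

end L2
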