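import Pool.Agent.Helper81.L2.BCDS
import Pool.Agent.Helper81.L2.ES
import Pool.Agent.Helper81.L2.E7S
import Pool.Agent.Helper21.TF.Long
import Pool.Agent.Helper81.LT.Cls

/-!
Project L2 (MP_b8862a_ag): the list for symplectic modules with three levels.
-/

set_option linter.unusedSectionVars false
set_option linter.unusedVariables false

open Module PF TF PW AG LT

namespace L2

variable {E : Type*} [NormedAddCommGroup E] [InnerProductSpace ℝ E] {Φ X : Finset E} {n s : ℕ} {l y v : E} {c : ℝ}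

/-- a Weyl conjugate of `y` is dominant -/
theorem exists_dtS (h : AG.D3 Φ X n s l y v) (ht : Top Φ X l v) (hp : ParO Φ l v) : ∃ y', DtS Φ X n s l y' v := by
  classical
  obtain ⟨k0, hk0⟩ := int_v h
  obtain ⟨m, ⟨y', hy', hyy, hm⟩, hmax⟩ := Int.exists_greatest_of_bdd
    (P := fun k : ℤ => ∃ y', AG.D3 Φ X n s l y' v ∧ ‖y'‖ = ‖y‖ ∧ (inner ℝ v y' : ℝ) = k)
    ⟨⌈‖v‖ * ‖y‖⌉, fun k ⟨y', _, h2, h3⟩ => by
      have h4 := real_inner_le_norm v y'
      rw [h3, h2] at h4
      exact_mod_cast h4.trans (Int.le_ceil _)⟩ ⟨k0, y, h, rfl, hk0⟩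
  have hdom : ∀ a ∈ Ps Φ v, 0 ≤ (inner ℝ y' a : ℝ) := by
    intro a ha
    by_contra hneg
    push Not at hneg
    obtain ⟨ha1, ha2⟩ := Finset.mem_filter.1 ha
    have h1 := d3_refl hy' ha1
    obtain ⟨k1, hk1⟩ := int_v h1
    have haa : (0 : ℝ) < inner ℝ a a := real_inner_self_pos.2 (h.wd.rs.ne_zero a ha1)
    have h2 := hmax k1 ⟨_, h1, by
      rw [← hyy, ← sq_eq_sq₀ (norm_nonneg _) (norm_nonneg _), ← real_inner_self_eq_norm_sq, ← real_inner_self_eq_norm_sq,
        refl_inner]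
      congr 1
      have h3 : co a (y' - co a y' • a) = -co a y' := by
        unfold co
        rw [inner_sub_left, inner_smul_left]
        simp only [conj_trivial]
        field_simp
        ring
      rw [h3]
      module, hk1⟩
    have h3 : (k1 : ℝ) ≤ m := by exact_mod_cast h2
    rw [← hk1, ← hm, inner_sub_right, inner_smul_right] at h3
    have h4 : co a y' < 0 := by
      unfold co
      exact div_neg_of_neg_of_pos (by linarith) haa
    have h5 : co a y' * (inner ℝ v a : ℝ) < 0 := mul_neg_of_neg_of_pos h4 ha2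
    linarith
  have hly : (inner ℝ l y' : ℝ) = 1 := by
    have h1 := ht y' hdom
    obtain ⟨x, hx, hx0⟩ := exists_lev hy'
    have h2 := h1 x hx
    have h3 := h1 (-x) (h.wd.sat.neg x hx)
    rw [inner_neg_left] at h3
    rcases hy'.lev l h.wd.l_mem with h4 | h4 | h4
    · exfalso
      rcases hy'.lev x hx with h5 | h5 | h5 <;> rw [h5] at h2 h3 <;> linarith
    · exfalso
      rcases hy'.lev x hx with h5 | h5 | h5
      · rw [h5] at h3; linarith
      · exact hx0 h5
      · rw [h5] at h2; linarith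
    · exact h4
  exact ⟨y', { hy' with top := ht, par := hp, ydom := hdom, ly := hly }⟩

/-- rescaling -/
theorem DtS.sc (h : DtS Φ X n s l y v) (hc : 0 < c) : DtS (PF.sc c Φ) (PF.sc c X) n s (c • l) (c⁻¹ • y) (c • v) := by
  classical
  have hcc : (0 : ℝ) < c * c := mul_pos hc hc
  refine { h.toD3.sc hc with top := ?_, par := ?_, ydom := ?_, ly := ?_ }
  · intro z hz x hx
    obtain ⟨x', hx', rfl⟩ := mem_sc.1 hx
    rw [inner_smul_left, inner_smul_left]
    simp only [conj_trivial]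
    refine mul_le_mul_of_nonneg_left (h.top z ?_ x' hx') hc.le
    intro a ha
    have h1 := hz (c • a) (by rw [Ps_sc hc]; exact (smul_mem_sc hc).2 ha)
    rw [inner_smul_right] at h1
    exact nonneg_of_mul_nonneg_right h1 hc
  · obtain ⟨k, hk⟩ := h.par
    refine ⟨k, ?_⟩
    rw [Ps_sc hc, PF.sc, Finset.sum_image (fun x _ y _ h => smul_inj' hc h), ← hk]
    refine Finset.sum_congr rfl fun a _ => ?_
    unfold co
    rw [inner_smul_left, inner_smul_right, inner_smul_left, inner_smul_right]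
    simp only [conj_trivial]
    rw [← mul_assoc c c, ← mul_assoc c c, mul_left_comm, mul_div_mul_left _ _ hcc.ne']
  · intro a ha
    rw [Ps_sc hc] at ha
    obtain ⟨a', ha', rfl⟩ := mem_sc.1 ha
    rw [inner_smul_left, inner_smul_right]
    simp only [conj_trivial]
    exact mul_nonneg (inv_pos.2 hc).le (mul_nonneg hc.le (h.ydom a' ha'))
  · rw [inner_smul_left, inner_smul_right, h.ly]
    simp only [conj_trivial]
    field_simp


/-- **The list.** All data of symplectic modules with the levels `-1`, `0`, `1`. -/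
theorem listS (h : AG.D3 Φ X n s l y v) (ht : LT.Top Φ X l v) (hp : ParO Φ l v) (h5 : 5 ≤ n) :
    TypeD Φ X ∨ ExcS s (n - 2 * s) := by
  obtain ⟨y', hy'⟩ := exists_dtS h ht hp
  obtain ⟨c, hc0, hNRS⟩ := exists_NRS h.inn.rs
  have h' := hy'.sc hc0
  have hall : TypeB (PF.sc c Φ) (PF.sc c X) ∨ TypeD (PF.sc c Φ) (PF.sc c X) ∨ ExcS s (n - 2 * s) := by
    rcases classify hNRS with ⟨m, u, hm, hu⟩ | ⟨m, e, c', d, h1, h2, h0, he⟩ | ⟨u, z, hu⟩ | ⟨u, hu⟩ | ⟨u, hu⟩ |
      ⟨e, he⟩ | ⟨u, hu⟩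
    · exact Or.inr (Or.inr (typeAS h' hu hm))
    · exact typeBCDS h' he h1 h2 h0 h5
    · exact (typeE6S h' hu).elim
    · obtain ⟨rfl, rfl⟩ := typeE7S h' hu
      exact Or.inr (Or.inr (Or.inr (Or.inr (Or.inr (Or.inr ⟨rfl, rfl⟩)))))
    · exact (typeE8S h' hu).elim
    · exact (typeF4S h' he).elim
    · exact (typeG2S h' hu).elim
  rcases hall with h1 | h1 | h1
  · -- the standard module of type `B` is orthogonal
    exfalso
    obtain ⟨N, x, hx, κ, hκ, hX, hΦ⟩ := h1
    refine not_par h'.par (par_root h'.wd.rs h'.wd.reg ((hΦ _).2 (Or.inl ?_)))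
    rcases (hX _).1 h'.wd.l_mem with h2 | h2
    · exact absurd h2 h'.wd.l_ne
    · exact h2
  · exact Or.inl (h1.of_sc hc0)
  · exact Or.inr h1

end L2
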