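import Pool.Agent.Helper81.L2.NumS
import Pool.Agent.Helper14.LT.TypeBCD

/-!
Project L2 (MP_b8862a_ag): the types `B`, `C`, `D`, symplectic modules.
-/

set_option linter.unusedSectionVars false
set_option linter.unusedVariables false

open Module PF TF PW AG LT

namespace L2

section
variable {E : Type*} [NormedAddCommGroup E] [InnerProductSpace ℝ E] {Φ X : Finset E} {n s m d T : ℕ} {l y v : E} {c : ℝ}
  {e : Fin m → E}

/-- the parity for integral coordinates -/
theorem par_int14 (F : Fr Φ m e c d) (S : Srt14 m d e v) (z : Fin m → ℤ) (hz : ∀ i, cx e c l i = z i) (hp : ParO Φ l v) :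
    d = 2 ∧ Odd (∑ i, z i) := by
  obtain ⟨k, hk⟩ := hp
  rw [sum_co14 F S l] at hk
  simp only [hz] at hk
  have hle := F.le
  have hcases : d = 0 ∨ d = 1 ∨ d = 2 := by omega
  rcases hcases with rfl | rfl | rfl
  · exfalso
    rw [if_pos rfl, add_zero] at hk
    have h5 : ((2 * ∑ j : Fin m, ((m : ℤ) - 1 - (j : ℕ)) * z j : ℤ) : ℝ) = ((2 * k + 1 : ℤ) : ℝ) := by
      push_cast
      rw [← hk, Finset.mul_sum]
      refine Finset.sum_congr rfl fun j _ => ?_
      ring
    have h6 : 2 * ∑ j : Fin m, ((m : ℤ) - 1 - (j : ℕ)) * z j = 2 * k + 1 := by exact_mod_cast h5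
    omega
  · exfalso
    rw [if_neg one_ne_zero] at hk
    have h5 : ((2 * (∑ j : Fin m, ((m : ℤ) - 1 - (j : ℕ)) * z j + ∑ j, z j) : ℤ) : ℝ) = ((2 * k + 1 : ℤ) : ℝ) := by
      push_cast
      rw [← hk, mul_add, Finset.mul_sum, Finset.mul_sum]
      congr 1
      · refine Finset.sum_congr rfl fun j _ => ?_
        ring
      · refine Finset.sum_congr rfl fun j _ => ?_
        push_cast
        ring
    have h6 : 2 * (∑ j : Fin m, ((m : ℤ) - 1 - (j : ℕ)) * z j + ∑ j, z j) = 2 * k + 1 := by exact_mod_cast h5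
    omega
  · refine ⟨rfl, ?_⟩
    rw [if_neg two_ne_zero] at hk
    have h5 : ((2 * ∑ j : Fin m, ((m : ℤ) - 1 - (j : ℕ)) * z j + ∑ j, z j : ℤ) : ℝ) = ((2 * k + 1 : ℤ) : ℝ) := by
      push_cast
      rw [← hk, Finset.mul_sum]
      congr 1
      · refine Finset.sum_congr rfl fun j _ => ?_
        ring
      · refine Finset.sum_congr rfl fun j _ => ?_
        push_cast
        ring
    have h6 : 2 * ∑ j : Fin m, ((m : ℤ) - 1 - (j : ℕ)) * z j + ∑ j, z j = 2 * k + 1 := by exact_mod_cast h5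
    exact ⟨k - ∑ j : Fin m, ((m : ℤ) - 1 - (j : ℕ)) * z j, by omega⟩

theorem idtS14 (h : DtS Φ X n s l y v) (F : Fr Φ m e c d) (hm : 2 ≤ m) :
    (n : ℝ) * cas Φ l * inner ℝ y y = 2 * s * ((dm14 d m : ℕ) : ℝ) := by
  have h1 := h.inn.idt
  rw [F.finrank hm, F.card] at h1
  have h2 : ((dm14 d m : ℕ) : ℝ) = m + (2 * m * (m - 1) + (if d = 0 then (0 : ℝ) else 2 * (m : ℝ))) := by
    unfold dm14
    split_ifs
    · rw [Nat.cast_mul, Nat.cast_sub (by omega)]
      push_cast
      ring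
    · push_cast
      ring
  rw [h2]
  push_cast at h1
  linarith

theorem dimS14 (h : DtS Φ X n s l y v) (F : Fr Φ m e c d) (S : Srt14 m d e v) (z : Fin m → ℤ)
    (hz : ∀ i, cx e c l i = z i) : (n : ℤ) * Pd d m 0 = Pd d m z := by
  have hc := F.pos
  obtain ⟨-, -, h1, -⟩ := dim_frR_sorted43 h.wd F S.lt S.nn S.pos (k := fun i => (z i : ℝ)) (by
    intro i
    have := hz i
    unfold cx at this
    rw [div_eq_iff hc.ne'] at this
    rw [this]
    ring)
  have h2 : ((n * Pd d m 0 : ℤ) : ℝ) = ((Pd d m z : ℤ) : ℝ) := by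
    rw [Int.cast_mul, Pd_cast14, Pd_cast14, ← h1]
    congr 2
    funext j
    simp
  exact_mod_cast h2

/-- the standard modules -/
theorem stdS14 (h : DtS Φ X n s l y v) (F : Fr Φ m e c d) (hm : 2 ≤ m) (h2 : d ≠ 1 → 3 ≤ m) (z : Fin m → ℤ)
    (hz : ∀ i, cx e c l i = z i) (h1 : |z ⟨0, by omega⟩| = 1) (hz0 : ∀ j : Fin m, (j : ℕ) ≠ 0 → z j = 0) :
    TypeB Φ X ∨ TypeD Φ X := by
  have hs : ∑ i, z i ^ 2 ≤ 1 := by
    rw [Finset.sum_eq_single ⟨0, by omega⟩]
    · rw [← sq_abs, h1]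
      norm_num
    · intro j _ hj
      rw [hz0 j fun h => hj (Fin.ext h)]
      norm_num
    · intro h
      exact absurd (Finset.mem_univ _) h
  by_cases hd : d = 1
  · subst hd
    exact Or.inl (stdB14 h.inn F hm z hz hs)
  · exact h.inn.standard43 F (h2 hd) z hz hs

/-- both integral -/
theorem caseIS14 (h : DtS Φ X n s l y v) (F : Fr Φ m e c d) (S : Srt14 m d e v) (hm : 2 ≤ m) (h2 : d = 2 → 3 ≤ m)
    (h0 : d = 0 → 4 ≤ m) (z t : Fin m → ℤ) (hz : ∀ i, (inner ℝ l (e i) : ℝ) * (1 / c) = z i)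
    (ht : ∀ i, (inner ℝ y (e i) : ℝ) * c = t i) : TypeB Φ X ∨ TypeD Φ X ∨ ExcS s (n - 2 * s) := by
  have hc := F.pos
  have hle := F.le
  have hlsp := TF.Sat.span27 h.wd.sat h.wd.l_mem
  have hzx : ∀ i, cx e c l i = z i := by
    intro i
    rw [← hz]
    unfold cx
    ring
  obtain ⟨hzd, hzp⟩ := dec_of14 F S h.wd.dom (by positivity : (0 : ℝ) < 1 / c) hz
  obtain ⟨htd, htp⟩ := dec_of14 F S h.ydom hc ht
  have hok : Ok14 z t := by
    by_cases hd : d = 0
    · exact Or.inr (h0 hd)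
    · exact Or.inl ⟨hzp hd, htp hd⟩
  have hsum : ∑ i, z i * t i = 1 := sum_of14 F hm hlsp h.ly hz ht (by
    push_cast
    field_simp)
  obtain ⟨hz0, ht0, hor⟩ := comb_one14 hm hzd htd hok hsum
  have h3 : d ≠ 1 → 3 ≤ m := by
    intro hd
    by_cases hd0 : d = 0
    · have := h0 hd0
      omega
    · exact h2 (by omega)
  have hz1 : |z ⟨0, by omega⟩| = 1 := by rw [hz0, abs_one]
  rcases hor with hj | hj
  · rcases stdS14 h F hm h3 z hzx hz1 hj with h4 | h4
    · exact Or.inl h4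
    · exact Or.inr (Or.inl h4)
  obtain ⟨K, hK1, hKm, hK⟩ := ones14 (by omega) hzd hz1
  by_cases hK2 : K = 1
  · subst hK2
    have hj' : ∀ j : Fin m, (j : ℕ) ≠ 0 → z j = 0 := by
      intro j hj0
      have h4 := hK j
      rw [if_neg (by omega)] at h4
      exact abs_eq_zero.1 h4
    rcases stdS14 h F hm h3 z hzx hz1 hj' with h4 | h4
    · exact Or.inl h4
    · exact Or.inr (Or.inl h4)
  right
  right
  have hK2' : 2 ≤ K := by omega
  have hcas := cas_ones14 F hm hlsp z hzx hKm hK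
  have hyy := norm_of14 F hm h.inn.y_mem ht
  have hsq : ∑ i, t i ^ 2 = 1 := by
    rw [Finset.sum_eq_single ⟨0, by omega⟩]
    · rw [ht0]
      norm_num
    · intro j _ hj'
      rw [hj j fun h => hj' (Fin.ext h)]
      norm_num
    · intro h
      exact absurd (Finset.mem_univ _) h
  rw [hsq, Int.cast_one] at hyy
  have hid := idtS14 h F hm
  rw [hcas] at hid
  have hid2 : (n : ℝ) * (K * (2 * m + d - K)) = 2 * s * ((dm14 d m : ℕ) : ℝ) := by
    rw [← hid]
    linear_combination -(n : ℝ) * (K * (2 * m + d - K)) * hyy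
  have hdim := dimS14 h F S z hzx
  obtain ⟨hd2, hsodd⟩ := par_int14 F S z hzx h.par
  subst hd2
  · -- type `C`
    have hm3 := h2 rfl
    have hx : ∀ j : Fin m, z j = if (j : ℕ) < K then 1 else 0 := by
      intro j
      rw [← hK j, abs_of_nonneg (hzp two_ne_zero j)]
    obtain ⟨i, rfl⟩ : ∃ i, K = i + 2 := ⟨K - 2, by omega⟩
    have hn := dimC hKm z hx hdim
    have hsum1 : ∑ j : Fin m, z j = ((i + 2 : ℕ) : ℤ) := by
      have h5 : ∀ j : Fin m, z j = if (j : ℕ) < i + 2 then 1 else 0 := hx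
      rw [Finset.sum_congr rfl fun j _ => h5 j, Finset.sum_boole]
      congr 1
      rcases Nat.eq_or_lt_of_le hKm with h6 | h6
      · subst h6
        rw [Finset.filter_true_of_mem fun j _ => j.2, Finset.card_univ, Fintype.card_fin]
      · have h7 : (Finset.univ.filter fun j : Fin m => (j : ℕ) < i + 2) = Finset.Iio ⟨i + 2, h6⟩ := by
          ext a
          simp [Fin.lt_def]
        rw [h7, Fin.card_Iio]
    have hodd : Odd i := by
      rw [hsum1] at hsodd
      have h8 : Odd ((i : ℤ)) := by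
        obtain ⟨k, hk⟩ := hsodd
        push_cast at hk
        exact ⟨k - 1, by omega⟩
      exact_mod_cast h8
    refine q_spO hm3 hodd hKm hn ?_
    unfold dm14 at hid2
    rw [if_neg two_ne_zero] at hid2
    have h5 : ((s * (2 * m * (2 * m + 1)) : ℕ) : ℝ) = ((n * ((i + 2) * (2 * m - i)) : ℕ) : ℝ) := by
      rw [Nat.cast_mul, Nat.cast_mul, Nat.cast_mul n, Nat.cast_mul (i + 2), Nat.cast_sub (by omega)]
      push_cast at hid2 ⊢
      linarith
    exact_mod_cast h5

/-- `l` integral, `y` half odd: excluded by the parity -/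
theorem caseIIS14 (h : DtS Φ X n s l y v) (F : Fr Φ m e c d) (S : Srt14 m d e v) (hd : d = 0 ∧ 5 ≤ m ∨ d = 2 ∧ 3 ≤ m)
    (z t : Fin m → ℤ) (hz : ∀ i, (inner ℝ l (e i) : ℝ) * (1 / c) = z i)
    (ht : ∀ i, (inner ℝ y (e i) : ℝ) * (2 * c) = t i) (hodd : ∀ i, Odd (t i)) : ExcS s (n - 2 * s) := by
  exfalso
  have hc := F.pos
  have hm : 2 ≤ m := by omega
  have hlsp := TF.Sat.span27 h.wd.sat h.wd.l_mem
  have hzx : ∀ i, cx e c l i = z i := by
    intro i
    rw [← hz]
    unfold cx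
    ring
  obtain ⟨hzd, hzp⟩ := dec_of14 F S h.wd.dom (by positivity : (0 : ℝ) < 1 / c) hz
  obtain ⟨htd, htp⟩ := dec_of14 F S h.ydom (by positivity : (0 : ℝ) < 2 * c) ht
  have hok : Ok14 z t := by
    by_cases hd0 : d = 0
    · exact Or.inr (by omega)
    · exact Or.inl ⟨hzp hd0, htp hd0⟩
  have hsum : ∑ i, z i * t i = 2 := sum_of14 F hm hlsp h.ly hz ht (by
    push_cast
    field_simp)
  obtain ⟨ht1, hor⟩ := comb_two14 hm hzd htd hok hodd hsum
  obtain ⟨rfl, hso⟩ := par_int14 F S z hzx h.par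
  have h2 : ∀ f : Fin m → ℤ, (∀ i, z i = f i) → ∑ i, f i = 2 → False := by
    intro f hf hf2
    rw [Finset.sum_congr rfl fun i _ => hf i, hf2] at hso
    exact (Int.not_even_iff_odd.2 hso) (by decide)
  rcases hor with hA | hB | ⟨hm4, ⟨i, hi⟩, -⟩
  · refine h2 (fun j => if (j : ℕ) = 0 then 2 else 0) (fun j => hA j) ?_
    rw [Finset.sum_eq_single ⟨0, by omega⟩]
    · simp
    · intro j _ hj
      rw [if_neg fun h => hj (Fin.ext h)]
    · intro h
      exact absurd (Finset.mem_univ _) h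
  · refine h2 (fun j => if (j : ℕ) < 2 then 1 else 0) (fun j => hB j) ?_
    rw [Finset.sum_boole]
    have h6 : (Finset.univ.filter fun j : Fin m => (j : ℕ) < 2) = {⟨0, by omega⟩, ⟨1, by omega⟩} := by
      ext a
      simp only [Finset.mem_filter, Finset.mem_univ, true_and, Finset.mem_insert, Finset.mem_singleton, Fin.ext_iff]
      omega
    rw [h6, Finset.card_pair (by
      intro h
      rw [Fin.mk.injEq] at h
      omega)]
    rfl
  · have hd0 : (2 : ℕ) ≠ 0 := by omega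
    exact absurd (mul_nonneg (hzp hd0 i) (htp hd0 i)) (not_le.2 hi)

/-- `l` half odd, `y` integral -/
theorem caseIIIS14 (h : DtS Φ X n s l y v) (F : Fr Φ m e c d) (S : Srt14 m d e v) (hm : 2 ≤ m) (hd : d = 0 ∧ 4 ≤ m ∨ d = 1)
    (z t : Fin m → ℤ) (hz : ∀ i, (inner ℝ l (e i) : ℝ) * (2 / c) = z i)
    (ht : ∀ i, (inner ℝ y (e i) : ℝ) * c = t i) (hodd : ∀ i, Odd (z i)) : ExcS s (n - 2 * s) := by
  have hc := F.pos
  have hlsp := TF.Sat.span27 h.wd.sat h.wd.l_mem
  have hzx : ∀ i, 2 * cx e c l i = z i := by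
    intro i
    rw [← hz]
    unfold cx
    ring
  obtain ⟨hzd, hzp⟩ := dec_of14 F S h.wd.dom (by positivity : (0 : ℝ) < 2 / c) hz
  obtain ⟨htd, htp⟩ := dec_of14 F S h.ydom hc ht
  have hok : Ok14 t z := by
    by_cases hd0 : d = 0
    · exact Or.inr (by omega)
    · exact Or.inl ⟨htp hd0, hzp hd0⟩
  have hsum : ∑ i, t i * z i = 2 := by
    rw [Finset.sum_congr rfl fun i _ => mul_comm (t i) (z i)]
    exact sum_of14 F hm hlsp h.ly hz ht (by
      push_cast
      field_simp)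
  obtain ⟨hz1, hor⟩ := comb_two14 hm htd hzd hok hodd hsum
  have hyy := norm_of14 F hm h.inn.y_mem ht
  have hcas := cas_half14 F hm hlsp z hzx hz1
  have hid := idtS14 h F hm
  have hcas' : cas Φ l = c ^ 2 * (((dm14 d m : ℕ) : ℝ) / 4) := by
    rw [hcas]
    unfold dm14
    rcases hd with ⟨rfl, hm4⟩ | rfl
    · rw [if_pos rfl, Nat.cast_mul, Nat.cast_sub (by omega)]
      push_cast
      ring
    · rw [if_neg one_ne_zero]
      push_cast
      ring
  have hdm : (0 : ℝ) < ((dm14 d m : ℕ) : ℝ) := by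
    have : 0 < dm14 d m := by
      unfold dm14
      split_ifs
      · exact Nat.mul_pos (by omega) (by omega)
      · positivity
    exact_mod_cast this
  rw [hcas'] at hid
  have hid2 : (n : ℝ) * ((∑ i, t i ^ 2 : ℤ) : ℝ) = 8 * s := by
    rw [← hyy]
    refine mul_left_cancel₀ hdm.ne' ?_
    linear_combination 4 * hid
  have hpos := h.h_pos
  rcases hor with hA | hB | ⟨hm4, -, hC⟩
  · -- the square length four
    exfalso
    have hsq : ∑ i, t i ^ 2 = 4 := by
      rw [Finset.sum_eq_single ⟨0, by omega⟩]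
      · rw [hA, if_pos rfl]
        norm_num
      · intro j _ hj
        rw [hA j, if_neg fun h => hj (Fin.ext h)]
        norm_num
      · intro h
        exact absurd (Finset.mem_univ _) h
    rw [hsq] at hid2
    have h5 : ((n * 4 : ℕ) : ℝ) = ((8 * s : ℕ) : ℝ) := by
      push_cast at hid2 ⊢
      exact hid2
    have h6 : n * 4 = 8 * s := by exact_mod_cast h5
    omega
  · have hsq : ∑ i, t i ^ 2 = 2 := by
      have h5 : ∀ i ∈ (Finset.univ : Finset (Fin m)), t i ^ 2 = if (i : ℕ) < 2 then 1 else 0 := by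
        intro i _
        rw [hB i]
        split_ifs <;> norm_num
      rw [Finset.sum_congr rfl h5, Finset.sum_boole]
      have h6 : (Finset.univ.filter fun j : Fin m => (j : ℕ) < 2) = {⟨0, by omega⟩, ⟨1, by omega⟩} := by
        ext a
        simp only [Finset.mem_filter, Finset.mem_univ, true_and, Finset.mem_insert, Finset.mem_singleton, Fin.ext_iff]
        omega
      rw [h6, Finset.card_pair (by
        intro h
        rw [Fin.mk.injEq] at h
        omega)]
      rfl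
    rw [hsq] at hid2
    have h5 : ((n * 2 : ℕ) : ℝ) = ((8 * s : ℕ) : ℝ) := by
      push_cast at hid2 ⊢
      exact hid2
    have h6 : n * 2 = 8 * s := by exact_mod_cast h5
    left
    omega
  · exfalso
    have hsq : ∑ i, t i ^ 2 = 4 := by
      rw [Finset.sum_congr rfl fun i _ => by rw [← sq_abs, hC i, one_pow], Finset.sum_const, Finset.card_univ,
        Fintype.card_fin, nsmul_eq_mul, mul_one, hm4]
      rfl
    rw [hsq] at hid2
    have h5 : ((n * 4 : ℕ) : ℝ) = ((8 * s : ℕ) : ℝ) := by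
      push_cast at hid2 ⊢
      exact hid2
    have h6 : n * 4 = 8 * s := by exact_mod_cast h5
    omega

theorem prod_ioi6 (f : Fin 6 → Fin 6 → ℝ) : ∏ i, ∏ j ∈ Finset.Ioi i, f i j =
    (f 0 1 * f 0 2 * f 0 3 * f 0 4 * f 0 5) * (f 1 2 * f 1 3 * f 1 4 * f 1 5) * (f 2 3 * f 2 4 * f 2 5) *
      (f 3 4 * f 3 5) * f 4 5 := by
  have i0 : Finset.Ioi (0 : Fin 6) = {1, 2, 3, 4, 5} := by decide
  have i1 : Finset.Ioi (1 : Fin 6) = {2, 3, 4, 5} := by decide
  have i2 : Finset.Ioi (2 : Fin 6) = {3, 4, 5} := by decide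
  have i3 : Finset.Ioi (3 : Fin 6) = {4, 5} := by decide
  have i4 : Finset.Ioi (4 : Fin 6) = {5} := by decide
  have i5 : Finset.Ioi (5 : Fin 6) = ∅ := by decide
  rw [Fin.prod_univ_six, i0, i1, i2, i3, i4, i5]
  simp only [Finset.prod_singleton, Finset.prod_empty]
  rw [Finset.prod_insert (by decide), Finset.prod_insert (by decide), Finset.prod_insert (by decide),
    Finset.prod_pair (by decide), Finset.prod_insert (by decide), Finset.prod_insert (by decide),
    Finset.prod_pair (by decide), Finset.prod_insert (by decide), Finset.prod_pair (by decide),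
    Finset.prod_pair (by decide)]
  ring

/-- both half odd -/
theorem caseIVS14 (h : DtS Φ X n s l y v) (F : Fr Φ m e c 0) (S : Srt14 m 0 e v) (hm : 5 ≤ m)
    (z t : Fin m → ℤ) (hz : ∀ i, (inner ℝ l (e i) : ℝ) * (2 / c) = z i)
    (ht : ∀ i, (inner ℝ y (e i) : ℝ) * (2 * c) = t i) (hoz : ∀ i, Odd (z i)) (hot : ∀ i, Odd (t i)) : ExcS s (n - 2 * s) := by
  have hc := F.pos
  have hlsp := TF.Sat.span27 h.wd.sat h.wd.l_mem
  obtain ⟨hzd, hzp⟩ := dec_of14 F S h.wd.dom (by positivity : (0 : ℝ) < 2 / c) hz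
  obtain ⟨htd, htp⟩ := dec_of14 F S h.ydom (by positivity : (0 : ℝ) < 2 * c) ht
  have hsum : ∑ i, z i * t i = 4 := sum_of14 F (by omega) hlsp h.ly hz ht (by
    push_cast
    field_simp
    norm_num)
  obtain ⟨hm6, hz1⟩ := comb_four14 hm hzd htd hoz hot hsum
  subst hm6
  have hzx : ∀ i, 2 * cx e c l i = z i := by
    intro i
    rw [← hz]
    unfold cx
    ring
  have hyy := norm_of14 F (by norm_num) h.inn.y_mem ht
  have hcas := cas_half14 F (by norm_num) hlsp z hzx hz1
  have hid := idtS14 h F (by norm_num)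
  -- the coordinates of `l`
  have hone : ∀ i : Fin 6, (i : ℕ) + 1 < 6 → z i = 1 := by
    intro i hi
    rw [← hz1 i, abs_of_nonneg (hzd.nonneg i hi)]
  have z0 := hone 0 (by decide)
  have z1 := hone 1 (by decide)
  have z2 := hone 2 (by decide)
  have z3 := hone 3 (by decide)
  have z4 := hone 4 (by decide)
  have z5 : z 5 ^ 2 = 1 := by rw [← sq_abs, hz1, one_pow]
  have z5' : z 5 = 1 ∨ z 5 = -1 := by
    rcases eq_or_ne (z 5) 1 with h1 | h1
    · exact Or.inl h1
    · right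
      have h2 := hz1 5
      rcases abs_eq (by norm_num : (0 : ℤ) ≤ 1) |>.1 h2 with h3 | h3
      · exact absurd h3 h1
      · exact h3
  -- the coordinates of `y`
  have ht1 : ∀ i : Fin 6, (i : ℕ) + 1 < 6 → 1 ≤ t i := by
    intro i hi
    have h1 := htd.nonneg i hi
    obtain ⟨k, hk⟩ := hot i
    omega
  have t0 := ht1 0 (by decide)
  have t1 := ht1 1 (by decide)
  have t2 := ht1 2 (by decide)
  have t3 := ht1 3 (by decide)
  have t4 := ht1 4 (by decide)
  have t5 := htd 4 5 (by decide)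
  have t34 := htd 3 4 (by decide)
  have a5 := abs_le.1 t5
  have a34 := le_abs_self (t 4)
  rw [Fin.sum_univ_six, z0, z1, z2, z3, z4] at hsum
  have hsq : ∑ i, t i ^ 2 = 6 := by
    rw [Fin.sum_univ_six]
    rcases z5' with h5 | h5 <;> rw [h5] at hsum
    · have e0 : t 0 = 1 := by linarith
      have e1 : t 1 = 1 := by linarith
      have e2 : t 2 = 1 := by linarith
      have e3 : t 3 = 1 := by linarith
      have e4 : t 4 = 1 := by linarith
      have e5 : t 5 = -1 := by linarith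
      rw [e0, e1, e2, e3, e4, e5]; norm_num
    · have e0 : t 0 = 1 := by linarith
      have e1 : t 1 = 1 := by linarith
      have e2 : t 2 = 1 := by linarith
      have e3 : t 3 = 1 := by linarith
      have e4 : t 4 = 1 := by linarith
      have e5 : t 5 = 1 := by linarith
      rw [e0, e1, e2, e3, e4, e5]; norm_num
  -- the dimension
  obtain ⟨-, -, hd, -⟩ := dim_frR_sorted43 h.wd F S.lt S.nn S.pos (k := fun i => (z i : ℝ) / 2) (by
    intro i
    have := hzx i
    unfold cx at this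
    have h3 : (inner ℝ l (e i) : ℝ) / c = z i / 2 := by linarith
    rw [div_eq_iff hc.ne'] at h3
    rw [h3]
    ring)
  have hn : n = 32 := by
    have h5 : (z 5 : ℝ) = 1 ∨ (z 5 : ℝ) = -1 := by
      rcases z5' with h5 | h5
      · left; rw [h5]; norm_num
      · right; rw [h5]; norm_num
    unfold PdR at hd
    rw [prod_ioi6, prod_ioi6] at hd
    simp only [z0, z1, z2, z3, z4, Vd, Pi.zero_apply, if_true] at hd
    push_cast at hd
    norm_num [Fin.val_one, Fin.val_two] at hd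
    have h6 : (n : ℝ) = ((32 : ℕ) : ℝ) := by
      push_cast
      rcases h5 with h5 | h5 <;> rw [h5] at hd <;> norm_num at hd <;> linarith
    exact_mod_cast h6
  have hs6 : s = 6 := by
    rw [hsq] at hyy
    rw [hcas, hn] at hid
    have h6 : dm14 0 6 = 66 := by decide
    rw [h6] at hid
    push_cast at hid hyy
    have h7 : (s : ℝ) = ((6 : ℕ) : ℝ) := by
      push_cast
      linarith
    exact_mod_cast h7
  right; right; right; left
  exact ⟨hs6, by omega⟩

/-- the ordered frame -/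
theorem sortedS14 (h : DtS Φ X n s l y v) (F : Fr Φ m e c d) (S : Srt14 m d e v) (hm : 2 ≤ m) (h2 : d = 2 → 3 ≤ m)
    (h0 : d = 0 → 4 ≤ m) (hrot : d = 0 → m = 4 → ∀ i, ∃ k : ℤ, (inner ℝ y (e i) : ℝ) * c = k) :
    TypeB Φ X ∨ TypeD Φ X ∨ ExcS s (n - 2 * s) := by
  have hc := F.pos
  have hle := F.le
  obtain ⟨T', hT, hTp, hT1⟩ := y_int14 h.inn F hm
  obtain ⟨Z, hZ, hZp, hZ2⟩ := l_int14 h.wd.sat h.wd.l_mem F hm
  have hz' : ∀ z : Fin m → ℤ, (∀ i, Z i = 2 * z i) → ∀ i, (inner ℝ l (e i) : ℝ) * (1 / c) = z i := by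
    intro z hz i
    have h3 := hZ i
    rw [hz i] at h3
    push_cast at h3
    have h4 : (inner ℝ l (e i) : ℝ) * (2 / c) = 2 * ((inner ℝ l (e i) : ℝ) * (1 / c)) := by ring
    rw [h4] at h3
    exact mul_left_cancel₀ two_ne_zero h3
  have ht' : ∀ t : Fin m → ℤ, (∀ i, T' i = 2 * t i) → ∀ i, (inner ℝ y (e i) : ℝ) * c = t i := by
    intro t ht i
    have h3 := hT i
    rw [ht i] at h3
    push_cast at h3
    linarith
  have hne : ∀ i : Fin m, d = 0 → m = 4 → ¬ Odd (T' i) := by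
    intro i hd hm4 ho
    obtain ⟨k, hk⟩ := hrot hd hm4 i
    have h3 : ((T' i : ℤ) : ℝ) = ((2 * k : ℤ) : ℝ) := by
      rw [← hT i]
      push_cast
      linarith
    have h4 : T' i = 2 * k := by exact_mod_cast h3
    rw [h4] at ho
    exact (Int.not_odd_iff_even.2 (even_two_mul k)) ho
  rcases even_or_odd14 Z hZp (by omega) with ⟨z, hz⟩ | hZo <;> rcases even_or_odd14 T' hTp (by omega) with ⟨t, ht⟩ | hTo
  · exact caseIS14 h F S hm h2 h0 z t (hz' z hz) (ht' t ht)
  · have hd : d = 0 ∧ 5 ≤ m ∨ d = 2 ∧ 3 ≤ m := by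
      have hcases : d = 0 ∨ d = 1 ∨ d = 2 := by omega
      rcases hcases with hd | hd | hd
      · left
        refine ⟨hd, ?_⟩
        by_contra hcon
        have := h0 hd
        exact hne ⟨0, by omega⟩ hd (by omega) (hTo _)
      · exfalso
        exact (Int.not_even_iff_odd.2 (hTo ⟨0, by omega⟩)) (hT1 hd _)
      · exact Or.inr ⟨hd, h2 hd⟩
    exact Or.inr (Or.inr (caseIIS14 h F S hd z T' (hz' z hz) hT hTo))
  · have hd : d = 0 ∧ 4 ≤ m ∨ d = 1 := by
      have hcases : d = 0 ∨ d = 1 ∨ d = 2 := by omega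
      rcases hcases with hd | hd | hd
      · exact Or.inl ⟨hd, h0 hd⟩
      · exact Or.inr hd
      · exfalso
        exact (Int.not_even_iff_odd.2 (hZo ⟨0, by omega⟩)) (hZ2 hd _)
    exact Or.inr (Or.inr (caseIIIS14 h F S hm hd Z t hZ (ht' t ht) hZo))
  · have hcases : d = 0 ∨ d = 1 ∨ d = 2 := by omega
    rcases hcases with hd | hd | hd
    · have hm5 : 5 ≤ m := by
        by_contra hcon
        have := h0 hd
        exact hne ⟨0, by omega⟩ hd (by omega) (hTo _)
      subst hd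
      exact Or.inr (Or.inr (caseIVS14 h F S hm5 Z T' hZ hT hZo hTo))
    · exact absurd (hT1 hd _) (Int.not_even_iff_odd.2 (hTo ⟨0, by omega⟩))
    · exact absurd (hZ2 hd _) (Int.not_even_iff_odd.2 (hZo ⟨0, by omega⟩))

/-- rank one: the dimension is at most three -/
theorem rank_oneS14 {e : Fin 1 → E} (h : DtS Φ X n s l y v) (F : Fr Φ 1 e c 1) : n ≤ 3 := by
  obtain ⟨e', F', S', -⟩ := sorted_frame14 h.wd F
  have hc := F'.pos
  set k : ℝ := cx e' c l 0 with hk
  have hle : (inner ℝ l (e' 0) : ℝ) = c * k := by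
    rw [hk]
    unfold cx
    field_simp
  obtain ⟨-, hpos, h1, -⟩ := dim_frR_sorted43 h.wd F' S'.lt S'.nn S'.pos (k := fun _ => k) (by
    intro i
    rw [Subsingleton.elim i 0]
    exact hle)
  have hP : ∀ x : Fin 1 → ℝ, PdR 1 1 x = 2 * x 0 + 1 := by
    intro x
    unfold PdR Vd
    simp
  rw [hP, hP] at h1
  simp only [Pi.zero_apply, mul_zero, zero_add, mul_one] at h1
  -- the level
  obtain ⟨t, ht⟩ := h.inn.lev _ ((F'.mem _).2 (Or.inr ⟨one_ne_zero, 0, Or.inl rfl⟩))
  rw [Nat.cast_one, one_mul, inner_smul_left] at ht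
  simp only [conj_trivial] at ht
  have hlsp := TF.Sat.span27 h.wd.sat h.wd.l_mem
  have hsub : Submodule.span ℝ (Φ : Set E) ≤ Submodule.span ℝ {e' 0} := by
    rw [Submodule.span_le]
    intro a ha
    rcases (F'.mem a).1 ha with ⟨i, j, hij, -⟩ | ⟨_, i, h3⟩
    · exact absurd (Subsingleton.elim i j) hij
    · rw [Subsingleton.elim i 0] at h3
      have h4 : e' 0 ∈ Submodule.span ℝ {e' 0} := Submodule.mem_span_singleton_self _
      rcases h3 with rfl | rfl
      · exact Submodule.smul_mem _ _ h4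
      · exact Submodule.neg_mem _ (Submodule.smul_mem _ _ h4)
  obtain ⟨r, hr⟩ := Submodule.mem_span_singleton.1 (hsub hlsp)
  have hr2 : r = c * k := by
    rw [← hle, ← hr, inner_smul_left, F'.inner_e, if_pos rfl]
    simp
  have hly := h.ly
  rw [← hr, inner_smul_left] at hly
  simp only [conj_trivial] at hly
  have hkt : k * t = 1 := by
    rw [← ht, ← hly, hr2]
    ring
  have hk0 : 0 ≤ k := hpos one_ne_zero 0
  have ht0 : 0 < (t : ℝ) := by
    by_contra hcon
    push Not at hcon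
    have := mul_nonneg_of_nonpos_of_nonpos (neg_nonpos.2 hk0) hcon
    linarith
  have ht1 : (1 : ℝ) ≤ t := by
    have h3 : 0 < t := by exact_mod_cast ht0
    exact_mod_cast h3
  have hk1 : k ≤ 1 := by nlinarith
  have h3 : (n : ℝ) ≤ ((3 : ℕ) : ℝ) := by
    rw [h1]
    push_cast
    linarith
  exact_mod_cast h3

/-- **BLOCK BCD** -/
theorem typeBCDS {e : Fin m → E} (h : DtS Φ X n s l y v) (F : Fr Φ m e c d) (h1 : 1 ≤ m) (h2 : d = 2 → 3 ≤ m)
    (h0 : d = 0 → 4 ≤ m) (h5 : 5 ≤ n) : TypeB Φ X ∨ TypeD Φ X ∨ ExcS s (n - 2 * s) := by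
  have hle := F.le
  by_cases hm1 : m = 1
  · exfalso
    have hd : d = 1 := by
      have hcases : d = 0 ∨ d = 1 ∨ d = 2 := by omega
      rcases hcases with hd | hd | hd
      · have := h0 hd
        omega
      · exact hd
      · have := h2 hd
        omega
    subst hm1
    subst hd
    have := rank_oneS14 h F
    omega
  have hm : 2 ≤ m := by omega
  -- for `D_4` the coordinates of `y` are integral
  obtain ⟨e1, F1, h3⟩ : ∃ e1 : Fin m → E, Fr Φ m e1 c d ∧
      (d = 0 → m = 4 → ∀ i, ∃ k : ℤ, (inner ℝ y (e1 i) : ℝ) * c = k) := by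
    by_cases hd : d = 0 ∧ m = 4
    · obtain ⟨rfl, rfl⟩ := hd
      obtain ⟨e1, F1, h3⟩ := rot_exists14 h.inn F
      exact ⟨e1, F1, fun _ _ => h3⟩
    · exact ⟨e, F, fun h6 h7 => absurd ⟨h6, h7⟩ hd⟩
  obtain ⟨e2, F2, S2, σ, t, ht, he⟩ := sorted_frame14 h.wd F1
  refine sortedS14 h F2 S2 hm h2 h0 ?_
  intro hd hm4 i
  obtain ⟨k, hk⟩ := h3 hd hm4 (σ i)
  rw [he i, inner_smul_right]
  rcases ht i with h6 | h6
  · exact ⟨k, by rw [h6, one_mul, hk]⟩
  · exact ⟨-k, by rw [h6, mul_assoc, hk]; push_cast; ring⟩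

end

end L2
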