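import Pool.Agent.Helper98.LT.Frame
import Pool.Agent.Helper94.LT.Gen

/-!
Project L2 (MP_b8862a_ag): simply laced systems by a base.
-/

set_option linter.unusedSectionVars false
set_option linter.unusedVariables false

open Module PF TF PW AG LT

namespace L2

variable {E : Type*} [NormedAddCommGroup E] [InnerProductSpace ℝ E] {Φ X : Finset E} {n s : ℕ} {l y v : E} {k N : ℕ}
  {C D : Fin k → Fin k → ℤ} {p : Fin N → Fin k → ℤ} {f : Fin k → E}

/-- `f` is a base with the Gram matrix `C`, the positive roots have the coordinates `p`. -/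
structure Bs (Φ : Finset E) (C : Fin k → Fin k → ℤ) (p : Fin N → Fin k → ℤ) (f : Fin k → E) : Prop where
  gram : ∀ i j, inner ℝ (f i) (f j) = (C i j : ℝ)
  mem : ∀ a, a ∈ Φ ↔ ∃ q, a = vc f (p q) ∨ a = -vc f (p q)

theorem Bs.rf (h : RS Φ) (B : Bs Φ C p f) {b : E} (hb : b ∈ Φ) : Bs Φ C p fun i => LT.rf b (f i) where
  gram := by
    intro i j
    rw [inner_rf h hb]
    exact B.gram i j
  mem := by
    intro a
    have hb0 := h.ne_zero b hb
    have e1 : ∀ x : E, LT.rf b a = x ↔ a = LT.rf b x := fun x => rf_eq_iff hb0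
    have e2 : ∀ z : Fin k → ℤ, LT.rf b (vc f z) = vc (fun i => LT.rf b (f i)) z := by
      intro z
      unfold vc
      rw [map_sum]
      refine Finset.sum_congr rfl fun i _ => ?_
      rw [LinearMap.map_smul]
    rw [← rf_mem h hb, B.mem]
    simp only [e1, map_neg, e2]

/-- the heights give a regular vector -/
theorem Bs.exists_base (h : RS Φ) (hreg : ∀ a ∈ Φ, (inner ℝ v a : ℝ) ≠ 0) {f₀ : Fin k → E} (B : Bs Φ C p f₀)
    (hunit : ∀ i, ∃ q, p q = dl i) (c : Fin k → ℤ) (hc : ∀ q, 0 < ∑ i, ∑ j, c i * C i j * p q j) :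
    ∃ f, Bs Φ C p f ∧ ∀ q, vc f (p q) ∈ Ps Φ v := by
  obtain ⟨f, hf, hpos⟩ := exists_std h hreg (Bs Φ C p) (fun f hf b hb => hf.rf h hb) 1 one_ne_zero
    (fun f hf i => by
      obtain ⟨q, hq⟩ := hunit i
      rw [one_smul]
      exact (hf.mem _).2 ⟨q, Or.inl (by rw [hq, vc_dl])⟩) (fun i => (c i : ℝ)) B
  refine ⟨f, hf, fun q => ?_⟩
  have h1 : vc f (p q) ∈ Φ := (hf.mem _).2 ⟨q, Or.inl rfl⟩
  refine mem_Ps.2 ⟨h1, hpos _ h1 ?_⟩
  have h2 : (inner ℝ (∑ i, (c i : ℝ) • f i) (vc f (p q)) : ℝ) = ((∑ i, ∑ j, c i * C i j * p q j : ℤ) : ℝ) := by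
    rw [sum_inner]
    push_cast
    refine Finset.sum_congr rfl fun i _ => ?_
    rw [inner_smul_left, inner_vc, Finset.mul_sum]
    simp only [conj_trivial]
    refine Finset.sum_congr rfl fun j _ => ?_
    rw [hf.gram]
    ring
  rw [h2]
  exact_mod_cast hc q

/-- the base of the positive roots -/
structure BP (Φ : Finset E) (C : Fin k → Fin k → ℤ) (p : Fin N → Fin k → ℤ) (f : Fin k → E) (v : E) : Prop
    extends Bs Φ C p f where
  pos : ∀ q, vc f (p q) ∈ Ps Φ v
  inj : Function.Injective fun q => fun i => ∑ j, C i j * p q j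

theorem BP.inner_vc' (B : BP Φ C p f v) (i : Fin k) (z : Fin k → ℤ) :
    (inner ℝ (f i) (vc f z) : ℝ) = ((∑ j, C i j * z j : ℤ) : ℝ) := by
  rw [inner_vc]
  push_cast
  refine Finset.sum_congr rfl fun j _ => ?_
  rw [B.gram]
  ring

theorem BP.vinj (B : BP Φ C p f v) : Function.Injective fun q => vc f (p q) := by
  intro q q' hqq
  apply B.inj
  funext i
  have h1 := B.inner_vc' i (p q)
  have h2 := B.inner_vc' i (p q')
  have h3 : vc f (p q) = vc f (p q') := hqq
  rw [h3, h2] at h1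
  exact_mod_cast h1.symm

theorem BP.Ps_eq [DecidableEq E] (B : BP Φ C p f v) : Ps Φ v = Finset.univ.image fun q => vc f (p q) := by
  ext a
  rw [Finset.mem_image]
  constructor
  · intro ha
    obtain ⟨ha1, ha2⟩ := mem_Ps.1 ha
    obtain ⟨q, rfl | rfl⟩ := (B.mem a).1 ha1
    · exact ⟨q, Finset.mem_univ _, rfl⟩
    · exfalso
      have := (mem_Ps.1 (B.pos q)).2
      rw [inner_neg_right] at ha2
      linarith
  · rintro ⟨q, _, rfl⟩
    exact B.pos q

theorem BP.sum (B : BP Φ C p f v) (G : E → ℝ) : ∑ a ∈ Ps Φ v, G a = ∑ q, G (vc f (p q)) := by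
  classical
  rw [B.Ps_eq, Finset.sum_image (fun x _ y _ hxy => B.vinj hxy)]

theorem BP.prod (B : BP Φ C p f v) (G : E → ℝ) : ∏ a ∈ Ps Φ v, G a = ∏ q, G (vc f (p q)) := by
  classical
  rw [B.Ps_eq, Finset.prod_image (fun x _ y _ hxy => B.vinj hxy)]

theorem BP.v_eq (B : BP Φ C p f v) (hv : v = ∑ a ∈ Ps Φ v, a) : v = vc f (∑ q, p q) := by
  classical
  rw [hv, B.Ps_eq, Finset.sum_image (fun x _ y _ hxy => B.vinj hxy), vc_sum]

/-- the pairings of `v` -/
theorem BP.v_f (B : BP Φ C p f v) (hv : v = ∑ a ∈ Ps Φ v, a) (h2 : ∀ i, ∑ j, C i j * (∑ q, p q) j = 2) (i : Fin k) :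
    (inner ℝ v (f i) : ℝ) = 2 := by
  rw [real_inner_comm]
  conv_lhs => rw [B.v_eq hv]
  rw [B.inner_vc', h2 i]
  norm_num

theorem BP.f_mem (B : BP Φ C p f v) (hunit : ∀ i, ∃ q, p q = dl i) (i : Fin k) : f i ∈ Ps Φ v := by
  obtain ⟨q, hq⟩ := hunit i
  have := B.pos q
  rwa [hq, vc_dl] at this

/-- the number of the roots -/
theorem BP.card (B : BP Φ C p f v) (h : RS Φ) (hreg : ∀ a ∈ Φ, (inner ℝ v a : ℝ) ≠ 0) : (Φ.card : ℝ) = 2 * N := by
  rw [card_Ps h hreg]
  have h1 : ((Ps Φ v).card : ℝ) = ∑ a ∈ Ps Φ v, (1 : ℝ) := by simp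
  rw [h1, B.sum]
  simp

theorem BP.span_le (B : BP Φ C p f v) : Submodule.span ℝ (Φ : Set E) ≤ Submodule.span ℝ (Set.range f) := by
  rw [Submodule.span_le]
  intro a ha
  have hm : ∀ z : Fin k → ℤ, vc f z ∈ Submodule.span ℝ (Set.range f) := fun z =>
    Submodule.sum_mem _ fun i _ => Submodule.smul_mem _ _ (Submodule.subset_span ⟨i, rfl⟩)
  rcases (B.mem a).1 (Finset.mem_coe.1 ha) with ⟨q, rfl | rfl⟩
  · exact hm _
  · exact Submodule.neg_mem _ (hm _)

/-- expansion in the base -/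
theorem BP.expand (B : BP Φ C p f v) {κ : ℤ} (hD : ∀ i r, ∑ j, D i j * C r j = if i = r then κ else 0) {w : E}
    (hw : w ∈ Submodule.span ℝ (Set.range f)) : (κ : ℝ) • w = ∑ i, (∑ j, (D i j : ℝ) * inner ℝ w (f j)) • f i := by
  induction hw using Submodule.span_induction with
  | mem w hw =>
    obtain ⟨r, rfl⟩ := hw
    have h1 : ∀ i, ∑ j, (D i j : ℝ) * inner ℝ (f r) (f j) = if i = r then (κ : ℝ) else 0 := by
      intro i
      have h2 : ∑ j, (D i j : ℝ) * inner ℝ (f r) (f j) = ((∑ j, D i j * C r j : ℤ) : ℝ) := by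
        push_cast
        refine Finset.sum_congr rfl fun j _ => ?_
        rw [B.gram]
      rw [h2, hD]
      split_ifs <;> simp
    simp only [h1, ite_smul, zero_smul, Finset.sum_ite_eq', Finset.mem_univ, if_true]
  | zero => simp
  | add x y _ _ hx hy =>
    rw [smul_add, hx, hy, ← Finset.sum_add_distrib]
    refine Finset.sum_congr rfl fun i _ => ?_
    rw [← add_smul, ← Finset.sum_add_distrib]
    congr 1
    refine Finset.sum_congr rfl fun j _ => ?_
    rw [inner_add_left]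
    ring
  | smul r x _ hx =>
    rw [smul_comm, hx, Finset.smul_sum]
    refine Finset.sum_congr rfl fun i _ => ?_
    rw [smul_smul, Finset.mul_sum]
    congr 1
    refine Finset.sum_congr rfl fun j _ => ?_
    rw [inner_smul_left]
    simp only [conj_trivial]
    ring

theorem BP.inner_eq (B : BP Φ C p f v) {κ : ℤ} (hD : ∀ i r, ∑ j, D i j * C r j = if i = r then κ else 0) {w : E}
    (hw : w ∈ Submodule.span ℝ (Set.range f)) (x : E) :
    (κ : ℝ) * inner ℝ w x = ∑ i, ∑ j, (D i j : ℝ) * inner ℝ w (f j) * inner ℝ x (f i) := by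
  have h1 : (κ : ℝ) * inner ℝ w x = inner ℝ ((κ : ℝ) • w) x := by
    rw [inner_smul_left]
    simp
  rw [h1, B.expand hD hw, sum_inner]
  refine Finset.sum_congr rfl fun i _ => ?_
  rw [inner_smul_left, conj_trivial, Finset.sum_mul, real_inner_comm]

/-- the rank -/
theorem BP.finrank (B : BP Φ C p f v) {κ : ℤ} (hD : ∀ i r, ∑ j, D i j * C r j = if i = r then κ else 0) (hκ : κ ≠ 0)
    (hunit : ∀ i, ∃ q, p q = dl i) : finrank ℝ (Submodule.span ℝ (Φ : Set E)) = k := by
  have h1 : Submodule.span ℝ (Φ : Set E) = Submodule.span ℝ (Set.range f) := by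
    refine le_antisymm B.span_le ?_
    rw [Submodule.span_le]
    rintro _ ⟨i, rfl⟩
    exact Submodule.subset_span (Finset.mem_coe.2 (mem_Ps.1 (B.f_mem hunit i)).1)
  have h2 : LinearIndependent ℝ f := by
    rw [Fintype.linearIndependent_iff]
    intro g hg i
    have h3 : ∀ r, ∑ j, g j * (C r j : ℝ) = 0 := by
      intro r
      have h4 : (inner ℝ (f r) (∑ j, g j • f j) : ℝ) = 0 := by rw [hg, inner_zero_right]
      rw [inner_sum] at h4
      rw [← h4]
      refine Finset.sum_congr rfl fun j _ => ?_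
      rw [inner_smul_right, B.gram]
    -- the columns
    have h5 : ∑ r, (D i r : ℝ) * ∑ j, g j * (C r j : ℝ) = 0 := Finset.sum_eq_zero fun r _ => by rw [h3, mul_zero]
    have hsym : ∀ r j, (C r j : ℝ) = C j r := fun r j => by rw [← B.gram, ← B.gram, real_inner_comm]
    have h6 : ∑ r, (D i r : ℝ) * ∑ j, g j * (C r j : ℝ) = ∑ j, g j * (if i = j then (κ : ℝ) else 0) := by
      have h7 : ∀ j, (if i = j then (κ : ℝ) else 0) = ∑ r, (D i r : ℝ) * (C j r : ℝ) := by
        intro j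
        have := hD i j
        have h8 : ((∑ r, D i r * C j r : ℤ) : ℝ) = ((if i = j then κ else 0 : ℤ) : ℝ) := by rw [this]
        push_cast at h8
        exact h8.symm
      simp only [h7, Finset.mul_sum]
      rw [Finset.sum_comm]
      refine Finset.sum_congr rfl fun j _ => Finset.sum_congr rfl fun r _ => ?_
      rw [hsym r j]
      ring
    rw [h6] at h5
    simp only [mul_ite, mul_zero, Finset.sum_ite_eq, Finset.mem_univ, if_true] at h5
    have h8 : (κ : ℝ) ≠ 0 := by exact_mod_cast hκ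
    exact (mul_eq_zero.1 h5).resolve_right h8
  rw [h1, finrank_span_eq_card h2, Fintype.card_fin]

end L2
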