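import Pool.Agent.Helper81.L2.Base
import Pool.Agent.Helper94.LT.E7Fin
import Pool.Agent.Helper94.LT.E6Fin

/-!
Project L2 (MP_b8862a_ag): bases of `E_7` and `E_6`.
-/

set_option linter.unusedSectionVars false
set_option linter.unusedVariables false

open Module PF TF PW AG LT

namespace L2

/-- Gram matrix -/
def C7 : Fin 7 → Fin 7 → ℤ :=
  ![![2, -1, 0, 0, 0, 0, 0], ![-1, 2, -1, 0, 0, 0, 0], ![0, -1, 2, -1, 0, 0, -1], ![0, 0, -1, 2, -1, 0, 0],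
    ![0, 0, 0, -1, 2, -1, 0], ![0, 0, 0, 0, -1, 2, 0], ![0, 0, -1, 0, 0, 0, 2]]

/-- a multiple of the inverse -/
def D7 : Fin 7 → Fin 7 → ℤ :=
  ![![4, 6, 8, 6, 4, 2, 4], ![6, 12, 16, 12, 8, 4, 8], ![8, 16, 24, 18, 12, 6, 12], ![6, 12, 18, 15, 10, 5, 9],
    ![4, 8, 12, 10, 8, 4, 6], ![2, 4, 6, 5, 4, 3, 3], ![4, 8, 12, 9, 6, 3, 7]]

/-- the positive roots -/
def p7 : Fin 63 → Fin 7 → ℤ :=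
  ![![0, 0, 0, 0, 0, 0, 1], ![0, 0, 0, 0, 0, 1, 0], ![0, 0, 0, 0, 1, 0, 0], ![0, 0, 0, 1, 0, 0, 0], ![0, 0, 1, 0, 0, 0, 0],
    ![0, 1, 0, 0, 0, 0, 0], ![1, 0, 0, 0, 0, 0, 0], ![0, 0, 0, 0, 1, 1, 0], ![0, 0, 0, 1, 1, 0, 0], ![0, 0, 1, 0, 0, 0, 1],
    ![0, 0, 1, 1, 0, 0, 0], ![0, 1, 1, 0, 0, 0, 0], ![1, 1, 0, 0, 0, 0, 0], ![0, 0, 0, 1, 1, 1, 0], ![0, 0, 1, 1, 0, 0, 1],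
    ![0, 0, 1, 1, 1, 0, 0], ![0, 1, 1, 0, 0, 0, 1], ![0, 1, 1, 1, 0, 0, 0], ![1, 1, 1, 0, 0, 0, 0], ![0, 0, 1, 1, 1, 0, 1],
    ![0, 0, 1, 1, 1, 1, 0], ![0, 1, 1, 1, 0, 0, 1], ![0, 1, 1, 1, 1, 0, 0], ![1, 1, 1, 0, 0, 0, 1], ![1, 1, 1, 1, 0, 0, 0],
    ![0, 0, 1, 1, 1, 1, 1], ![0, 1, 1, 1, 1, 0, 1], ![0, 1, 1, 1, 1, 1, 0], ![0, 1, 2, 1, 0, 0, 1], ![1, 1, 1, 1, 0, 0, 1],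
    ![1, 1, 1, 1, 1, 0, 0], ![0, 1, 1, 1, 1, 1, 1], ![0, 1, 2, 1, 1, 0, 1], ![1, 1, 1, 1, 1, 0, 1], ![1, 1, 1, 1, 1, 1, 0],
    ![1, 1, 2, 1, 0, 0, 1], ![0, 1, 2, 1, 1, 1, 1], ![0, 1, 2, 2, 1, 0, 1], ![1, 1, 1, 1, 1, 1, 1], ![1, 1, 2, 1, 1, 0, 1],
    ![1, 2, 2, 1, 0, 0, 1], ![0, 1, 2, 2, 1, 1, 1], ![1, 1, 2, 1, 1, 1, 1], ![1, 1, 2, 2, 1, 0, 1], ![1, 2, 2, 1, 1, 0, 1],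
    ![0, 1, 2, 2, 2, 1, 1], ![1, 1, 2, 2, 1, 1, 1], ![1, 2, 2, 1, 1, 1, 1], ![1, 2, 2, 2, 1, 0, 1], ![1, 1, 2, 2, 2, 1, 1],
    ![1, 2, 2, 2, 1, 1, 1], ![1, 2, 3, 2, 1, 0, 1], ![1, 2, 2, 2, 2, 1, 1], ![1, 2, 3, 2, 1, 0, 2], ![1, 2, 3, 2, 1, 1, 1],
    ![1, 2, 3, 2, 1, 1, 2], ![1, 2, 3, 2, 2, 1, 1], ![1, 2, 3, 2, 2, 1, 2], ![1, 2, 3, 3, 2, 1, 1], ![1, 2, 3, 3, 2, 1, 2],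
    ![1, 2, 4, 3, 2, 1, 2], ![1, 3, 4, 3, 2, 1, 2], ![2, 3, 4, 3, 2, 1, 2]]

/-- the base in the coordinates of the frame -/
def M7 : Fin 7 → Fin 8 → ℤ :=
  ![![1, -1, 0, 0, 0, 0, 0, 0], ![0, 1, -1, 0, 0, 0, 0, 0], ![0, 0, 1, -1, 0, 0, 0, 0], ![0, 0, 0, 1, -1, 0, 0, 0],
    ![0, 0, 0, 0, 1, -1, 0, 0], ![0, 0, 0, 0, 0, 1, -1, 0], ![0, 0, 0, 1, 1, 1, 1, 0]]

/-- the positive roots in the coordinates of the frame -/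
def P7 : Fin 63 → Fin 8 → ℤ :=
  ![![0, 0, 0, 1, 1, 1, 1, 0], ![0, 0, 0, 0, 0, 1, -1, 0], ![0, 0, 0, 0, 1, -1, 0, 0], ![0, 0, 0, 1, -1, 0, 0, 0],
    ![0, 0, 1, -1, 0, 0, 0, 0], ![0, 1, -1, 0, 0, 0, 0, 0], ![1, -1, 0, 0, 0, 0, 0, 0], ![0, 0, 0, 0, 1, 0, -1, 0],
    ![0, 0, 0, 1, 0, -1, 0, 0], ![0, 0, 1, 0, 1, 1, 1, 0], ![0, 0, 1, 0, -1, 0, 0, 0], ![0, 1, 0, -1, 0, 0, 0, 0],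
    ![1, 0, -1, 0, 0, 0, 0, 0], ![0, 0, 0, 1, 0, 0, -1, 0], ![0, 0, 1, 1, 0, 1, 1, 0], ![0, 0, 1, 0, 0, -1, 0, 0],
    ![0, 1, 0, 0, 1, 1, 1, 0], ![0, 1, 0, 0, -1, 0, 0, 0], ![1, 0, 0, -1, 0, 0, 0, 0], ![0, 0, 1, 1, 1, 0, 1, 0],
    ![0, 0, 1, 0, 0, 0, -1, 0], ![0, 1, 0, 1, 0, 1, 1, 0], ![0, 1, 0, 0, 0, -1, 0, 0], ![1, 0, 0, 0, 1, 1, 1, 0],
    ![1, 0, 0, 0, -1, 0, 0, 0], ![0, 0, 1, 1, 1, 1, 0, 0], ![0, 1, 0, 1, 1, 0, 1, 0], ![0, 1, 0, 0, 0, 0, -1, 0],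
    ![0, 1, 1, 0, 0, 1, 1, 0], ![1, 0, 0, 1, 0, 1, 1, 0], ![1, 0, 0, 0, 0, -1, 0, 0], ![0, 1, 0, 1, 1, 1, 0, 0],
    ![0, 1, 1, 0, 1, 0, 1, 0], ![1, 0, 0, 1, 1, 0, 1, 0], ![1, 0, 0, 0, 0, 0, -1, 0], ![1, 0, 1, 0, 0, 1, 1, 0],
    ![0, 1, 1, 0, 1, 1, 0, 0], ![0, 1, 1, 1, 0, 0, 1, 0], ![1, 0, 0, 1, 1, 1, 0, 0], ![1, 0, 1, 0, 1, 0, 1, 0],
    ![1, 1, 0, 0, 0, 1, 1, 0], ![0, 1, 1, 1, 0, 1, 0, 0], ![1, 0, 1, 0, 1, 1, 0, 0], ![1, 0, 1, 1, 0, 0, 1, 0],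
    ![1, 1, 0, 0, 1, 0, 1, 0], ![0, 1, 1, 1, 1, 0, 0, 0], ![1, 0, 1, 1, 0, 1, 0, 0], ![1, 1, 0, 0, 1, 1, 0, 0],
    ![1, 1, 0, 1, 0, 0, 1, 0], ![1, 0, 1, 1, 1, 0, 0, 0], ![1, 1, 0, 1, 0, 1, 0, 0], ![1, 1, 1, 0, 0, 0, 1, 0],
    ![1, 1, 0, 1, 1, 0, 0, 0], ![1, 1, 1, 1, 1, 1, 2, 0], ![1, 1, 1, 0, 0, 1, 0, 0], ![1, 1, 1, 1, 1, 2, 1, 0],
    ![1, 1, 1, 0, 1, 0, 0, 0], ![1, 1, 1, 1, 2, 1, 1, 0], ![1, 1, 1, 1, 0, 0, 0, 0], ![1, 1, 1, 2, 1, 1, 1, 0],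
    ![1, 1, 2, 1, 1, 1, 1, 0], ![1, 2, 1, 1, 1, 1, 1, 0], ![2, 1, 1, 1, 1, 1, 1, 0]]

theorem unit7 : ∀ i, ∃ q, p7 q = dl i := by decide +kernel

theorem DC7 : ∀ i r, ∑ j, D7 i j * C7 r j = if i = r then 2 else 0 := by decide +kernel

theorem pos7 : ∀ q, 0 < ∑ i, ∑ j, (![34, 66, 96, 75, 52, 27, 49] : Fin 7 → ℤ) i * C7 i j * p7 q j := by decide +kernel

theorem inj7 : Function.Injective fun q => fun i => ∑ j, C7 i j * p7 q j := by decide +kernel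

theorem sum7 : ∀ i, ∑ j, C7 i j * (∑ q, p7 q) j = 2 := by decide +kernel

theorem PM7 : ∀ q k, P7 q k = ∑ i, p7 q i * M7 i k := by decide +kernel

theorem gram7 : ∀ i j, 8 * C7 i j = 8 * (∑ k, M7 i k * M7 j k) - (∑ k, M7 i k) * ∑ k, M7 j k := by decide +kernel

theorem sub7 : ∀ i j : Fin 8, i ≠ j → ∃ q, (∀ k, P7 q k - (dl i - dl j) k = P7 q 0 - (dl i - dl j) 0) ∨
    ∀ k, P7 q k + (dl i - dl j) k = P7 q 0 + (dl i - dl j) 0 := by decide +kernel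

theorem su7 : ∀ S ∈ (Finset.univ : Finset (Fin 8)).powersetCard 4, ∃ q,
    (∀ k, P7 q k - (if k ∈ S then 1 else 0) = P7 q 0 - (if 0 ∈ S then 1 else 0)) ∨
    ∀ k, P7 q k + (if k ∈ S then 1 else 0) = P7 q 0 + (if 0 ∈ S then 1 else 0) := by decide +kernel

theorem cases7 : ∀ q, (∃ i j : Fin 8, i ≠ j ∧ ∀ k, P7 q k - (dl i - dl j) k = P7 q 0 - (dl i - dl j) 0) ∨
    ∃ S ∈ (Finset.univ : Finset (Fin 8)).powersetCard 4,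
      ∀ k, P7 q k - (if k ∈ S then 1 else 0) = P7 q 0 - (if 0 ∈ S then 1 else 0) := by decide +kernel

/-- Gram matrix -/
def C6 : Fin 6 → Fin 6 → ℤ :=
  ![![2, -1, 0, 0, 0, 0], ![-1, 2, -1, 0, 0, 0], ![0, -1, 2, -1, 0, -1], ![0, 0, -1, 2, -1, 0],
    ![0, 0, 0, -1, 2, 0], ![0, 0, -1, 0, 0, 2]]

/-- a multiple of the inverse -/
def D6 : Fin 6 → Fin 6 → ℤ :=
  ![![4, 5, 6, 4, 2, 3], ![5, 10, 12, 8, 4, 6], ![6, 12, 18, 12, 6, 9], ![4, 8, 12, 10, 5, 6],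
    ![2, 4, 6, 5, 4, 3], ![3, 6, 9, 6, 3, 6]]

/-- the positive roots -/
def p6 : Fin 36 → Fin 6 → ℤ :=
  ![![0, 0, 0, 0, 0, 1], ![0, 0, 0, 0, 1, 0], ![0, 0, 0, 1, 0, 0], ![0, 0, 1, 0, 0, 0], ![0, 1, 0, 0, 0, 0],
    ![1, 0, 0, 0, 0, 0], ![0, 0, 0, 1, 1, 0], ![0, 0, 1, 0, 0, 1], ![0, 0, 1, 1, 0, 0], ![0, 1, 1, 0, 0, 0],
    ![1, 1, 0, 0, 0, 0], ![0, 0, 1, 1, 0, 1], ![0, 0, 1, 1, 1, 0], ![0, 1, 1, 0, 0, 1], ![0, 1, 1, 1, 0, 0],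
    ![1, 1, 1, 0, 0, 0], ![0, 0, 1, 1, 1, 1], ![0, 1, 1, 1, 0, 1], ![0, 1, 1, 1, 1, 0], ![1, 1, 1, 0, 0, 1],
    ![1, 1, 1, 1, 0, 0], ![0, 1, 1, 1, 1, 1], ![0, 1, 2, 1, 0, 1], ![1, 1, 1, 1, 0, 1], ![1, 1, 1, 1, 1, 0],
    ![0, 1, 2, 1, 1, 1], ![1, 1, 1, 1, 1, 1], ![1, 1, 2, 1, 0, 1], ![0, 1, 2, 2, 1, 1], ![1, 1, 2, 1, 1, 1],
    ![1, 2, 2, 1, 0, 1], ![1, 1, 2, 2, 1, 1], ![1, 2, 2, 1, 1, 1], ![1, 2, 2, 2, 1, 1], ![1, 2, 3, 2, 1, 1],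
    ![1, 2, 3, 2, 1, 2]]

/-- the base in the coordinates of the frame -/
def M6 : Fin 6 → Fin 7 → ℤ :=
  ![![1, -1, 0, 0, 0, 0, 0], ![0, 1, -1, 0, 0, 0, 0], ![0, 0, 1, -1, 0, 0, 0], ![0, 0, 0, 1, -1, 0, 0],
    ![0, 0, 0, 0, 1, -1, 0], ![0, 0, 0, 1, 1, 1, 1]]

/-- the positive roots in the coordinates of the frame -/
def P6 : Fin 36 → Fin 7 → ℤ :=
  ![![0, 0, 0, 1, 1, 1, 1], ![0, 0, 0, 0, 1, -1, 0], ![0, 0, 0, 1, -1, 0, 0], ![0, 0, 1, -1, 0, 0, 0],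
    ![0, 1, -1, 0, 0, 0, 0], ![1, -1, 0, 0, 0, 0, 0], ![0, 0, 0, 1, 0, -1, 0], ![0, 0, 1, 0, 1, 1, 1],
    ![0, 0, 1, 0, -1, 0, 0], ![0, 1, 0, -1, 0, 0, 0], ![1, 0, -1, 0, 0, 0, 0], ![0, 0, 1, 1, 0, 1, 1],
    ![0, 0, 1, 0, 0, -1, 0], ![0, 1, 0, 0, 1, 1, 1], ![0, 1, 0, 0, -1, 0, 0], ![1, 0, 0, -1, 0, 0, 0],
    ![0, 0, 1, 1, 1, 0, 1], ![0, 1, 0, 1, 0, 1, 1], ![0, 1, 0, 0, 0, -1, 0], ![1, 0, 0, 0, 1, 1, 1],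
    ![1, 0, 0, 0, -1, 0, 0], ![0, 1, 0, 1, 1, 0, 1], ![0, 1, 1, 0, 0, 1, 1], ![1, 0, 0, 1, 0, 1, 1],
    ![1, 0, 0, 0, 0, -1, 0], ![0, 1, 1, 0, 1, 0, 1], ![1, 0, 0, 1, 1, 0, 1], ![1, 0, 1, 0, 0, 1, 1],
    ![0, 1, 1, 1, 0, 0, 1], ![1, 0, 1, 0, 1, 0, 1], ![1, 1, 0, 0, 0, 1, 1], ![1, 0, 1, 1, 0, 0, 1],
    ![1, 1, 0, 0, 1, 0, 1], ![1, 1, 0, 1, 0, 0, 1], ![1, 1, 1, 0, 0, 0, 1], ![1, 1, 1, 1, 1, 1, 2]]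

theorem unit6 : ∀ i, ∃ q, p6 q = dl i := by decide +kernel

theorem DC6 : ∀ i r, ∑ j, D6 i j * C6 r j = if i = r then 3 else 0 := by decide +kernel

theorem pos6 : ∀ q, 0 < ∑ i, ∑ j, (![16, 30, 42, 30, 16, 22] : Fin 6 → ℤ) i * C6 i j * p6 q j := by decide +kernel

theorem inj6 : Function.Injective fun q => fun i => ∑ j, C6 i j * p6 q j := by decide +kernel

theorem sum6 : ∀ i, ∑ j, C6 i j * (∑ q, p6 q) j = 2 := by decide +kernel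

theorem PM6 : ∀ q k, P6 q k = ∑ i, p6 q i * M6 i k := by decide +kernel

end L2
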