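import Pool.Agent.Helper81.L2.DefsS
import Pool.Agent.Helper90.LT.Num

/-!
Project L2 (MP_b8862a_ag): from the dimension `n` and the trace identity to the pair `s`, `n - 2 s`, symplectic modules.
-/

open LT

namespace L2

/-- primitive exterior powers for `Sp_(2 m)`, odd degree -/
theorem q_spO {m i n s : ℕ} (hm : 3 ≤ m) (hi : Odd i) (h2 : i + 2 ≤ m) (hn : n + (2 * m).choose i = (2 * m).choose (i + 2))
    (hs : s * (2 * m * (2 * m + 1)) = n * ((i + 2) * (2 * m - i))) : ExcS s (n - 2 * s) := by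
  obtain ⟨r, rfl⟩ : ∃ r, m = r + 1 := ⟨m - 1, by omega⟩
  have hM : 2 * (r + 1) = 2 * r + 2 := by ring
  rw [hM] at hn hs
  set M := 2 * r with hMdef
  -- key identity over the integers
  have key : ∀ a : ℕ, (i = 0 ∧ a = 0) ∨ (∃ j, i = j + 1 ∧ a = M.choose j) →
      (((M.choose (i + 1) : ℕ) : ℤ) - (a : ℤ)) * ((M + 2 : ℤ) * (M + 3)) =
        (((M + 2).choose (i + 2) : ℕ) - ((M + 2).choose i : ℕ) : ℤ) * ((i + 2 : ℤ) * (M + 2 - i)) := by
    intro a ha
    -- in terms of `C(M + 2, i + 1)`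
    have hiM : i + 1 ≤ M := by omega
    -- `C(M + 2, i + 2) (i + 2) = C(M + 2, i + 1) (M + 1 - i)`
    have f1 : ((M + 2).choose (i + 2) : ℤ) * (i + 2) = (M + 2).choose (i + 1) * (M + 1 - i) := by
      have := Nat.choose_succ_right_eq (M + 2) (i + 1)
      have h' : M + 2 - (i + 1) = M + 1 - i := by omega
      rw [h'] at this
      have := congrArg (fun x : ℕ => (x : ℤ)) this
      push_cast [Nat.cast_sub (show i ≤ M + 1 by omega)] at this
      linarith
    -- `C(M + 2, i + 1) (i + 1) = C(M + 2, i) (M + 2 - i)`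
    have f2 : ((M + 2).choose (i + 1) : ℤ) * (i + 1) = (M + 2).choose i * (M + 2 - i) := by
      have := Nat.choose_succ_right_eq (M + 2) i
      have := congrArg (fun x : ℕ => (x : ℤ)) this
      push_cast [Nat.cast_sub (show i ≤ M + 2 by omega)] at this
      linarith
    -- `C(M, i + 1) (M + 2) (M + 1) = C(M + 2, i + 2) (i + 2) (M - i)`
    have f3 : (M.choose (i + 1) : ℤ) * ((M + 2) * (M + 1)) = (M + 2).choose (i + 2) * ((i + 2) * (M - i)) := by
      have := ch2 M i (by omega)
      have := congrArg (fun x : ℕ => (x : ℤ)) this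
      push_cast [Nat.cast_sub (show i ≤ M by omega)] at this
      linarith
    -- `a (M + 2) (M + 1) = C(M + 2, i) i (M + 2 - i)`
    have f4 : (a : ℤ) * ((M + 2) * (M + 1)) = (M + 2).choose i * (i * (M + 2 - i)) := by
      rcases ha with ⟨h0, h1⟩ | ⟨j, hj, h1⟩
      · subst h1; rw [h0]; simp
      · subst h1
        rcases Nat.eq_zero_or_pos j with h0 | h0
        · subst h0
          rw [hj]
          simp only [Nat.choose_zero_right, Nat.zero_add, Nat.choose_one_right]
          push_cast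
          ring
        · obtain ⟨t, rfl⟩ : ∃ t, j = t + 1 := ⟨j - 1, by omega⟩
          have := ch2 M t (by omega)
          have := congrArg (fun x : ℕ => (x : ℤ)) this
          push_cast [Nat.cast_sub (show t ≤ M by omega)] at this
          rw [hj]
          push_cast
          linarith
    have hp : ((M : ℤ) + 1) ≠ 0 := by positivity
    apply mul_right_cancel₀ hp
    linear_combination ((M : ℤ) + 3) * f3 - ((M : ℤ) + 3) * f4
      + (((M : ℤ) + 3) * (M - i) - (M + 2 - i) * (M + 1)) * f1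
      + (((M : ℤ) + 3) * i - (M + 1) * (i + 2)) * f2
  have hnz : (n : ℤ) = ((M + 2).choose (i + 2) : ℕ) - ((M + 2).choose i : ℕ) := by
    have := congrArg (fun x : ℕ => (x : ℤ)) hn
    push_cast at this
    linarith
  have hsz : (s : ℤ) * ((M + 2 : ℤ) * (M + 3)) = n * ((i + 2 : ℤ) * (M + 2 - i)) := by
    have := congrArg (fun x : ℕ => (x : ℤ)) hs
    push_cast [Nat.cast_sub (show i ≤ M + 2 by omega)] at this
    linarith
  have hp : ((M + 2 : ℤ) * (M + 3)) ≠ 0 := by positivity
  have sa : ∀ a : ℕ, (i = 0 ∧ a = 0) ∨ (∃ j, i = j + 1 ∧ a = M.choose j) → (s : ℤ) = M.choose (i + 1) - a := by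
    intro a ha
    apply mul_right_cancel₀ hp
    rw [hsz, hnz, ← key a ha]
  obtain ⟨t', ht'⟩ := hi
  rcases Nat.eq_zero_or_pos t' with h0 | h0
  · subst h0
    have hi1 : i = 1 := by omega
    subst hi1
    have hs1 := sa (M.choose 0) (Or.inr ⟨0, rfl, rfl⟩)
    have h3 := ch3 M 1
    have h4 : (M + 2).choose 3 = M.choose 1 + 2 * M.choose 2 + M.choose 3 := ch3 M 1
    have hM4 : 4 ≤ M := by omega
    simp only [Nat.choose_zero_right, Nat.choose_one_right] at hs1 h4 hn
    have hc2 : 1 ≤ M.choose 2 := Nat.choose_pos (by omega)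
    refine Or.inr (Or.inr (Or.inl (Or.inl ⟨r, by omega, ?_, ?_⟩)))
    · rw [← hMdef]
      have e0 : ((s + 1 : ℕ) : ℤ) = ((M.choose 2 : ℕ) : ℤ) := by
        push_cast
        rw [hs1]
        push_cast
        ring
      exact_mod_cast e0
    · rw [← hMdef]
      have e0 : ((s + 1 : ℕ) : ℤ) = ((M.choose 2 : ℕ) : ℤ) := by
        push_cast
        rw [hs1]
        push_cast
        ring
      have e1 : s + 1 = M.choose 2 := by exact_mod_cast e0
      have e2 : n + (M + 2) = M + 2 * M.choose 2 + M.choose 3 := by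
        rw [← h4]
        exact hn
      omega
  · obtain ⟨t, rfl⟩ : ∃ t, i = t + 2 := ⟨i - 2, by omega⟩
    have hs1 := sa (M.choose (t + 1)) (Or.inr ⟨t + 1, rfl, rfl⟩)
    have h3 := ch3 M t
    have h4 := ch3 M (t + 2)
    have hev : Odd t := ⟨t' - 1, by omega⟩
    simp only [show t + 2 + 1 = t + 3 from rfl, show t + 2 + 2 = t + 4 from rfl] at *
    have hr : M / 2 = r := by omega
    have m1 := Nat.choose_le_succ_of_lt_half_left (r := t) (n := M) (by omega)
    have m2 := Nat.choose_le_succ_of_lt_half_left (r := t + 1) (n := M) (by omega)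
    have m3 := Nat.choose_le_succ_of_lt_half_left (r := t + 2) (n := M) (by omega)
    simp only [show t + 1 + 1 = t + 2 from rfl, show t + 2 + 1 = t + 3 from rfl] at m2 m3
    have m4 : M.choose (t + 2) ≤ M.choose (t + 4) := by
      rcases Nat.lt_or_ge (t + 3) r with hlt | hge
      · have m5 := Nat.choose_le_succ_of_lt_half_left (r := t + 3) (n := M) (by omega)
        exact m3.trans m5
      · have : M = (t + 4) + (t + 2) := by omega
        rw [← Nat.choose_symm_of_eq_add this]
    refine Or.inr (Or.inr (Or.inl (Or.inr ⟨r, t, hev, by omega, ?_, ?_⟩)))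
    · rw [← hMdef]; omega
    · rw [← hMdef]; omega

/-- the middle exterior power, odd degree -/
theorem q_mO {k n s : ℕ} (hk : 3 ≤ k) (he : Odd k) (hn : n = (2 * k).choose k)
    (hs : s * (2 * (2 * k - 1)) = n * (k - 1) ∨ s * (2 * (2 * k - 1)) = n * k) : ExcS s (n - 2 * s) := by
  obtain ⟨t, rfl⟩ : ∃ t, k = t + 2 := ⟨k - 2, by omega⟩
  have e1 : 2 * (t + 2) = (2 * t + 2) + 2 := by ring
  have e2 : 2 * t + 2 + 2 - 1 = 2 * t + 3 := by omega
  have e3 : t + 2 - 1 = t + 1 := by omega
  have e4 : 2 * (t + 2) - 2 = 2 * t + 2 := by omega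
  rw [e1] at hn
  rw [e1, e2, e3] at hs
  have c2 := ch2 (2 * t + 2) t (by omega)
  have c3 := ch3 (2 * t + 2) t
  have e5 : 2 * t + 2 - t = t + 2 := by omega
  rw [e5] at c2
  have sy : (2 * t + 2).choose (t + 2) = (2 * t + 2).choose t := by
    rw [← Nat.choose_symm_of_eq_add (show 2 * t + 2 = (t + 2) + t by ring)]
  -- `C(2 t + 2, t + 2) (t + 2) = C(2 t + 2, t + 1) (t + 1)`
  have r1 := Nat.choose_succ_right_eq (2 * t + 2) (t + 1)
  have e6 : 2 * t + 2 - (t + 1) = t + 1 := by omega
  rw [e6] at r1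
  rw [← hn] at c2 c3
  set b := (2 * t + 2).choose (t + 1)
  set a := (2 * t + 2).choose (t + 2)
  -- `b (2 t + 4) (2 t + 3) = n (t + 2)^2`
  have hb : b * (2 * (2 * t + 3)) = n * (t + 2) := by
    have : (b * (2 * (2 * t + 3))) * (t + 2) = (n * (t + 2)) * (t + 2) := by
      calc (b * (2 * (2 * t + 3))) * (t + 2) = b * ((2 * t + 2 + 2) * (2 * t + 2 + 1)) := by ring
        _ = n * ((t + 2) * (t + 2)) := c2
        _ = _ := by ring
    exact Nat.eq_of_mul_eq_mul_right (by omega) this
  rcases hs with hs | hs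
  · -- `s = a`
    have hsa : s = a := by
      have h1 : (s * (t + 2)) * (2 * (2 * t + 3)) = (a * (t + 2)) * (2 * (2 * t + 3)) := by
        calc (s * (t + 2)) * (2 * (2 * t + 3)) = (s * (2 * (2 * t + 3))) * (t + 2) := by ring
          _ = (n * (t + 1)) * (t + 2) := by rw [hs]
          _ = (n * (t + 2)) * (t + 1) := by ring
          _ = (b * (2 * (2 * t + 3))) * (t + 1) := by rw [hb]
          _ = (b * (t + 1)) * (2 * (2 * t + 3)) := by ring
          _ = _ := by rw [← r1]
      have h2 := Nat.eq_of_mul_eq_mul_right (by omega) h1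
      exact Nat.eq_of_mul_eq_mul_right (by omega) h2
    refine Or.inr (Or.inl ⟨t + 2, hk, he, Or.inl ⟨?_, ?_⟩⟩)
    · rw [e4]; exact hsa
    · rw [e4, e3]
      change n - 2 * s = 2 * b
      omega
  · have hsb : s = b := by
      have h1 : s * (2 * (2 * t + 3)) = b * (2 * (2 * t + 3)) := by rw [hs, hb]
      exact Nat.eq_of_mul_eq_mul_right (by omega) h1
    refine Or.inr (Or.inl ⟨t + 2, hk, he, Or.inr ⟨?_, ?_⟩⟩)
    · rw [e4, e3]; exact hsb
    · rw [e4]
      change n - 2 * s = 2 * a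
      omega

end L2
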