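import Pool.Agent.Helper2.LT.List
import Pool.Agent.Helper43.L2.TopO
import Pool.Agent.Helper81.L2.ListS

/-!
Project L2 (MP_b8862a_ag): a self-dual module with the levels `-1`, `0`, `1` outside the lists.
-/

set_option linter.unusedSectionVars false
set_option linter.unusedVariables false

open Module LieModule LieAlgebra LieAlgebra.IsKilling MTP.MF PF PF.W PF.L TF PW

attribute [local instance 100] LieRing.ofAssociativeRing

namespace L2

/-- A simple irreducible Lie algebra with an invariant symmetric or alternating form and an element with the eigenvalues `1`,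
`0`, `-1` of multiplicities `s`, `n - 2 s`, `s` outside the lists consists of all skew endomorphisms. -/
theorem self3 {V : Type} [AddCommGroup V] [Module ℂ V] [FiniteDimensional ℂ V] {ω : LinearMap.BilinForm ℂ V}
    (hω : ω.IsSymm ∨ ω.IsAlt) (hnd : ω.Nondegenerate) {L : LieSubalgebra ℂ (Module.End ℂ V)} (hsimp : IsSimple ℂ L)
    (hirr : ∀ W : Submodule ℂ V, (∀ x ∈ L, ∀ u ∈ W, x u ∈ W) → W = ⊥ ∨ W = ⊤)
    (hsk : ∀ x ∈ L, ∀ u v, ω (x u) v = -ω u (x v))
    (h : Module.End ℂ V) (hh : h ∈ L) {s : ℕ} (hs : 0 < s) (h2s : 2 * s < finrank ℂ V) (h5 : 5 ≤ finrank ℂ V)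
    (hsup : Module.End.eigenspace h 1 ⊔ Module.End.eigenspace h 0 ⊔ Module.End.eigenspace h (-1) = ⊤)
    (h1 : finrank ℂ (Module.End.eigenspace h 1) = s) (h2 : finrank ℂ (Module.End.eigenspace h (-1)) = s)
    (hx1 : ¬ LT.Exc s (finrank ℂ V - 2 * s)) (hx2 : ¬ ExcS s (finrank ℂ V - 2 * s))
    (x : Module.End ℂ V) (hx : ∀ u v, ω (x u) v = -ω u (x v)) : x ∈ L := by
  rcases hω with hsymm | halt
  · refine LT.core_lt (Or.inl hsymm) hnd hsimp hirr hsk h hh hs h2s h5 hsup h1 h2 ?_ x hx
    intro ι _ Φ X l y v hd ht hp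
    rcases LT.list hd ht (hp hsymm) h5 with h3 | h3 | h3
    · exact Or.inl h3
    · exact Or.inr h3
    · exact absurd h3 hx1
  · refine LT.core_ltO halt hnd hsimp hirr hsk h hh hs h2s h5 hsup h1 h2 ?_ x hx
    intro ι _ Φ X l y v hd ht hp
    rcases listS hd ht hp h5 with h3 | h3
    · exact h3
    · exact absurd h3 hx2

end L2
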